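import Pool.Agent.CSG.Defs

/-!
# The field of constants is a number field

Elements of the field of constants which are linearly independent over `ℚ` are linearly independent over `ℚ(g)`,
because `g` is transcendental over the field of constants. So its degree is at most `[K : ℚ(g)]`.
-/

open scoped BigOperators Polynomial
open Polynomial

namespace Pool.Agent.CSG

open scoped IntermediateField.algebraAdjoinAdjoin

private theorem Cns_li {K : Type} [Field K] [CharZero K] {g : K} (hg : Transcendental ℚ g) {ι : Type}
    {b : ι → algebraicClosure ℚ K} (hb : LinearIndependent ℚ b) :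
    LinearIndependent (Algebra.adjoin ℚ {g}) fun i => (b i : K) := by
  have halg : Algebra.IsAlgebraic ℚ (algebraicClosure ℚ K) := algebraicClosure.isAlgebraic ℚ K
  have htr : Transcendental (algebraicClosure ℚ K) g := fun h => hg (h.restrictScalars ℚ)
  rw [linearIndependent_iff']
  intro s c hc i hi
  have hP : ∀ j, ∃ P : ℚ[X], aeval g P = (c j : K) := by
    intro j
    have h1 : (c j : K) ∈ (aeval (R := ℚ) g).range :=
      Algebra.adjoin_singleton_eq_range_aeval ℚ g ▸ (c j).2
    exact h1
  choose P hP using hP
  have hQ : aeval g (∑ j ∈ s, C (b j) * (P j).map (algebraMap ℚ (algebraicClosure ℚ K))) = 0 := by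
    rw [map_sum, ← hc]
    refine Finset.sum_congr rfl fun j _ => ?_
    rw [map_mul, aeval_C, aeval_map_algebraMap, hP, Algebra.smul_def, mul_comm]
    rfl
  have hQ0 := transcendental_iff.1 htr _ hQ
  have hPi : P i = 0 := by
    ext n
    rw [coeff_zero]
    refine linearIndependent_iff'.1 hb s (fun j => (P j).coeff n) ?_ i hi
    have h2 := congrArg (fun q => coeff q n) hQ0
    simp only [finsetSum_coeff, coeff_C_mul, coeff_map, coeff_zero] at h2
    rw [← h2]
    refine Finset.sum_congr rfl fun j _ => ?_
    rw [Algebra.smul_def, mul_comm]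
  have h3 := hP i
  rw [hPi, map_zero] at h3
  exact Subtype.ext h3.symm

theorem finite_constants {K : Type} [Field K] [CharZero K] {g : K} (hg : Transcendental ℚ g)
    (hK : FiniteDimensional (IntermediateField.adjoin ℚ {g}) K) :
    FiniteDimensional ℚ (algebraicClosure ℚ K) := by
  have h1 := Cns_li hg (Module.Basis.ofVectorSpace ℚ (algebraicClosure ℚ K)).linearIndependent
  have h2 := (LinearIndependent.iff_fractionRing (Algebra.adjoin ℚ {g}) (IntermediateField.adjoin ℚ {g})).1 h1
  have h3 := h2.finite
  exact Module.Finite.of_basis (Module.Basis.ofVectorSpace ℚ (algebraicClosure ℚ K))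

end Pool.Agent.CSG
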