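import Pool.Agent.CSG.Defs
import Pool.Agent.CST.PlA
import Pool.Agent.CST.Ord

/-!
# Maximal roots

A non constant `g` is `a h ^ m` with `a` in `k` and `h` not of the form `a' u ^ p`: the exponents `m` are
bounded by the order of `g` at one of its zeros.
-/

open scoped BigOperators Polynomial
open Polynomial

namespace Pool.Agent.CSG

open Pool.Agent.CST

/-- elements algebraic over `ℚ` are in `O` -/
private theorem max_mem {K : Type} [Field K] [CharZero K] {O : ValuationSubring K} (hO : IsPl O)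
    {c : K} (hc : IsAlgebraic ℚ c) : c ∈ O := by
  have hint : IsIntegral ℚ c := isAlgebraic_iff_isIntegral.1 hc
  obtain ⟨p, hpm, hp⟩ := hint
  let φ : ℚ →+* O := (algebraMap ℚ K).codRestrict O.toSubring (fun q => by
    have h := hO.2 q
    rw [eq_ratCast]
    exact h)
  have hφ : (algebraMap O K).comp φ = algebraMap ℚ K := by
    ext q
    rfl
  have hcO : IsIntegral O c := by
    refine ⟨p.map φ, hpm.map φ, ?_⟩
    rw [eval₂_map, hφ]
    exact hp
  obtain ⟨y, hy⟩ := IsIntegrallyClosed.algebraMap_eq_of_integral hcO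
  rw [← hy]
  exact y.2

private theorem max_vo {k K : Type} [Field k] [CharZero k] [Field K] [CharZero K] [Algebra k K]
    (hk : Algebra.IsAlgebraic ℚ k) {O : ValuationSubring K} (hO : IsPl O) {a : k} (_ha : a ≠ 0)
    (aU : Kˣ) (haU : (aU : K) = algebraMap k K a) : vo O aU = 0 := by
  have h1 : ∀ c : k, IsAlgebraic ℚ (algebraMap k K c) := by
    intro c
    have h2 := hk.isAlgebraic c
    exact h2.algHom (algebraMap k K).toRatAlgHom
  have h3 : 0 ≤ vo O aU := by
    rw [vo_nonneg_iff hO, haU]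
    exact max_mem hO (h1 a)
  have h4 : 0 ≤ vo O aU⁻¹ := by
    rw [vo_nonneg_iff hO, Units.val_inv_eq_inv_val, haU, ← map_inv₀]
    exact max_mem hO (h1 a⁻¹)
  have h5 := vo_zpow O aU (-1)
  rw [zpow_neg_one] at h5
  omega

theorem exists_max {k K : Type} [Field k] [CharZero k] [Field K] [CharZero K] [Algebra k K]
    (hk : Algebra.IsAlgebraic ℚ k) {g : K} (hg : Transcendental ℚ g)
    (hK : FiniteDimensional (IntermediateField.adjoin ℚ {g}) K) :
    ∃ (a : k) (m : ℕ) (h : K), a ≠ 0 ∧ 0 < m ∧ g = algebraMap k K a * h ^ m ∧ NpwK k h := by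
  classical
  obtain ⟨O, hO, hv⟩ := exists_zero hg hK
  have hg0 : g ≠ 0 := by
    rintro rfl
    exact hg isAlgebraic_zero
  set gU : Kˣ := Units.mk0 g hg0 with hgU
  have hpos : 0 < vo O gU := (vo_pos_iff hO gU).2 hv
  have hbd : ∀ (a : k) (m : ℕ) (h : K), g = algebraMap k K a * h ^ m → 0 < m →
      m ≤ (vo O gU).toNat := by
    intro a m h hgm hm
    have ha0 : a ≠ 0 := by
      rintro rfl
      apply hg0
      rw [hgm, map_zero, zero_mul]
    have hh0 : h ≠ 0 := by
      rintro rfl
      apply hg0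
      rw [hgm, zero_pow hm.ne', mul_zero]
    have haK : algebraMap k K a ≠ 0 := by
      rw [Ne, map_eq_zero_iff _ (algebraMap k K).injective]
      exact ha0
    have h1 : gU = Units.mk0 (algebraMap k K a) haK * (Units.mk0 h hh0) ^ (m : ℤ) := by
      ext
      rw [hgU, Units.val_mk0, Units.val_mul, Units.val_mk0, zpow_natCast, Units.val_pow_eq_pow_val,
        Units.val_mk0, ← hgm]
    have h2 : vo O gU = (m : ℤ) * vo O (Units.mk0 h hh0) := by
      rw [h1, vo_mul, vo_zpow, max_vo hk hO ha0 (Units.mk0 (algebraMap k K a) haK) rfl, zero_add]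
    have h3 : 0 < vo O (Units.mk0 h hh0) := by
      by_contra hcon
      have h4 : (m : ℤ) * vo O (Units.mk0 h hh0) ≤ 0 :=
        mul_nonpos_of_nonneg_of_nonpos (Int.natCast_nonneg m) (not_lt.1 hcon)
      omega
    have h5 : (m : ℤ) ≤ vo O gU := by
      rw [h2]
      exact le_mul_of_one_le_right (Int.natCast_nonneg m) (by omega)
    omega
  let P : ℕ → Prop := fun m => 0 < m ∧ ∃ (a : k) (h : K), g = algebraMap k K a * h ^ m
  have hP1 : P 1 := ⟨one_pos, 1, g, by rw [map_one, one_mul, pow_one]⟩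
  have hPb : ∀ m, P m → m ≤ (vo O gU).toNat := by
    rintro m ⟨hm, a, h, hgm⟩
    exact hbd a m h hgm hm
  have hspec : P (Nat.findGreatest P (vo O gU).toNat) := Nat.findGreatest_spec (hPb 1 hP1) hP1
  set m := Nat.findGreatest P (vo O gU).toNat with hm
  obtain ⟨hm0, a, h, hgm⟩ := hspec
  have ha0 : a ≠ 0 := by
    rintro rfl
    apply hg0
    rw [hgm, map_zero, zero_mul]
  refine ⟨a, m, h, ha0, hm0, hgm, ?_⟩
  intro p hp a' u hu
  have hPpm : P (p * m) := by
    refine ⟨Nat.mul_pos hp.pos hm0, a * a' ^ m, u, ?_⟩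
    rw [map_mul, map_pow, hgm, hu, mul_pow, ← pow_mul, mul_assoc]
  have hlt : m < p * m := by
    have h2 := hp.two_le
    nlinarith
  exact Nat.findGreatest_is_greatest hlt (hPb _ hPpm) hPpm

end Pool.Agent.CSG
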