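import Pool.Agent.CSG.Rek
import Pool.Agent.CSG.Max
import Pool.Agent.CSG.Cns
import Pool.Agent.CST.Sli

/-!
# The slice `{g, K^*}` of the unramified part of `K₂(K) ⊗ ℚ` is finite-dimensional, for every `g`

`k` is the field of constants, `g = a h ^ m` with `m` maximal, `S` the finite set of the special points
(`spcK_finite`). A linearly independent family in the slice has at most `S.card` members: the vectors
of the orders at the points of `S` are linearly independent by `sy_eq_zeroK`.
-/

open scoped BigOperators Polynomial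
open Polynomial

namespace Pool.Agent.CSG

open Pool.Agent.CST Pool.Agent.Helper11 Pool.Agent.ISI

/-- common denominators -/
private theorem slk_int {ι : Type*} [Fintype ι] (q : ι → ℚ) :
    ∃ N : ℕ, 0 < N ∧ ∀ i, ∃ b : ℤ, (b : ℚ) = N * q i := by
  classical
  refine ⟨∏ i, (q i).den, Finset.prod_pos fun i _ => (q i).den_pos, fun i => ?_⟩
  refine ⟨(∏ j ∈ Finset.univ.erase i, ((q j).den : ℤ)) * (q i).num, ?_⟩
  rw [← Finset.mul_prod_erase Finset.univ (fun j => (q j).den) (Finset.mem_univ i)]
  push_cast
  have h1 : ((q i).den : ℚ) * q i = (q i).num := Rat.den_mul_eq_num (q i)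
  rw [← h1]
  ring

/-- a slice is finite-dimensional if its elements are determined by the orders at the points of a
finite set -/
private theorem slk_fin {K : Type} [Field K] [CharZero K] {g : Kˣ} {S : Set (ValuationSubring K)}
    (hS : S.Finite)
    (H : ∀ f : Kˣ, sy g f ∈ geomM K → (∀ O ∈ S, vo O f = 0) → sy g f = 0) :
    Module.Finite ℚ ↥(slM g ⊓ geomM K) := by
  classical
  have hF : Fintype S := hS.fintype
  have key : Module.rank ℚ ↥(slM g ⊓ geomM K) ≤ (Fintype.card S : ℕ) := by
    refine rank_le fun s hs => ?_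
    by_contra hcon
    push Not at hcon
    have h1 : ∀ z : ↥(slM g ⊓ geomM K), ∃ (m : ℕ) (h : Kˣ), 0 < m ∧
        (m : ℚ) • (z : KMQ K 2) = sy g h := fun z => clear_denominators z.2.1
    choose m h hm hz using h1
    set v : s → (S → ℚ) := fun z O => (vo O.1 (h z) : ℚ) / m z with hv
    have h2 : ¬ LinearIndependent ℚ v := by
      intro hli
      have h3 := hli.fintype_card_le_finrank
      rw [Module.finrank_fintype_fun_eq_card, Fintype.card_coe] at h3
      omega
    rw [Fintype.not_linearIndependent_iff] at h2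
    obtain ⟨a, ha, i0, hi0⟩ := h2
    obtain ⟨N, hN, hb⟩ := slk_int (fun z : s => a z / m z)
    choose b hb using hb
    have hNr : (N : ℚ) ≠ 0 := by exact_mod_cast hN.ne'
    have hm0 : ∀ z, (m z : ℚ) ≠ 0 := fun z => by exact_mod_cast (hm z).ne'
    set f : Kˣ := ∏ z : s, h z ^ b z with hf
    have hsy : sy g f = ∑ z : s, ((N : ℚ) * a z) • ((z : ↥(slM g ⊓ geomM K)) : KMQ K 2) := by
      rw [hf, sy_prod_right]
      refine Finset.sum_congr rfl fun z _ => ?_
      rw [sy_zpow_right, ← hz, smul_smul, hb z]
      congr 1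
      field_simp [hm0 z]
    have hgeo : sy g f ∈ geomM K := by
      rw [hsy]
      exact Submodule.sum_mem _ fun z _ => Submodule.smul_mem _ _ (z : ↥(slM g ⊓ geomM K)).2.2
    have hvo : ∀ O ∈ S, vo O f = 0 := by
      intro O hO
      have h3 : (vo O f : ℚ) = 0 := by
        rw [hf, vo_prod]
        push_cast
        have h4 := congrFun ha ⟨O, hO⟩
        rw [Finset.sum_apply] at h4
        have h5 : ∀ z : s, ((vo O (h z ^ b z) : ℤ) : ℚ) = N * (a z • v z) ⟨O, hO⟩ := by
          intro z
          rw [vo_zpow, Pi.smul_apply, smul_eq_mul, hv]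
          push_cast
          rw [hb z]
          ring
        rw [Finset.sum_congr rfl fun z _ => h5 z, ← Finset.mul_sum, h4]
        simp
      exact_mod_cast h3
    have h0 := H f hgeo hvo
    rw [hsy] at h0
    have h6 : ∑ z : s, ((N : ℚ) * a z) • (z : ↥(slM g ⊓ geomM K)) = 0 := by
      apply Subtype.ext
      rw [AddSubmonoidClass.coe_finsetSum]
      simpa using h0
    have h7 := Fintype.linearIndependent_iff.1 hs _ h6 i0
    rcases mul_eq_zero.1 h7 with h8 | h8
    · exact hNr h8
    · exact hi0 h8
  exact Module.rank_lt_aleph0_iff.1 (key.trans_lt (Cardinal.natCast_lt_aleph0))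

theorem slice_finiteK {K : Type} [Field K] [CharZero K] {g : Kˣ}
    (hg : Transcendental ℚ (g : K))
    (hK : FiniteDimensional (IntermediateField.adjoin ℚ {(g : K)}) K) :
    Module.Finite ℚ ↥(slM g ⊓ geomM K) := by
  have hkf : FiniteDimensional ℚ (algebraicClosure ℚ K) := finite_constants hg hK
  have hka : Algebra.IsAlgebraic ℚ (algebraicClosure ℚ K) := inferInstance
  have hc : CstK (algebraicClosure ℚ K) K := by
    intro a ha
    have h1 : IsAlgebraic ℚ a := ha.restrictScalars ℚ
    exact ⟨⟨a, mem_algebraicClosure_iff.2 h1⟩, rfl⟩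
  obtain ⟨a, m, h, ha, hm, hgh, hp⟩ := exists_max hka hg hK
  have hh : Transcendental ℚ h := by
    intro h1
    apply hg
    rw [hgh]
    exact ((Algebra.IsAlgebraic.isAlgebraic a).algebraMap).mul (h1.pow m)
  have hhk : Transcendental (algebraicClosure ℚ K) h := fun h1 => hh (h1.restrictScalars ℚ)
  have hKh := finite_of_transcendental hK hh
  obtain ⟨E, hE, H⟩ := exists_points hkf hc hh hKh hp ha hm
  exact slk_fin (spcK_finite hE hhk g.ne_zero hK)
    (fun f hf h0 => sy_eq_zeroK hka hc hg hK ha hm hgh H hf h0)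

end Pool.Agent.CSG
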