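import Pool.Agent.CSG.Defs
import Pool.Agent.CST.PlA

/-!
# Places and constants

The elements algebraic over `ℚ` belong to every place; a transcendental element has finitely many zeros and
poles, and at least one pole.
-/

open scoped BigOperators Polynomial
open Polynomial

namespace Pool.Agent.CSG

open Pool.Agent.CST

private theorem plI_alg_mem {K : Type} [Field K] [CharZero K] {O : ValuationSubring K}
    (hO : IsPl O) {b : K} (hb : IsAlgebraic ℚ b) : b ∈ O := by
  obtain ⟨p, hp, hpb⟩ := hb.isIntegral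
  have hφ : ∀ q : ℚ, algebraMap ℚ K q ∈ O.toSubring := fun q => hO.2 q
  have h1 : IsIntegral O b := by
    refine ⟨p.map ((algebraMap ℚ K).codRestrict O.toSubring hφ), hp.map _, ?_⟩
    rw [eval₂_map]
    exact hpb
  obtain ⟨y, hy⟩ := IsIntegrallyClosed.isIntegral_iff.1 h1
  rw [← hy]
  exact y.2

theorem const_mem {k K : Type} [Field k] [CharZero k] [Field K] [CharZero K] [Algebra k K]
    (hk : Algebra.IsAlgebraic ℚ k) {O : ValuationSubring K} (hO : IsPl O) (a : k) :
    algebraMap k K a ∈ O :=
  plI_alg_mem hO ((hk.isAlgebraic a).algHom (algebraMap k K).toRatAlgHom)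

private theorem plI_inv {K : Type} [Field K] [CharZero K] {h : K} (hh : Transcendental ℚ h) :
    Transcendental ℚ h⁻¹ := by
  intro e
  exact hh (IsAlgebraic.inv_iff.1 e)

theorem finite_suppK {K : Type} [Field K] [CharZero K] {g : K}
    (hK : FiniteDimensional (IntermediateField.adjoin ℚ {g}) K) {h : K} (h0 : h ≠ 0) :
    {O : ValuationSubring K | IsPl O ∧ O.valuation h ≠ 1}.Finite := by
  by_cases ha : IsAlgebraic ℚ h
  · refine Set.Finite.subset Set.finite_empty ?_
    rintro O ⟨hO, hv⟩
    apply hv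
    have h1 : O.valuation h ≤ 1 := (O.valuation_le_one_iff _).2 (plI_alg_mem hO ha)
    have h2 : O.valuation h⁻¹ ≤ 1 :=
      (O.valuation_le_one_iff _).2 (plI_alg_mem hO (IsAlgebraic.inv_iff.2 ha))
    rw [map_inv₀] at h2
    have h3 : O.valuation h ≠ 0 := (O.valuation.ne_zero_iff).2 h0
    exact le_antisymm h1 ((inv_le_one₀ (zero_lt_iff.2 h3)).1 h2)
  · have hh : Transcendental ℚ h := ha
    refine ((finite_zeros hh (finite_of_transcendental hK hh)).union
      (finite_zeros (plI_inv hh) (finite_of_transcendental hK (plI_inv hh)))).subset ?_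
    rintro O ⟨hO, hv⟩
    by_cases hle : O.valuation h ≤ 1
    · exact Or.inl ⟨hO, lt_of_le_of_ne hle hv⟩
    · refine Or.inr ⟨hO, ?_⟩
      rw [map_inv₀]
      exact inv_lt_one_of_one_lt₀ (not_le.1 hle)

theorem const_of_mem {k K : Type} [Field k] [CharZero k] [Field K] [CharZero K] [Algebra k K]
    (hc : CstK k K) {g : K} (hK : FiniteDimensional (IntermediateField.adjoin ℚ {g}) K) {h : K}
    (H : ∀ O : ValuationSubring K, IsPl O → h ∈ O) : ∃ q : k, algebraMap k K q = h := by
  by_cases ha : IsAlgebraic ℚ h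
  · exact hc h (ha.tower_top k)
  · have hh : Transcendental ℚ h := ha
    obtain ⟨O, hO, hv⟩ := exists_zero (plI_inv hh) (finite_of_transcendental hK (plI_inv hh))
    have h1 : O.valuation h ≤ 1 := (O.valuation_le_one_iff _).2 (H O hO)
    have h0 : h ≠ 0 := by
      rintro rfl
      exact hh isAlgebraic_zero
    have h3 : O.valuation h ≠ 0 := (O.valuation.ne_zero_iff).2 h0
    rw [map_inv₀] at hv
    exact absurd hv (not_lt.2 ((one_le_inv₀ (zero_lt_iff.2 h3)).2 h1))

end Pool.Agent.CSG
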