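import Pool.Agent.CSG.PlI
import Pool.Agent.CST.Tam

/-!
# Tame symbols, over the field of constants

A constant `c` with `{g, c}` unramified at a zero of `g` is a root of unity, and then `{g, c} = 0` rationally.
If `g = a h ^ m` is a root of unity in the residue field of `O`, then `O` lies over exactly one monic irreducible
polynomial in `h` dividing `(a X ^ m) ^ M - 1`.
-/

open scoped BigOperators Polynomial
open Polynomial

namespace Pool.Agent.CSG

open Pool.Agent.CST Pool.Agent.Helper11 Pool.Agent.ISI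

variable {k K : Type} [Field k] [CharZero k] [Field K] [CharZero K] [Algebra k K]

private theorem tak_const (hk : Algebra.IsAlgebraic ℚ k) {O : ValuationSubring K} (hO : IsPl O)
    {c : k} (hc : c ≠ 0) : O.valuation (algebraMap k K c) = 1 := by
  refine le_antisymm ((O.valuation_le_one_iff _).2 (const_mem hk hO c)) ?_
  have h1 := (O.valuation_le_one_iff _).2 (const_mem hk hO c⁻¹)
  rw [map_inv₀, map_inv₀] at h1
  have h2 : (0 : _) < O.valuation (algebraMap k K c) := by
    rw [zero_lt_iff]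
    exact (Valuation.ne_zero_iff _).2 ((_root_.map_ne_zero _).2 hc)
  rwa [inv_le_one₀ h2] at h1

theorem const_eqK (hk : Algebra.IsAlgebraic ℚ k) {O : ValuationSubring K} (hO : IsPl O)
    {g u : Kˣ} {c : k} (hu : (u : K) = algebraMap k K c) (hz : sy g u ∈ unrM O 2)
    (hg : O.valuation (g : K) < 1) : ∃ M : ℕ, 0 < M ∧ u ^ M = 1 := by
  have hdvr := hO.1
  obtain ⟨V, _, _, χ, τ, ord, p, hord, h1, h2, h3⟩ := exists_tameT O
  have hc : c ≠ 0 := by
    rintro rfl
    exact u.ne_zero (by rw [hu, map_zero])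
  have huu : u ∈ O.unitGroup := (O.mem_unitGroup_iff u).2 (by rw [hu]; exact tak_const hk hO hc)
  have h4 := h2 _ hz
  rw [h1 g u huu] at h4
  have h5 : 0 < ord g := (hord.lt_one_iff g).1 hg
  have h6 : χ u = 0 := by
    rcases smul_eq_zero.1 h4 with h6 | h6
    · exfalso
      have h7 : ord g = 0 := by exact_mod_cast h6
      omega
    · exact h6
  obtain ⟨m, hm, h7⟩ := h3 u huu h6
  refine ⟨m, Nat.pos_of_ne_zero hm, ?_⟩
  have h8 : c ^ m = 1 := by
    by_contra hne
    have h9 := tak_const (K := K) hk hO (sub_ne_zero.2 hne)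
    rw [map_sub, map_pow, map_one, ← hu] at h9
    rw [h9] at h7
    exact lt_irrefl _ h7
  apply Units.ext
  rw [Units.val_pow_eq_pow_val, hu, ← map_pow, h8, map_one, Units.val_one]

omit [CharZero K] in
theorem sy_torsion {g u : Kˣ} {M : ℕ} (hM : 0 < M) (hu : u ^ M = 1) : sy g u = 0 := by
  have h1 := sy_zpow_right g u (M : ℤ)
  rw [zpow_natCast, hu, sy_one_right] at h1
  have h2 : ((M : ℤ) : ℚ) ≠ 0 := by exact_mod_cast hM.ne'
  exact (smul_eq_zero.1 h1.symm).resolve_left h2

private theorem tak_mem (hk : Algebra.IsAlgebraic ℚ k) {O : ValuationSubring K} (hO : IsPl O)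
    {h : K} (hh : h ∈ O) (P : k[X]) : aeval h P ∈ O := by
  rw [aeval_eq_sum_range]
  refine O.toSubring.sum_mem fun i _ => ?_
  rw [Algebra.smul_def]
  exact O.mul_mem _ _ (const_mem hk hO _) (O.toSubring.pow_mem hh i)

private theorem tak_factor (hk : Algebra.IsAlgebraic ℚ k) {O : ValuationSubring K} (hO : IsPl O)
    {h : K} (hh : h ∈ O) (P : k[X]) : P ≠ 0 → O.valuation (aeval h P) < 1 →
      ∃ π : k[X], π.Monic ∧ Irreducible π ∧ π ∣ P ∧ O.valuation (aeval h π) < 1 := by
  induction P using WfDvdMonoid.induction_on_irreducible with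
  | zero => exact fun h0 => absurd rfl h0
  | unit u hu =>
    intro _ hv
    obtain ⟨c, hc, rfl⟩ := Polynomial.isUnit_iff.1 hu
    rw [aeval_C, tak_const hk hO hc.ne_zero] at hv
    exact absurd hv (lt_irrefl _)
  | mul a i ha hi ih =>
    intro _ hv
    rw [map_mul, map_mul] at hv
    have h1 : O.valuation (aeval h i) ≤ 1 := (O.valuation_le_one_iff _).2 (tak_mem hk hO hh i)
    have h2 : O.valuation (aeval h a) ≤ 1 := (O.valuation_le_one_iff _).2 (tak_mem hk hO hh a)
    rcases h1.lt_or_eq with h3 | h3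
    · have hlc : i.leadingCoeff ≠ 0 := leadingCoeff_ne_zero.2 hi.ne_zero
      refine ⟨C i.leadingCoeff⁻¹ * i, ?_, ?_, ?_, ?_⟩
      · rw [Monic, leadingCoeff_mul, leadingCoeff_C, inv_mul_cancel₀ hlc]
      · have hu : IsUnit (C i.leadingCoeff⁻¹) :=
          Polynomial.isUnit_C.2 (isUnit_iff_ne_zero.2 (inv_ne_zero hlc))
        exact (irreducible_isUnit_mul hu).2 hi
      · refine Dvd.dvd.mul_right ?_ a
        refine ⟨C i.leadingCoeff, ?_⟩
        rw [mul_comm, ← mul_assoc, ← C_mul, mul_inv_cancel₀ hlc, C_1, one_mul]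
      · rw [map_mul, map_mul, aeval_C, tak_const hk hO (inv_ne_zero hlc), one_mul]
        exact h3
    · rw [h3, one_mul] at hv
      obtain ⟨π, hπ1, hπ2, hπ3, hπ4⟩ := ih ha hv
      exact ⟨π, hπ1, hπ2, hπ3.mul_left i, hπ4⟩

theorem exists_cyk (hk : Algebra.IsAlgebraic ℚ k) {O : ValuationSubring K} (hO : IsPl O)
    {g h : K} {a : k} (ha : a ≠ 0) {m M : ℕ} (hm : 0 < m) (hg : g = algebraMap k K a * h ^ m)
    (hh : h ∈ O) (hM : 0 < M) (hv : O.valuation (g ^ M - 1) < 1) :
    ∃ π : k[X], Cyk a m π ∧ O.valuation (aeval h π) < 1 := by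
  have h1 : aeval h ((C a * X ^ m) ^ M - 1 : k[X]) = g ^ M - 1 := by
    rw [map_sub, map_pow, map_mul, map_pow, aeval_C, aeval_X, map_one, hg]
  have h2 : ((C a * X ^ m) ^ M - 1 : k[X]) ≠ 0 := by
    intro h0
    have h3 : ((C a * X ^ m) ^ M : k[X]) = 1 := sub_eq_zero.1 h0
    have h4 := congrArg natDegree h3
    rw [natDegree_pow, natDegree_C_mul_X_pow m a ha, natDegree_one] at h4
    exact absurd h4 (Nat.mul_pos hM hm).ne'
  rw [← h1] at hv
  obtain ⟨π, hπ1, hπ2, hπ3, hπ4⟩ := tak_factor hk hO hh _ h2 hv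
  exact ⟨π, ⟨hπ1, hπ2, M, hM, hπ3⟩, hπ4⟩

theorem cyk_unique (hk : Algebra.IsAlgebraic ℚ k) {O : ValuationSubring K} (hO : IsPl O) {h : K}
    (hh : h ∈ O) {π π' : k[X]} (h1 : π.Monic) (h2 : Irreducible π) (h3 : π'.Monic)
    (h4 : Irreducible π') (hv : O.valuation (aeval h π) < 1)
    (hv' : O.valuation (aeval h π') < 1) : π = π' := by
  by_contra hne
  have hcop : IsCoprime π π' := by
    rw [h2.coprime_iff_not_dvd]
    intro hd
    exact hne (eq_of_monic_of_associated h1 h3 (h2.associated_of_dvd h4 hd))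
  obtain ⟨a, b, hab⟩ := hcop
  have h5 : aeval h a * aeval h π + aeval h b * aeval h π' = 1 := by
    rw [← map_mul, ← map_mul, ← map_add, hab, map_one]
  have h6 : O.valuation (aeval h a * aeval h π + aeval h b * aeval h π') < 1 := by
    apply Valuation.map_add_lt
    · rw [map_mul]
      exact mul_lt_one_of_nonneg_of_lt_one_right
        ((O.valuation_le_one_iff _).2 (tak_mem hk hO hh a)) zero_le hv
    · rw [map_mul]
      exact mul_lt_one_of_nonneg_of_lt_one_right
        ((O.valuation_le_one_iff _).2 (tak_mem hk hO hh b)) zero_le hv'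
  rw [h5, map_one] at h6
  exact lt_irrefl _ h6

end Pool.Agent.CSG
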