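import Pool.Agent.CSG.Dgk

/-!
# Lifting a factorisation to Laurent polynomials

As `CST.Lau`, over `ℂ[T;T⁻¹]`. `LakB E q k D`: the coefficients of the Laurent polynomial `D` are in the field `E` and its
exponents satisfy `|r| q ≤ k`. `lak_zero`: such a `D`, with `E = k₀(η ^ l)`, `q = 8 e`, `k = 2 l`, which vanishes at `η` is zero
(`indepK` with `s = - (l / (4 e))`). The coefficients of `G`, `H` are represented by Laurent polynomials with `LakB`, the
leading ones by `1`; the coefficients of `F(T ^ a, X) - G' H'` vanish at `η`, so they are zero, and `GeoC` applies.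
-/

open scoped BigOperators Polynomial LaurentPolynomial
open Polynomial

namespace Pool.Agent.CSG

open Pool.Agent.CST

/-- evaluation of Laurent polynomials at a non zero complex number -/
private noncomputable def lakE (u : ℂˣ) : ℂ[T;T⁻¹] →+* ℂ :=
  LaurentPolynomial.eval₂ (RingHom.id ℂ) u

private theorem lak_ev_CT (u : ℂˣ) (c : ℂ) (r : ℤ) :
    lakE u (LaurentPolynomial.C c * LaurentPolynomial.T r) = c * (u : ℂ) ^ r := by
  rw [lakE, LaurentPolynomial.eval₂_C_mul_T]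
  simp

private theorem lak_sum (D : ℂ[T;T⁻¹]) :
    D = ∑ r ∈ D.coeff.support, LaurentPolynomial.C (D.coeff r) * LaurentPolynomial.T r := by
  conv_lhs => rw [← AddMonoidAlgebra.sum_coeff_single D]
  rw [Finsupp.sum]
  refine Finset.sum_congr rfl fun r _ => ?_
  exact LaurentPolynomial.single_eq_C_mul_T _ _

private theorem lak_ev_apply (u : ℂˣ) (D : ℂ[T;T⁻¹]) :
    lakE u D = ∑ r ∈ D.coeff.support, D.coeff r * (u : ℂ) ^ r := by
  conv_lhs => rw [lak_sum D]
  rw [map_sum]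
  exact Finset.sum_congr rfl fun r _ => lak_ev_CT u _ r

/-- the coefficients of `D` are in `E`, its exponents satisfy `|r| q ≤ k` -/
private def LakB (E : IntermediateField ℚ ℂ) (q k : ℤ) (D : ℂ[T;T⁻¹]) : Prop :=
  ∀ r, D.coeff r ∈ E ∧ (D.coeff r ≠ 0 → |r| * q ≤ k)

private theorem lak_CT {E : IntermediateField ℚ ℂ} {q k : ℤ} {c : ℂ} (hc : c ∈ E) {r : ℤ}
    (hr : |r| * q ≤ k) : LakB E q k (LaurentPolynomial.C c * LaurentPolynomial.T r) := by
  intro s
  rw [← LaurentPolynomial.single_eq_C_mul_T, AddMonoidAlgebra.coeff_single]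
  by_cases h : s = r
  · subst h
    rw [Finsupp.single_eq_same]
    exact ⟨hc, fun _ => hr⟩
  · rw [Finsupp.single_eq_of_ne h]
    exact ⟨E.zero_mem, fun h0 => absurd rfl h0⟩

private theorem lak_Bzero {E : IntermediateField ℚ ℂ} {q k : ℤ} : LakB E q k 0 := by
  intro r
  refine ⟨?_, ?_⟩
  · simp
  · intro hr
    simp at hr

private theorem lak_add {E : IntermediateField ℚ ℂ} {q k : ℤ} {D D' : ℂ[T;T⁻¹]}
    (h : LakB E q k D) (h' : LakB E q k D') : LakB E q k (D + D') := by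
  intro r
  rw [AddMonoidAlgebra.coeff_add, Finsupp.add_apply]
  refine ⟨E.add_mem (h r).1 (h' r).1, fun hr => ?_⟩
  by_cases h1 : D.coeff r = 0
  · refine (h' r).2 fun h2 => hr ?_
    rw [h1, h2, add_zero]
  · exact (h r).2 h1

private theorem lak_neg {E : IntermediateField ℚ ℂ} {q k : ℤ} {D : ℂ[T;T⁻¹]}
    (h : LakB E q k D) : LakB E q k (-D) := by
  intro r
  rw [AddMonoidAlgebra.coeff_neg, Finsupp.neg_apply]
  refine ⟨E.neg_mem (h r).1, fun hr => (h r).2 fun h1 => hr ?_⟩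
  rw [h1, neg_zero]

private theorem lak_finsum {E : IntermediateField ℚ ℂ} {q k : ℤ} {ι : Type*} (s : Finset ι)
    (D : ι → ℂ[T;T⁻¹]) (h : ∀ i ∈ s, LakB E q k (D i)) : LakB E q k (∑ i ∈ s, D i) := by
  classical
  induction s using Finset.induction_on with
  | empty => rw [Finset.sum_empty]; exact lak_Bzero
  | insert a s ha ih =>
    rw [Finset.sum_insert ha]
    exact lak_add (h a (Finset.mem_insert_self a s))
      (ih fun i hi => h i (Finset.mem_insert_of_mem hi))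

private theorem lak_mul {E : IntermediateField ℚ ℂ} {q k : ℤ} (hq : 0 ≤ q) {D D' : ℂ[T;T⁻¹]}
    (h : LakB E q k D) (h' : LakB E q k D') : LakB E q (2 * k) (D * D') := by
  rw [lak_sum D, lak_sum D', Finset.sum_mul_sum]
  refine lak_finsum _ _ fun a ha => lak_finsum _ _ fun b hb => ?_
  have e1 : LaurentPolynomial.C (D.coeff a) * LaurentPolynomial.T a *
      (LaurentPolynomial.C (D'.coeff b) * LaurentPolynomial.T b) =
      LaurentPolynomial.C (D.coeff a * D'.coeff b) * LaurentPolynomial.T (a + b) := by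
    rw [LaurentPolynomial.T_add, map_mul]
    ring
  rw [e1]
  refine lak_CT (E.mul_mem (h a).1 (h' b).1) ?_
  have h3 := (h a).2 (Finsupp.mem_support_iff.mp ha)
  have h4 := (h' b).2 (Finsupp.mem_support_iff.mp hb)
  have h5 : |a + b| * q ≤ (|a| + |b|) * q := mul_le_mul_of_nonneg_right (abs_add_le a b) hq
  nlinarith

private theorem lak_mono {E : IntermediateField ℚ ℂ} {q k k' : ℤ} (hk : k ≤ k') {D : ℂ[T;T⁻¹]}
    (h : LakB E q k D) : LakB E q k' D := fun r => ⟨(h r).1, fun hr => ((h r).2 hr).trans hk⟩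

private theorem lak_one {E : IntermediateField ℚ ℂ} {q k : ℤ} (hk : 0 ≤ k) :
    LakB E q k (1 : ℂ[T;T⁻¹]) := by
  have := lak_CT (E := E) (q := q) (k := k) (c := 1) E.one_mem (r := 0) (by simpa using hk)
  rwa [LaurentPolynomial.T_zero, mul_one, map_one] at this

private theorem lak_zero (k₀ : IntermediateField ℚ ℂ) (hk : FiniteDimensional ℚ k₀) {N l : ℕ}
    (hN : 0 < N) (hl : Spl l N) {η : ℂ} (hη : IsPrimitiveRoot η N) (u : ℂˣ) (hu : (u : ℂ) = η)
    (hl1 : 16 * Module.finrank ℚ k₀ ≤ l) (D : ℂ[T;T⁻¹])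
    (hD : LakB (Ka k₀ (η ^ l)) (8 * Module.finrank ℚ k₀ : ℕ) (2 * l) D) (h0 : lakE u D = 0) :
    D = 0 := by
  classical
  rw [lak_ev_apply, hu] at h0
  have he : 0 < Module.finrank ℚ k₀ := Module.finrank_pos
  set e := Module.finrank ℚ k₀ with hedef
  have h1 : ∀ r ∈ D.coeff.support, D.coeff r = 0 := by
    refine indepK k₀ hk hN hl hη (fun r => D.coeff r) (fun r => (hD r).1)
      D.coeff.support (-((l : ℤ) / (4 * e))) ?_ h0
    intro r hr
    have h2 := (hD r).2 (Finsupp.mem_support_iff.mp hr)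
    have he' : (0 : ℤ) < 4 * e := by positivity
    have h3 : |r| ≤ (l : ℤ) / (4 * e) := by
      rw [Int.le_ediv_iff_mul_le he']
      push_cast at h2
      nlinarith
    have h4 : (l : ℤ) / (4 * e) * (4 * e) ≤ l := Int.ediv_mul_le _ he'.ne'
    rw [abs_le] at h3
    refine ⟨h3.1, ?_⟩
    have h5 : (r - -((l : ℤ) / (4 * e))) * e ≤ (2 * ((l : ℤ) / (4 * e))) * e := by
      refine mul_le_mul_of_nonneg_right ?_ (by positivity)
      linarith [h3.2]
    have h6 : (16 : ℤ) ≤ l := by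
      have : 16 * 1 ≤ 16 * e := Nat.mul_le_mul_left 16 he
      exact_mod_cast (by omega : 16 ≤ l)
    have h7 : (2 * ((l : ℤ) / (4 * e))) * e * 2 ≤ l := by nlinarith
    linarith
  refine LaurentPolynomial.ext fun r => ?_
  by_contra hne
  have hr : r ∈ D.coeff.support := Finsupp.mem_support_iff.mpr hne
  exact (Finsupp.mem_support_iff.mp hr) (h1 r hr)

private theorem lak_rep (k₀ : IntermediateField ℚ ℂ) {l Q : ℕ} {η s : ℂ} (u : ℂˣ)
    (hu : (u : ℂ) = η) (h : RepK k₀ l Q η s) :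
    ∃ D : ℂ[T;T⁻¹], LakB (Ka k₀ (η ^ l)) Q l D ∧ lakE u D = s := by
  obtain ⟨I, c, hI, hc, hs⟩ := h
  refine ⟨∑ r ∈ I, LaurentPolynomial.C (c r) * LaurentPolynomial.T r,
    lak_finsum _ _ fun r hr => lak_CT (hc r) (hI r hr), ?_⟩
  rw [map_sum, hs]
  refine Finset.sum_congr rfl fun r _ => ?_
  rw [lak_ev_CT, hu]

private theorem lak_lift (k₀ : IntermediateField ℚ ℂ) {l Q : ℕ} {η : ℂ} (u : ℂˣ)
    (hu : (u : ℂ) = η) (G : ℂ[X]) (hG : G.Monic) (hG' : ∀ i, RepK k₀ l Q η (G.coeff i)) :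
    ∃ G' : (ℂ[T;T⁻¹])[X], G'.Monic ∧ G'.natDegree = G.natDegree ∧
      (∀ i, LakB (Ka k₀ (η ^ l)) Q l (G'.coeff i)) ∧ G'.map (lakE u) = G := by
  classical
  choose g hg1 hg2 using fun i => lak_rep k₀ u hu (hG' i)
  set n := G.natDegree with hn
  have hlt : (∑ i ∈ Finset.range n, C (g i) * X ^ i : (ℂ[T;T⁻¹])[X]).degree < n := by
    rw [← Polynomial.mem_degreeLT]
    refine Submodule.sum_mem _ fun i hi => ?_
    rw [Polynomial.mem_degreeLT]
    refine lt_of_le_of_lt (Polynomial.degree_C_mul_X_pow_le _ _) ?_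
    exact_mod_cast Finset.mem_range.mp hi
  refine ⟨X ^ n + ∑ i ∈ Finset.range n, C (g i) * X ^ i, ?_, ?_, ?_, ?_⟩
  · exact Polynomial.monic_X_pow_add hlt
  · refine Polynomial.natDegree_eq_of_degree_eq_some ?_
    rw [Polynomial.degree_add_eq_left_of_degree_lt]
    · exact Polynomial.degree_X_pow n
    · rw [Polynomial.degree_X_pow]; exact hlt
  · intro i
    rw [Polynomial.coeff_add, Polynomial.coeff_X_pow, Polynomial.finsetSum_coeff]
    refine lak_add ?_ (lak_finsum _ _ fun j _ => ?_)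
    · split_ifs
      · exact lak_one (by positivity)
      · exact lak_Bzero
    · rw [Polynomial.coeff_C_mul_X_pow]
      split_ifs
      · exact hg1 j
      · exact lak_Bzero
  · rw [Polynomial.map_add, Polynomial.map_pow, Polynomial.map_X, Polynomial.map_sum]
    conv_rhs => rw [G.as_sum_range_C_mul_X_pow, Finset.sum_range_succ, ← hn]
    have hlc : G.coeff n = 1 := hG
    rw [hlc, map_one, one_mul, add_comm]
    congr 1
    refine Finset.sum_congr rfl fun i _ => ?_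
    rw [Polynomial.map_mul, Polynomial.map_C, Polynomial.map_pow, Polynomial.map_X, hg2]

private theorem lak_tsub {E : IntermediateField ℚ ℂ} {l q a d : ℕ} (hl2 : q * a * d ≤ l)
    (p : ℂ[X]) (hp : p.natDegree ≤ d) (hc : ∀ j, p.coeff j ∈ E) : LakB E q l (tsubC a p) := by
  rw [tsubC, Polynomial.coe_eval₂RingHom, Polynomial.eval₂_eq_sum_range]
  refine lak_finsum _ _ fun j hj => ?_
  have hj' : j ≤ d := by
    have := Finset.mem_range.mp hj
    omega
  rw [LaurentPolynomial.T_pow]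
  refine lak_CT (hc j) ?_
  have h1 : ((j : ℤ) * (a : ℤ)) * q ≤ l := by
    have h2 : j * a ≤ d * a := Nat.mul_le_mul_right a hj'
    have h3 : (j * a) * q ≤ l := by
      calc (j * a) * q ≤ (d * a) * q := Nat.mul_le_mul_right q h2
        _ = q * a * d := by ring
        _ ≤ l := hl2
    exact_mod_cast h3
  rw [abs_of_nonneg (by positivity)]
  exact h1

private theorem lak_ev_tsub (u : ℂˣ) (a : ℕ) : (lakE u).comp (tsubC a) = cev ((u : ℂ) ^ a) := by
  refine Polynomial.ringHom_ext (fun c => ?_) ?_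
  · rw [RingHom.comp_apply, tsubC, Polynomial.coe_eval₂RingHom, Polynomial.eval₂_C, cev,
      Polynomial.coe_evalRingHom, Polynomial.eval_C, lakE, LaurentPolynomial.eval₂_C]
    rfl
  · rw [RingHom.comp_apply, tsubC, Polynomial.coe_eval₂RingHom, Polynomial.eval₂_X, cev,
      Polynomial.coe_evalRingHom, Polynomial.eval_X, lakE, LaurentPolynomial.eval₂_T]
    simp

private theorem lak_alg (k₀ : IntermediateField ℚ ℂ) (hk : FiniteDimensional ℚ k₀) {N l : ℕ}
    (hN : 0 < N) {η : ℂ} (hη : IsPrimitiveRoot η N) {x : ℂ} (hx : x ∈ Ka k₀ (η ^ l)) :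
    IsAlgebraic ℚ x := by
  have h1 : k₀ ≤ algebraicClosure ℚ ℂ := by
    intro z hz
    rw [mem_algebraicClosure_iff]
    have := Algebra.IsAlgebraic.isAlgebraic (R := ℚ) (⟨z, hz⟩ : k₀)
    exact (isAlgebraic_algebraMap_iff (algebraMap k₀ ℂ).injective).2 this
  have h2 : Qa (η ^ l) ≤ algebraicClosure ℚ ℂ := by
    rw [Qa, IntermediateField.adjoin_simple_le_iff, mem_algebraicClosure_iff]
    exact ((hη.isIntegral hN).pow l).tower_top.isAlgebraic
  have h3 : Ka k₀ (η ^ l) ≤ algebraicClosure ℚ ℂ := sup_le h1 h2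
  exact mem_algebraicClosure_iff.1 (h3 hx)

theorem not_factorK (k₀ : IntermediateField ℚ ℂ) (hk : FiniteDimensional ℚ k₀) {N l a d : ℕ}
    (hN : 0 < N) (hl : Spl l N) {η : ℂ} (hη : IsPrimitiveRoot η N) (ha : 0 < a) (F : ℂ[X][X])
    (hF : F.Monic) (hI : IntIn k₀ F) (hgeo : GeoC F) (hd : ∀ i, (F.coeff i).natDegree ≤ d)
    (hl1 : 16 * Module.finrank ℚ k₀ ≤ l) (hl2 : 8 * Module.finrank ℚ k₀ * a * d ≤ l)
    (G H : ℂ[X]) (hG : G.Monic) (hH : H.Monic) (hf : F.map (cev (η ^ a)) = G * H)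
    (hG' : ∀ i, RepK k₀ l (8 * Module.finrank ℚ k₀) η (G.coeff i))
    (hH' : ∀ i, RepK k₀ l (8 * Module.finrank ℚ k₀) η (H.coeff i)) :
    G.natDegree = 0 ∨ H.natDegree = 0 := by
  classical
  obtain ⟨u, hu⟩ : ∃ u : ℂˣ, (u : ℂ) = η := ⟨Units.mk0 η (hη.ne_zero hN.ne'), rfl⟩
  obtain ⟨G', hG1, hG2, hG3, hG4⟩ := lak_lift k₀ u hu G hG hG'
  obtain ⟨H', hH1, hH2, hH3, hH4⟩ := lak_lift k₀ u hu H hH hH'
  rw [← hG2, ← hH2]
  refine hgeo a ha G' H' hG1 hH1 (fun i n => lak_alg k₀ hk hN hη (hG3 i n).1)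
    (fun i n => lak_alg k₀ hk hN hη (hH3 i n).1) ?_
  rw [← sub_eq_zero]
  refine Polynomial.ext fun k => ?_
  rw [Polynomial.coeff_zero]
  refine lak_zero k₀ hk hN hl hη u hu hl1 _ ?_ ?_
  · rw [sub_eq_add_neg, Polynomial.coeff_add, Polynomial.coeff_neg, Polynomial.coeff_map,
      Polynomial.coeff_mul]
    refine lak_add (lak_mono (by omega) (lak_tsub hl2 _ (hd k) fun j => ?_)) (lak_neg ?_)
    · exact (le_sup_left : k₀ ≤ Ka k₀ (η ^ l)) (hI k j).1
    · exact lak_finsum _ _ fun x _ => lak_mul (by positivity) (hG3 _) (hH3 _)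
  · rw [← Polynomial.coeff_map, Polynomial.map_sub, Polynomial.map_map, Polynomial.map_mul,
      lak_ev_tsub, hu, hG4, hH4, hf, sub_self, Polynomial.coeff_zero]

end Pool.Agent.CSG
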