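import Pool.Agent.CSG.Spk
import Pool.Agent.CSG.Lak
import Pool.Agent.CST.Chi

/-!
# Hilbert irreducibility over `k₀(ζ)`

If `F` is monic in `X`, with coefficients algebraic integers of the number field `k₀`, and has no
factorisation with algebraic coefficients after all the substitutions `t = T ^ a` (`GeoC`), then `F(ζ, X)` has
no factorisation over `k₀(ζ)` into monic factors of positive degree, for every root of unity `ζ` of
sufficiently large order. The proof follows `CST.chi`.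
-/

open scoped BigOperators Polynomial
open Polynomial

namespace Pool.Agent.CSG

open Pool.Agent.CST

private theorem chk_rep_zero (k₀ : IntermediateField ℚ ℂ) (l Q : ℕ) (η : ℂ) : RepK k₀ l Q η 0 :=
  ⟨∅, fun _ => 0, fun r hr => absurd hr (Finset.notMem_empty r), fun _ => zero_mem _, by simp⟩

theorem chiK (k₀ : IntermediateField ℚ ℂ) (hk : FiniteDimensional ℚ k₀) (F : ℂ[X][X])
    (hF : F.Monic) (hI : IntIn k₀ F) (hgeo : GeoC F) : ∃ n₀ : ℕ, ∀ n, n₀ ≤ n → ∀ ζ : ℂ,
    IsPrimitiveRoot ζ n → ∀ G H : ℂ[X], G.Monic → H.Monic → F.map (cev ζ) = G * H →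
    (∀ i, G.coeff i ∈ Ka k₀ ζ) → (∀ i, H.coeff i ∈ Ka k₀ ζ) →
    G.natDegree = 0 ∨ H.natDegree = 0 := by
  obtain ⟨B, R, hBR⟩ := sparse_coeff k₀ hk F hF hI
  have he0 : 0 < Module.finrank ℚ k₀ := Module.finrank_pos
  obtain ⟨e, he⟩ : ∃ e : ℕ, e = Module.finrank ℚ k₀ := ⟨_, rfl⟩
  set D : ℕ := F.natDegree with hD
  obtain ⟨A, hA⟩ : ∃ A : ℕ, A = (8 * e) ^ (2 * (D + 1) * R) := ⟨_, rfl⟩
  set d : ℕ := F.support.sup (fun i => (F.coeff i).natDegree) with hd
  have hdd : ∀ i, (F.coeff i).natDegree ≤ d := by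
    intro i
    by_cases hi : i ∈ F.support
    · exact Finset.le_sup (f := fun i => (F.coeff i).natDegree) hi
    · rw [notMem_support_iff.1 hi, natDegree_zero]
      exact Nat.zero_le _
  obtain ⟨E, hE⟩ : ∃ E : ℕ, E = 8 * e * A * d := ⟨_, rfl⟩
  obtain ⟨n₁, hn₁⟩ := exists_spl (16 * e + E + B + (A + 1))
  refine ⟨n₁ + 1, ?_⟩
  intro n hn ζ hζ G H hGm hHm hfac hGc hHc
  have hn0 : 0 < n := by omega
  obtain ⟨l, hBl, hspl⟩ := hn₁ n (by omega)
  have hl0 : 0 < l := hspl.1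
  have hζ0 : ζ ≠ 0 := hζ.ne_zero hn0.ne'
  have hGs : ∀ i, SparseK k₀ l R ζ (G.coeff i) :=
    hBR n l hn0 hspl (by omega) ζ hζ G H hGm hHm hfac hGc hHc
  have hHs : ∀ i, SparseK k₀ l R ζ (H.coeff i) :=
    hBR n l hn0 hspl (by omega) ζ hζ H G hHm hGm (by rw [hfac, mul_comm]) hHc hGc
  obtain ⟨a, ha0, haA, ha⟩ := exists_repK k₀ (l := l) (R := R) (N := 2 * (D + 1)) (Q := 8 * e) hl0
    (by omega) hζ0
    (fun i : Fin (2 * (D + 1)) =>
      if (i : ℕ) < D + 1 then G.coeff (i : ℕ) else H.coeff ((i : ℕ) - (D + 1)))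
    (by
      intro i
      split_ifs
      · exact hGs _
      · exact hHs _)
  obtain ⟨η, hη, hηa⟩ := exists_root hn0 ha0 hζ
  have hdeg : G.natDegree + H.natDegree = D := by
    rw [← hGm.natDegree_mul hHm, ← hfac, hF.natDegree_map]
  have hGr : ∀ i, RepK k₀ l (8 * e) η (G.coeff i) := by
    intro i
    by_cases hi : i < D + 1
    · have h1 := ha η hηa (⟨i, by omega⟩ : Fin (2 * (D + 1)))
      simpa [hi] using h1
    · rw [coeff_eq_zero_of_natDegree_lt (by omega)]
      exact chk_rep_zero k₀ l (8 * e) η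
  have hHr : ∀ i, RepK k₀ l (8 * e) η (H.coeff i) := by
    intro i
    by_cases hi : i < D + 1
    · have h1 := ha η hηa (⟨i + (D + 1), by omega⟩ : Fin (2 * (D + 1)))
      have h2 : ¬ (i + (D + 1) < D + 1) := by omega
      have h3 : i + (D + 1) - (D + 1) = i := by omega
      simp only [if_neg h2, h3] at h1
      exact h1
    · rw [coeff_eq_zero_of_natDegree_lt (by omega)]
      exact chk_rep_zero k₀ l (8 * e) η
  rw [← hA] at haA
  have haln : a < l := by omega
  have hspl' : Spl l (a * n) := spl_mul hn0 hspl ha0 haln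
  rw [he] at hGr hHr
  refine not_factorK k₀ hk (Nat.mul_pos ha0 hn0) hspl' hη ha0 F hF hI hgeo hdd ?_ ?_ G H hGm hHm
    (by rw [hηa]; exact hfac) hGr hHr
  · rw [← he]
    omega
  · rw [← he]
    have h5 : 8 * e * a * d ≤ 8 * e * A * d :=
      Nat.mul_le_mul_right d (Nat.mul_le_mul_left (8 * e) haA)
    rw [← hE] at h5
    omega

end Pool.Agent.CSG
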