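import Pool.Agent.CSG.Defs

/-!
# The coefficients of a factor of `F(ζ, X)` over `k₀(ζ)`

As in `CST.Cof`.  Integrality: `F(ζ, X)` is the image of a monic polynomial over the ring of
algebraic integers, so a monic divisor has integral coefficients.  For `τ : k₀(ζ) → ℂ` the
polynomial `τ(G)` divides `τ(F(ζ, X))`, whose coefficients are bounded by
`A = ∑_i ∑_j cofk_hs(c_ij)` because `|τ(ζ)| = 1`; here `cofk_hs(c)` is the sum of the absolute values
of the roots of `minpoly ℚ c`, one of which is `τ(c)`.  The roots of `τ(F(ζ, X))` are bounded by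
`A + 1`, and so are the coefficients of a monic divisor of bounded degree.
-/

open scoped BigOperators Polynomial
open Polynomial

namespace Pool.Agent.CSG

open Pool.Agent.CST

/-- the sum of the absolute values of the conjugates -/
private noncomputable def cofk_hs (x : ℂ) : ℝ :=
  ((((minpoly ℚ x).map (algebraMap ℚ ℂ)).roots).map fun r => ‖r‖).sum

private theorem cofk_hs_nonneg (x : ℂ) : 0 ≤ cofk_hs x := by
  unfold cofk_hs
  refine Multiset.sum_nonneg fun y hy => ?_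
  obtain ⟨r, _, rfl⟩ := Multiset.mem_map.1 hy
  exact norm_nonneg _

private theorem cofk_le_hs (K : IntermediateField ℚ ℂ) (c : K) (hc : IsIntegral ℤ (c : ℂ))
    (τ : K →+* ℂ) : ‖τ c‖ ≤ cofk_hs (c : ℂ) := by
  have hq : IsIntegral ℚ (c : ℂ) := hc.tower_top
  have h0 : minpoly ℚ (c : ℂ) ≠ 0 := minpoly.ne_zero hq
  have h1 : aeval c (minpoly ℚ (c : ℂ)) = 0 := by
    have h2 : aeval (algebraMap K ℂ c) (minpoly ℚ (c : ℂ)) = 0 := minpoly.aeval ℚ (c : ℂ)
    rw [aeval_algebraMap_apply] at h2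
    exact (map_eq_zero_iff (algebraMap K ℂ) (algebraMap K ℂ).injective).1 h2
  have h3 : aeval (τ c) (minpoly ℚ (c : ℂ)) = 0 := by
    have h4 := congrArg τ.toRatAlgHom h1
    rw [← aeval_algHom_apply, map_zero] at h4
    exact h4
  have h5 : τ c ∈ ((minpoly ℚ (c : ℂ)).map (algebraMap ℚ ℂ)).roots := by
    rw [mem_roots', IsRoot.def, eval_map_algebraMap]
    exact ⟨(Polynomial.map_ne_zero_iff (algebraMap ℚ ℂ).injective).2 h0, h3⟩
  unfold cofk_hs
  refine Multiset.single_le_sum (fun y hy => ?_) _ (Multiset.mem_map_of_mem _ h5)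
  obtain ⟨r, _, rfl⟩ := Multiset.mem_map.1 hy
  exact norm_nonneg _

private theorem cofk_root {P : ℂ[X]} (hm : P.Monic) {A : ℝ} (hA : 0 ≤ A)
    (h : ∀ i, i < P.natDegree → ‖P.coeff i‖ ≤ A) {x : ℂ} (hx : P.IsRoot x) : ‖x‖ ≤ A + 1 := by
  have h1 := hx.norm_lt_cauchyBound hm.ne_zero
  have h2 : ((cauchyBound P : NNReal) : ℝ) ≤ A + 1 := by
    unfold cauchyBound
    rw [hm.leadingCoeff, nnnorm_one, div_one, NNReal.coe_add, NNReal.coe_one]
    refine add_le_add_left ?_ 1
    have h4 : Finset.sup (Finset.range P.natDegree) (fun i => ‖P.coeff i‖₊) ≤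
        NNReal.mk _ hA := by
      refine Finset.sup_le fun i hi => ?_
      rw [← NNReal.coe_le_coe, coe_nnnorm, NNReal.coe_mk]
      exact h i (Finset.mem_range.1 hi)
    have h5 := NNReal.coe_le_coe.2 h4
    rwa [NNReal.coe_mk] at h5
  exact (le_of_lt (by exact_mod_cast h1)).trans h2

private theorem cofk_int {ζ : ℂ} (hζ : IsIntegral ℤ ζ) {F : ℂ[X][X]} (hF : F.Monic)
    (hI : ∀ i j, IsIntegral ℤ ((F.coeff i).coeff j))
    {G H : ℂ[X]} (hG : G.Monic) (h : F.map (cev ζ) = G * H) (i : ℕ) :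
    IsIntegral ℤ (G.coeff i) := by
  have hl : ∃ P : (integralClosure ℤ ℂ)[X],
      P.map (algebraMap (integralClosure ℤ ℂ) ℂ) = F.map (cev ζ) ∧
      P.natDegree = (F.map (cev ζ)).natDegree ∧ P.Monic := by
    refine lifts_and_natDegree_eq_and_monic ?_ (hF.map _)
    rw [lifts_iff_coeff_lifts]
    intro i
    have h1 : IsIntegral ℤ ((F.map (cev ζ)).coeff i) := by
      rw [coeff_map]
      change IsIntegral ℤ (eval ζ (F.coeff i))
      rw [eval_eq_sum_range]
      exact IsIntegral.sum _ fun j _ => (hI i j).mul (hζ.pow j)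
    exact ⟨⟨_, h1⟩, rfl⟩
  obtain ⟨P, hP, _, hPm⟩ := hl
  have hd : G ∣ P.map (algebraMap (integralClosure ℤ ℂ) ℂ) := by
    rw [hP, h]
    exact dvd_mul_right _ _
  have hl := integralClosure.mem_lifts_of_monic_of_dvd_map ℂ hPm hG hd
  rw [lifts_iff_coeff_lifts] at hl
  obtain ⟨y, hy⟩ := hl i
  have hy2 : IsIntegral (integralClosure ℤ ℂ) (G.coeff i) := by
    rw [← hy]
    exact y.2
  exact isIntegral_trans _ hy2

private theorem cofk_lift (K : IntermediateField ℚ ℂ) (P : ℂ[X]) (h : ∀ i, P.coeff i ∈ K) :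
    ∃ p : K[X], p.map (algebraMap K ℂ) = P := by
  have h1 : P ∈ lifts (algebraMap K ℂ) := by
    rw [lifts_iff_coeff_lifts]
    exact fun i => ⟨⟨P.coeff i, h i⟩, rfl⟩
  exact (mem_lifts _).1 h1

private theorem cofk_lift2 (K : IntermediateField ℚ ℂ) (F : ℂ[X][X])
    (h : ∀ i j, (F.coeff i).coeff j ∈ K) :
    ∃ f : K[X][X], f.map (mapRingHom (algebraMap K ℂ)) = F := by
  have h1 : F ∈ lifts (mapRingHom (algebraMap K ℂ)) := by
    rw [lifts_iff_coeff_lifts]
    intro i
    obtain ⟨p, hp⟩ := cofk_lift K (F.coeff i) (h i)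
    exact ⟨p, hp⟩
  exact (mem_lifts _).1 h1

private theorem cofk_comp {K : Type*} [Field K] (σ : K →+* ℂ) (z : K) (f : K[X][X]) :
    (f.map (evalRingHom z)).map σ = (f.map (mapRingHom σ)).map (cev (σ z)) := by
  rw [Polynomial.map_map, Polynomial.map_map]
  congr 1
  refine RingHom.ext fun p => ?_
  simp only [RingHom.comp_apply, cev, coe_evalRingHom, coe_mapRingHom]
  rw [eval_map, eval₂_at_apply]

theorem coeffsK (k₀ : IntermediateField ℚ ℂ) (hk : FiniteDimensional ℚ k₀) (F : ℂ[X][X])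
    (hF : F.Monic) (hI : IntIn k₀ F) : ∃ C : ℝ, 0 ≤ C ∧ ∀ (n : ℕ), 0 < n → ∀ ζ : ℂ,
    IsPrimitiveRoot ζ n → ∀ G H : ℂ[X], G.Monic → H.Monic → F.map (cev ζ) = G * H →
    ∀ hG : ∀ i, G.coeff i ∈ Ka k₀ ζ, (∀ i, H.coeff i ∈ Ka k₀ ζ) →
    ∀ i, IsIntegral ℤ (G.coeff i) ∧ ∀ τ : Ka k₀ ζ →+* ℂ, ‖τ ⟨G.coeff i, hG i⟩‖ ≤ C := by
  set A : ℝ := ∑ k ∈ Finset.range (F.natDegree + 1),
    ∑ j ∈ Finset.range ((F.coeff k).natDegree + 1), cofk_hs ((F.coeff k).coeff j) with hAdef
  have hA : 0 ≤ A := Finset.sum_nonneg fun k _ => Finset.sum_nonneg fun j _ => cofk_hs_nonneg _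
  refine ⟨max (A + 1) 1 ^ F.natDegree * F.natDegree.choose (F.natDegree / 2), ?_, ?_⟩
  · have h1 : (0 : ℝ) ≤ max (A + 1) 1 := le_trans zero_le_one (le_max_right _ _)
    exact mul_nonneg (pow_nonneg h1 _) (Nat.cast_nonneg _)
  intro n hn ζ hζ G H hG hH h hGq hHq i
  refine ⟨cofk_int (hζ.isIntegral hn) hF (fun i j => (hI i j).2) hG h i, fun τ => ?_⟩
  have hle : k₀ ≤ Ka k₀ ζ := le_sup_left
  have hzm : ζ ∈ Ka k₀ ζ :=
    (le_sup_right : Qa ζ ≤ Ka k₀ ζ) (IntermediateField.mem_adjoin_simple_self ℚ ζ)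
  obtain ⟨g, hg⟩ := cofk_lift (Ka k₀ ζ) G hGq
  obtain ⟨k, hk⟩ := cofk_lift (Ka k₀ ζ) H hHq
  obtain ⟨f, hf⟩ := cofk_lift2 (Ka k₀ ζ) F (fun i j => hle (hI i j).1)
  have hinj : Function.Injective (algebraMap (Ka k₀ ζ) ℂ) := (algebraMap (Ka k₀ ζ) ℂ).injective
  have hfc : ∀ i j, (((f.coeff i).coeff j : Ka k₀ ζ) : ℂ) = (F.coeff i).coeff j := by
    intro i j
    rw [← hf, coeff_map, coe_mapRingHom, coeff_map]
    rfl
  have hfm : f.Monic := by
    have h1 : (f.map (mapRingHom (algebraMap (Ka k₀ ζ) ℂ))).Monic := by rw [hf]; exact hF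
    exact monic_of_injective (map_injective _ hinj) h1
  have hgm : g.Monic := monic_of_injective hinj (by rw [hg]; exact hG)
  have hkm : k.Monic := monic_of_injective hinj (by rw [hk]; exact hH)
  have hfd : f.natDegree = F.natDegree := by
    rw [← hf]
    exact (hfm.natDegree_map _).symm
  set z : Ka k₀ ζ := ⟨ζ, hzm⟩ with hz
  -- the factorisation over `k₀(ζ)`
  have hfac : f.map (evalRingHom z) = g * k := by
    refine Polynomial.map_injective _ hinj ?_
    rw [Polynomial.map_mul, hg, hk, ← h, cofk_comp, hf]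
    rfl
  -- its image by `τ`
  set P : ℂ[X] := (f.map (mapRingHom τ)).map (cev (τ z)) with hP
  have hPf : P = g.map τ * k.map τ := by
    rw [hP, ← cofk_comp, hfac, Polynomial.map_mul]
  have hPm : P.Monic := (hfm.map _).map _
  have hPd : P.natDegree = F.natDegree := by
    rw [hP, (hfm.map _).natDegree_map, hfm.natDegree_map, hfd]
  have hz1 : ‖τ z‖ = 1 := by
    have h2 : z ^ n = 1 := Subtype.ext hζ.pow_eq_one
    have h3 : (τ z) ^ n = 1 := by rw [← map_pow, h2, map_one]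
    exact Complex.norm_eq_one_of_pow_eq_one h3 hn.ne'
  have hPc : ∀ i, i < P.natDegree → ‖P.coeff i‖ ≤ A := by
    intro i hi
    have h4 : P.coeff i = ∑ j ∈ Finset.range ((F.coeff i).natDegree + 1),
        τ ((f.coeff i).coeff j) * (τ z) ^ j := by
      rw [hP, coeff_map, coeff_map, coe_mapRingHom]
      change eval (τ z) ((f.coeff i).map τ) = _
      have h5 : ((f.coeff i).map τ).natDegree ≤ (F.coeff i).natDegree := by
        rw [natDegree_map, ← hf, coeff_map, coe_mapRingHom, natDegree_map]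
      rw [eval_eq_sum_range' (Nat.lt_succ_of_le h5)]
      refine Finset.sum_congr rfl fun j _ => ?_
      rw [coeff_map]
    rw [h4]
    refine (norm_sum_le _ _).trans ?_
    have h6 : ∑ j ∈ Finset.range ((F.coeff i).natDegree + 1), cofk_hs ((F.coeff i).coeff j) ≤ A :=
      Finset.single_le_sum
        (f := fun k => ∑ j ∈ Finset.range ((F.coeff k).natDegree + 1),
          cofk_hs ((F.coeff k).coeff j))
        (fun k _ => Finset.sum_nonneg fun j _ => cofk_hs_nonneg _)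
        (Finset.mem_range.2 (by omega))
    refine le_trans (Finset.sum_le_sum fun j _ => ?_) h6
    rw [norm_mul, norm_pow, hz1, one_pow, mul_one]
    have h7 := cofk_le_hs (Ka k₀ ζ) ((f.coeff i).coeff j)
      (by rw [hfc]; exact (hI i j).2) τ
    rwa [hfc] at h7
  have hgz : (g.map τ).Monic := hgm.map _
  have hdeg : (g.map τ).natDegree ≤ F.natDegree := by
    have h2 := congrArg natDegree hPf
    rw [hgz.natDegree_mul (hkm.map _), hPd] at h2
    omega
  have hroots : ∀ x ∈ (map (RingHom.id ℂ) (g.map τ)).roots, ‖x‖ ≤ A + 1 := by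
    intro x hx
    rw [Polynomial.map_id] at hx
    have h3 : (g.map τ).IsRoot x := isRoot_of_mem_roots hx
    refine cofk_root hPm hA hPc ?_
    rw [hPf]
    exact root_mul_right_of_isRoot _ h3
  have h4 := coeff_bdd_of_roots_le (RingHom.id ℂ) hgz (IsAlgClosed.splits _) hdeg hroots i
  rw [Polynomial.map_id, coeff_map] at h4
  have h8 : g.coeff i = ⟨G.coeff i, hGq i⟩ := by
    refine Subtype.ext ?_
    change ((g.coeff i : Ka k₀ ζ) : ℂ) = G.coeff i
    rw [← hg, coeff_map]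
    rfl
  rw [h8] at h4
  exact h4

end Pool.Agent.CSG
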