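import Pool.Agent.CSG.Defs
import Pool.Agent.CST.PlD

/-!
# The places of `k(u)` over an irreducible polynomial

For an irreducible `π ∈ k[X]` the valuation ring of the `π`-adic valuation of `k(u)` (the valuation
of the `HeightOneSpectrum` of `k[X]` given by the ideal `(π)`) is a discrete valuation ring which
contains `k[X]`, and `v(p) < 1 ↔ π ∣ p` on `k[X]` (`exists_plR`).
-/

open scoped BigOperators Polynomial
open Polynomial

namespace Pool.Agent.CSG

theorem exists_plR {k : Type} [Field k] {π : k[X]} (hπ : Irreducible π) :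
    ∃ O : ValuationSubring (RatFunc k), IsDiscreteValuationRing O ∧
      (∀ p : k[X], algebraMap k[X] (RatFunc k) p ∈ O) ∧
      ∀ p : k[X], O.valuation (algebraMap k[X] (RatFunc k) p) < 1 ↔ π ∣ p := by
  have hprime : (Ideal.span {π}).IsPrime :=
    (Ideal.span_singleton_prime hπ.ne_zero).2 hπ.prime
  have hne : Ideal.span {π} ≠ ⊥ := by
    rw [Ne, Ideal.span_singleton_eq_bot]
    exact hπ.ne_zero
  let v : IsDedekindDomain.HeightOneSpectrum k[X] := ⟨Ideal.span {π}, hprime, hne⟩
  refine ⟨(v.valuation (RatFunc k)).valuationSubring, ?_, fun p => ?_, fun p => ?_⟩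
  · exact (v.valuation (RatFunc k)).valuationSubring_isDiscreteValuationRing
  · exact (Valuation.mem_valuationSubring_iff _ _).2 (v.valuation_le_one p)
  · rw [← (Valuation.isEquiv_valuation_valuationSubring
      (v.valuation (RatFunc k))).lt_one_iff_lt_one]
    exact (v.valuation_lt_one_iff_mem p).trans Ideal.mem_span_singleton

end Pool.Agent.CSG
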