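import Pool.Agent.Helper11.CGen

/-!
# Specialisation at `0` of symbols over `k(u)`

The leading coefficient at `u = 0` (of the Laurent series) is a homomorphism from the units of `k(u)` to `kˣ`. It
induces a map of `K_2`: if `f + f' = 1`, then the leading coefficient of `f` or of `f'` is one, or the two series
have the same order `n`, and the sum of the leading coefficients is one (`n = 0`) or zero.
-/

open scoped BigOperators Polynomial
open Polynomial

namespace Pool.Agent.CSG

open Pool.Agent.Helper11

private lemma spe_neg {k : Type} [Field k] {c c' : kˣ} (h : (c : k) + c' = 0) : sy c c' = 0 := by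
  have h1 : c' = (-1 : kˣ) * c := by
    ext
    rw [Units.val_mul, Units.val_neg, Units.val_one]
    linear_combination h
  have h2 : (2 : ℚ) • sy c (-1) = 0 := by
    have h3 := sy_zpow_right c (-1) 2
    have h4 : ((-1 : kˣ) ^ (2 : ℤ)) = 1 := by
      rw [zpow_ofNat]
      exact neg_one_sq
    rw [h4, sy_one_right] at h3
    exact_mod_cast h3.symm
  have h5 : sy c (-1) = 0 := (smul_eq_zero.1 h2).resolve_left two_ne_zero
  rw [h1, sy_mul_right, h5, sy_self, add_zero]

private lemma spe_one_left {k : Type} [Field k] (c : kˣ) : sy 1 c = 0 := by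
  rw [sy_anti, sy_one_right, neg_zero]

open scoped RatFunc in
/-- the Laurent series at `0` -/
private noncomputable def spe_em (k : Type) [Field k] : RatFunc k →+* LaurentSeries k :=
  algebraMap (RatFunc k) (LaurentSeries k)

open scoped RatFunc in
private lemma spe_em_poly {k : Type} [Field k] (p : k[X]) :
    spe_em k (algebraMap k[X] (RatFunc k) p) =
      HahnSeries.ofPowerSeries ℤ k (p : PowerSeries k) := by
  have h1 := RatFunc.coe_coe (F := k) p
  rw [h1]
  rfl

/-- the leading coefficient at `0` -/
private noncomputable def spe_lc (k : Type) [Field k] : (RatFunc k)ˣ →* kˣ where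
  toFun f := Units.mk0 (HahnSeries.leadingCoeff (spe_em k f)) (by
    rw [Ne, HahnSeries.leadingCoeff_eq_zero, map_eq_zero]
    exact f.ne_zero)
  map_one' := by
    ext
    rw [Units.val_mk0, Units.val_one, map_one, HahnSeries.leadingCoeff_one, Units.val_one]
  map_mul' f g := by
    ext
    rw [Units.val_mk0, Units.val_mul, map_mul, HahnSeries.leadingCoeff_mul, Units.val_mul,
      Units.val_mk0, Units.val_mk0]

private lemma spe_lc_val {k : Type} [Field k] (f : (RatFunc k)ˣ) : (spe_lc k f : k) =
    HahnSeries.leadingCoeff (spe_em k f) := rfl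

private lemma spe_steinberg {k : Type} [Field k] {f g : (RatFunc k)ˣ}
    (h : (f : RatFunc k) + g = 1) : sy (spe_lc k f) (spe_lc k g) = 0 := by
  have hf0 : spe_em k f ≠ 0 := by
    rw [Ne, map_eq_zero]
    exact f.ne_zero
  have hg0 : spe_em k g ≠ 0 := by
    rw [Ne, map_eq_zero]
    exact g.ne_zero
  have hs : spe_em k f + spe_em k g
      = 1 := by
    rw [← map_add, h, map_one]
  have hf := spe_lc_val f
  have hg := spe_lc_val g
  generalize spe_em k f = F at *
  generalize spe_em k g = G at *
  rcases lt_trichotomy F.orderTop G.orderTop with h1 | h1 | h1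
  · have h2 := HahnSeries.leadingCoeff_add_eq_left h1
    rw [hs, HahnSeries.leadingCoeff_one, ← hf] at h2
    have h3 : spe_lc k f = 1 := by
      ext
      rw [← h2, Units.val_one]
    rw [h3, spe_one_left]
  · have h2 : F.order = G.order := by
      rw [← HahnSeries.order_eq_orderTop_of_ne_zero hf0,
        ← HahnSeries.order_eq_orderTop_of_ne_zero hg0] at h1
      exact_mod_cast h1
    have h3 : F.coeff F.order + G.coeff F.order = (1 : LaurentSeries k).coeff F.order := by
      rw [← HahnSeries.coeff_add, hs]
    rw [HahnSeries.leadingCoeff_eq] at hf hg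
    rw [← hf, h2, ← hg] at h3
    rw [HahnSeries.coeff_one] at h3
    split_ifs at h3 with h4
    · exact sy_steinberg h3
    · exact spe_neg h3
  · have h2 := HahnSeries.leadingCoeff_add_eq_right h1
    rw [hs, HahnSeries.leadingCoeff_one, ← hg] at h2
    have h3 : spe_lc k g = 1 := by
      ext
      rw [← h2, Units.val_one]
    rw [h3, sy_one_right]

theorem exists_spec (k : Type) [Field k] : ∃ s : KMQ (RatFunc k) 2 →ₗ[ℚ] KMQ k 2,
    (∀ c c' : kˣ, s (sy (Units.map (algebraMap k (RatFunc k) : k →* RatFunc k) c)
      (Units.map (algebraMap k (RatFunc k) : k →* RatFunc k) c')) = sy c c') ∧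
    ∀ (f v : (RatFunc k)ˣ) (p : k[X]), p.coeff 0 = 1 →
      (v : RatFunc k) = algebraMap k[X] (RatFunc k) p → s (sy f v) = 0 := by
  obtain ⟨s, hs⟩ := KMQ.exists_lift (R := RatFunc k) (d := 2) (V := KMQ k 2)
    (fun f => sy (spe_lc k (f 0)) (spe_lc k (f 1))) (by
      intro f i u v
      fin_cases i
      · simp only [Fin.zero_eta, Fin.isValue, Function.update_self, ne_eq, one_ne_zero,
          not_false_eq_true, Function.update_of_ne, map_mul]
        exact sy_mul_left _ _ _
      · simp only [Fin.mk_one, Fin.isValue, Function.update_self, ne_eq, zero_ne_one,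
          not_false_eq_true, Function.update_of_ne, map_mul]
        exact sy_mul_right _ _ _) (by
      intro f i j hij h
      fin_cases i <;> fin_cases j
      · exact absurd rfl hij
      · exact spe_steinberg h
      · have := spe_steinberg (f := f 0) (g := f 1) (by rw [add_comm]; exact h)
        exact this
      · exact absurd rfl hij)
  have hs' : ∀ f g : (RatFunc k)ˣ, s (sy f g) = sy (spe_lc k f) (spe_lc k g) := fun f g => by
    rw [sy, hs]
    rfl
  have h0 : ∀ (v : (RatFunc k)ˣ) (p : k[X]), p.coeff 0 ≠ 0 →
      (v : RatFunc k) = algebraMap k[X] (RatFunc k) p → (spe_lc k v : k) = p.coeff 0 := by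
    intro v p hp hv
    rw [spe_lc_val, hv, spe_em_poly]
    have h1 : (HahnSeries.ofPowerSeries ℤ k (p : PowerSeries k)).coeff 0 = p.coeff 0 := by
      have := HahnSeries.ofPowerSeries_apply_coeff (Γ := ℤ) (p : PowerSeries k) 0
      rw [Polynomial.coeff_coe] at this
      exact_mod_cast this
    have h3 : (HahnSeries.ofPowerSeries ℤ k (p : PowerSeries k)).coeff 0 ≠ 0 := by
      rw [h1]
      exact hp
    have h4 : HahnSeries.ofPowerSeries ℤ k (p : PowerSeries k) ≠ 0 := by
      intro h5
      rw [h5] at h3
      exact h3 rfl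
    have h2 : (HahnSeries.ofPowerSeries ℤ k (p : PowerSeries k)).order = 0 := by
      refine le_antisymm (HahnSeries.order_le_of_coeff_ne_zero h3) ?_
      rw [HahnSeries.le_order_iff_forall h4]
      intro j hj
      have h6 := PowerSeries.coeff_coe (f := (p : PowerSeries k)) j
      rw [if_pos hj] at h6
      exact h6
    rw [HahnSeries.leadingCoeff_eq, h2, h1]
  refine ⟨s, fun c c' => ?_, fun f v p hp hv => ?_⟩
  · have h1 : ∀ a : kˣ, spe_lc k (Units.map (algebraMap k (RatFunc k) : k →* RatFunc k) a) = a := by
      intro a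
      ext
      have h2 := h0 (Units.map (algebraMap k (RatFunc k) : k →* RatFunc k) a) (C (a : k))
        (by rw [coeff_C_zero]; exact a.ne_zero) (by
          rw [Units.coe_map]
          exact (RatFunc.algebraMap_C (a : k)).symm)
      rw [h2, coeff_C_zero]
    rw [hs', h1, h1]
  · have h1 : spe_lc k v = 1 := by
      ext
      rw [h0 v p (by rw [hp]; exact one_ne_zero) hv, hp, Units.val_one]
    rw [hs', h1, sy_one_right]

end Pool.Agent.CSG
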