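import Pool.Agent.CSG.MiC
import Pool.Agent.CSG.Spe
import Pool.Agent.CSG.PlR
import Pool.Agent.Helper11.KMUnr

/-!
# `{g, π(h)} = 0` if `a h ^ m = g` is a root of unity modulo `π(h)`

`sy_ratFunc`: the symbol `z` is unramified at the places of `k(X)` over the irreducible polynomials: over `X` the second
entry is `≡ 1`, over `π` a power of the first entry is `≡ 1`, elsewhere both entries are units. By Milnor's theorem `z`
is the image of a symbol of constants, and its specialisation at `0` vanishes. `sy_cyk`: the image under `X ↦ h`.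
-/

open scoped BigOperators Polynomial
open Polynomial

namespace Pool.Agent.CSG

open Pool.Agent.Helper11

theorem coeff_zero_ne {k : Type} [Field k] {a : k} {m : ℕ} (hm : 0 < m) {π : k[X]}
    (hπ : Cyk a m π) : π.coeff 0 ≠ 0 := by
  obtain ⟨_, _, M, hM, hd⟩ := hπ
  intro h0
  have h1 : X ∣ (C a * X ^ m) ^ M - 1 := (X_dvd_iff.2 h0).trans hd
  rw [X_dvd_iff, coeff_zero_eq_eval_zero] at h1
  simp [hm.ne', hM.ne'] at h1

private theorem Cyk_tr (k : Type) [Field k] : Transcendental k (RatFunc.X : RatFunc k) := by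
  rw [transcendental_iff]
  intro p hp
  rw [RatFunc.aeval_X_left_eq_algebraMap] at hp
  exact (map_eq_zero_iff _ (RatFunc.algebraMap_injective k)).1 hp

private theorem Cyk_map {R S : Type} [Field R] [Field S] (φ : R →+* S) (u v : Rˣ) :
    KMQ.map φ 2 (sy u v) = sy (Units.map (φ : R →* S) u) (Units.map (φ : R →* S) v) := by
  unfold sy
  rw [KMQ.map_symM]
  congr 1
  funext i
  fin_cases i <;> rfl

private theorem Cyk_unit {k : Type} [Field k] {O : ValuationSubring (RatFunc k)} {π' : k[X]}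
    (hO1 : ∀ p : k[X], algebraMap k[X] (RatFunc k) p ∈ O)
    (hO2 : ∀ p : k[X], O.valuation (algebraMap k[X] (RatFunc k) p) < 1 ↔ π' ∣ p) {p : k[X]} (hp : ¬ π' ∣ p)
    {u : (RatFunc k)ˣ} (hu : (u : RatFunc k) = algebraMap k[X] (RatFunc k) p) : u ∈ O.unitGroup := by
  rw [O.mem_unitGroup_iff, hu]
  refine le_antisymm ((O.valuation_le_one_iff _).2 (hO1 p)) ?_
  by_contra hcon
  exact hp ((hO2 p).1 (not_le.1 hcon))

private theorem Cyk_low {k : Type} [Field k] [CharZero k] [CharZero (RatFunc k)] {a : k} (ha : a ≠ 0) {m : ℕ}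
    (hm : 0 < m) {π : k[X]} (hπ : Cyk a m π) {f v : (RatFunc k)ˣ}
    (hf : (f : RatFunc k) = algebraMap k[X] (RatFunc k) (C a * X ^ m))
    (hv : (v : RatFunc k) = algebraMap k[X] (RatFunc k) (C (π.coeff 0)⁻¹ * π)) :
    sy f v ∈ LPdk k (RatFunc.X : RatFunc k) 0 := by
  have hc := coeff_zero_ne hm hπ
  obtain ⟨hmon, _, M, hM, hdvd⟩ := hπ
  have htr := Cyk_tr k
  have hπ0 : π ≠ 0 := hmon.ne_zero
  have hp1 : C a * X ^ m ≠ (0 : k[X]) := mul_ne_zero (C_ne_zero.2 ha) (pow_ne_zero _ X_ne_zero)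
  have hp2 : C (π.coeff 0)⁻¹ * π ≠ 0 := mul_ne_zero (C_ne_zero.2 (inv_ne_zero hc)) hπ0
  have hae : ∀ p : k[X], aeval (RatFunc.X : RatFunc k) p = algebraMap k[X] (RatFunc k) p :=
    RatFunc.aeval_X_left_eq_algebraMap
  have hf' : f = pqk RatFunc.X (C a * X ^ m) := pqk_congr htr hp1 (hf.trans (hae _).symm)
  have hv' : v = pqk RatFunc.X (C (π.coeff 0)⁻¹ * π) := pqk_congr htr hp2 (hv.trans (hae _).symm)
  have hz : sy f v ∈ LPk k (RatFunc.X : RatFunc k) := by
    rw [hf', hv']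
    exact Submodule.subset_span ⟨_, _, hp1, hp2, rfl⟩
  refine milnorK htr hz fun π' _ hi' => ?_
  obtain ⟨O, hO, hO1, hO2⟩ := exists_plR hi'
  have := hO
  refine ⟨O, hO, fun r => ?_, hO1 X, ?_, ?_⟩
  · rw [IsScalarTower.algebraMap_apply k k[X] (RatFunc k)]
    exact hO1 _
  · rw [hae]
    exact (hO2 π').2 dvd_rfl
  · by_cases hA : π' ∣ X
    · refine symM_mem_of_sub_one O ![f, v] 1 ?_
      have h1 : ((![f, v] 1 : (RatFunc k)ˣ) : RatFunc k) - 1 =
          algebraMap k[X] (RatFunc k) (C (π.coeff 0)⁻¹ * π - 1) := by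
        rw [map_sub, map_one, ← hv]
        rfl
      rw [h1, hO2]
      refine hA.trans (X_dvd_iff.2 ?_)
      rw [coeff_sub, coeff_C_mul, inv_mul_cancel₀ hc, coeff_one_zero, sub_self]
    · by_cases hB : π' ∣ π
      · have h1 : sy (f ^ (M : ℤ)) v ∈ unrM O 2 := by
          refine symM_mem_of_sub_one O ![f ^ (M : ℤ), v] 0 ?_
          have h2 : ((![f ^ (M : ℤ), v] 0 : (RatFunc k)ˣ) : RatFunc k) - 1 =
              algebraMap k[X] (RatFunc k) ((C a * X ^ m) ^ M - 1) := by
            rw [map_sub, map_one, map_pow, ← hf]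
            change ((f ^ (M : ℤ) : (RatFunc k)ˣ) : RatFunc k) - 1 = _
            rw [zpow_natCast, Units.val_pow_eq_pow_val]
          rw [h2, hO2]
          exact hB.trans hdvd
        rw [sy_zpow_left] at h1
        have hM' : (((M : ℤ) : ℚ)) ≠ 0 := by
          rw [Int.cast_natCast]
          exact_mod_cast hM.ne'
        have h2 := (unrM O 2).smul_mem (((M : ℤ) : ℚ))⁻¹ h1
        rwa [smul_smul, inv_mul_cancel₀ hM', one_smul] at h2
      · refine Submodule.subset_span ⟨![f, v], fun i => ?_, rfl⟩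
        have h1 : ¬ π' ∣ C a * X ^ m := by
          intro h
          rcases hi'.prime.dvd_or_dvd h with h2 | h2
          · exact hi'.not_isUnit (isUnit_of_dvd_unit h2 (isUnit_C.2 ha.isUnit))
          · exact hA (hi'.prime.dvd_of_dvd_pow h2)
        have h2 : ¬ π' ∣ C (π.coeff 0)⁻¹ * π := by
          intro h
          rcases hi'.prime.dvd_or_dvd h with h2 | h2
          · exact hi'.not_isUnit (isUnit_of_dvd_unit h2 (isUnit_C.2 (inv_ne_zero hc).isUnit))
          · exact hB h2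
        fin_cases i
        · exact Cyk_unit hO1 hO2 h1 hf
        · exact Cyk_unit hO1 hO2 h2 hv

theorem sy_ratFunc {k : Type} [Field k] [CharZero k] {a : k} (ha : a ≠ 0) {m : ℕ} (hm : 0 < m)
    {π : k[X]} (hπ : Cyk a m π) {f v : (RatFunc k)ˣ}
    (hf : (f : RatFunc k) = algebraMap k[X] (RatFunc k) (C a * X ^ m))
    (hv : (v : RatFunc k) = algebraMap k[X] (RatFunc k) (C (π.coeff 0)⁻¹ * π)) :
    sy f v = 0 := by
  have : CharZero (RatFunc k) := charZero_of_injective_algebraMap (algebraMap k (RatFunc k)).injective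
  have hc := coeff_zero_ne hm hπ
  have htr := Cyk_tr k
  have hz := Cyk_low ha hm hπ hf hv
  obtain ⟨s, hs1, hs2⟩ := exists_spec k
  have hs : s (sy f v) = 0 := hs2 f v _ (by rw [coeff_C_mul, inv_mul_cancel₀ hc]) hv
  have hC : ∀ p : k[X], p ≠ 0 → p.natDegree ≤ 0 → ∃ c : kˣ,
      pqk (RatFunc.X : RatFunc k) p = Units.map (algebraMap k (RatFunc k) : k →* RatFunc k) c := by
    intro p hp hd
    have h1 := eq_C_of_natDegree_le_zero hd
    have h2 : p.coeff 0 ≠ 0 := by
      intro h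
      rw [h, C_0] at h1
      exact hp h1
    refine ⟨Units.mk0 _ h2, ?_⟩
    rw [← pqk_C htr, Units.val_mk0, ← h1]
  have hmap : ∀ w ∈ LPdk k (RatFunc.X : RatFunc k) 0, KMQ.map (algebraMap k (RatFunc k)) 2 (s w) = w := by
    intro w hw
    unfold LPdk at hw
    induction hw using Submodule.span_induction with
    | mem y hy =>
      obtain ⟨p, q, hp, hq, hpd, hqd, rfl⟩ := hy
      obtain ⟨c, hc1⟩ := hC p hp hpd
      obtain ⟨c', hc2⟩ := hC q hq hqd
      rw [hc1, hc2, hs1, Cyk_map]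
    | zero => rw [map_zero, map_zero]
    | add x y _ _ hx hy => rw [map_add, map_add, hx, hy]
    | smul c x _ hx => rw [map_smul, map_smul, hx]
  rw [← hmap _ hz, hs, map_zero]

theorem sy_cyk {k K : Type} [Field k] [CharZero k] [Field K] [CharZero K] [Algebra k K]
    {a : k} (ha : a ≠ 0) {m : ℕ} (hm : 0 < m) {π : k[X]} (hπ : Cyk a m π) {h : K}
    (hh : Transcendental k h) {g u : Kˣ} (hg : (g : K) = algebraMap k K a * h ^ m)
    (hu : (u : K) = algebraMap k K (π.coeff 0)⁻¹ * aeval h π) : sy g u = 0 := by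
  have hinj : Function.Injective (aeval h : k[X] →ₐ[k] K).toRingHom := transcendental_iff_injective.1 hh
  obtain ⟨φ, hφ⟩ : ∃ φ : RatFunc k →+* K, ∀ p : k[X], φ (algebraMap k[X] (RatFunc k) p) = aeval h p :=
    ⟨RatFunc.liftRingHom (aeval h : k[X] →ₐ[k] K).toRingHom
      (nonZeroDivisors_le_comap_nonZeroDivisors_of_injective _ hinj),
      fun p => RatFunc.liftRingHom_algebraMap _ _ p⟩
  have hc := coeff_zero_ne hm hπ
  have hn : ∀ p : k[X], p ≠ 0 → algebraMap k[X] (RatFunc k) p ≠ 0 := fun p hp h0 =>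
    hp ((map_eq_zero_iff _ (RatFunc.algebraMap_injective k)).1 h0)
  have h1 := hn (C a * X ^ m) (mul_ne_zero (C_ne_zero.2 ha) (pow_ne_zero _ X_ne_zero))
  have h2 := hn (C (π.coeff 0)⁻¹ * π) (mul_ne_zero (C_ne_zero.2 (inv_ne_zero hc)) hπ.1.ne_zero)
  have h3 := congrArg (KMQ.map φ 2) (sy_ratFunc ha hm hπ (f := Units.mk0 _ h1) (v := Units.mk0 _ h2) rfl rfl)
  rw [map_zero, Cyk_map] at h3
  have e1 : Units.map (φ : RatFunc k →* K) (Units.mk0 _ h1) = g := by
    apply Units.ext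
    rw [hg, Units.coe_map, Units.val_mk0]
    change φ _ = _
    rw [hφ, map_mul, aeval_C, map_pow, aeval_X]
  have e2 : Units.map (φ : RatFunc k →* K) (Units.mk0 _ h2) = u := by
    apply Units.ext
    rw [hu, Units.coe_map, Units.val_mk0]
    change φ _ = _
    rw [hφ, map_mul, aeval_C]
  rw [e1, e2] at h3
  exact h3

end Pool.Agent.CSG
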