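import Pool.Agent.CST.Defs

/-!
# Common definitions of the project CSG (MP_a09a03_nt, EveryCurve v2: arbitrary field of constants)

Paper proofs: /team-store/cst97.md and /team-store/cst97v2.md.
-/

open scoped BigOperators Polynomial LaurentPolynomial
open Polynomial

namespace Pool.Agent.CSG

open Pool.Agent.CST

/-- evaluation of the coefficients (polynomials in `t`) at `z` -/
noncomputable def cev {R : Type*} [CommRing R] (z : R) : R[X] →+* R := Polynomial.evalRingHom z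

/-- `k₀(z)` inside `ℂ` -/
noncomputable abbrev Ka (k₀ : IntermediateField ℚ ℂ) (z : ℂ) : IntermediateField ℚ ℂ := k₀ ⊔ Qa z

/-- `s` is a combination of at most `R` powers of `ζ`, with coefficients in `k₀(ζ ^ l)` -/
def SparseK (k₀ : IntermediateField ℚ ℂ) (l R : ℕ) (ζ s : ℂ) : Prop :=
  ∃ (J : Finset ℕ) (e : ℕ → ℂ), J.card ≤ R ∧ (∀ j, e j ∈ Ka k₀ (ζ ^ l)) ∧
    s = ∑ j ∈ J, e j * ζ ^ j

/-- `s` is a combination of the powers `η ^ r`, `|r| ≤ l / Q`, with coefficients in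
`k₀(η ^ l)` -/
def RepK (k₀ : IntermediateField ℚ ℂ) (l Q : ℕ) (η s : ℂ) : Prop :=
  ∃ (I : Finset ℤ) (c : ℤ → ℂ), (∀ r ∈ I, |r| * Q ≤ l) ∧ (∀ r, c r ∈ Ka k₀ (η ^ l)) ∧
    s = ∑ r ∈ I, c r * η ^ r

/-- the coefficients of `F`, with `t` replaced by `T ^ a` -/
noncomputable def tsubC (a : ℕ) : ℂ[X] →+* ℂ[T;T⁻¹] :=
  Polynomial.eval₂RingHom (LaurentPolynomial.C : ℂ →+* ℂ[T;T⁻¹]) (LaurentPolynomial.T (a : ℤ))

/-- no factorisation with algebraic coefficients over the Laurent polynomials after a substitution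
`t = T ^ a` -/
def GeoC (F : ℂ[X][X]) : Prop :=
  ∀ a : ℕ, 0 < a → ∀ G H : (ℂ[T;T⁻¹])[X], G.Monic → H.Monic →
    (∀ i n, IsAlgebraic ℚ ((G.coeff i).coeff n)) →
    (∀ i n, IsAlgebraic ℚ ((H.coeff i).coeff n)) →
    F.map (tsubC a) = G * H → G.natDegree = 0 ∨ H.natDegree = 0

/-- all coefficients of `F` are algebraic integers of `k₀` -/
def IntIn (k₀ : IntermediateField ℚ ℂ) (F : ℂ[X][X]) : Prop :=
  ∀ i j, (F.coeff i).coeff j ∈ k₀ ∧ IsIntegral ℤ ((F.coeff i).coeff j)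

/-- the twist `D ^ d f(t / b, X / D)` of `f ∈ k[t][X]`, in `ℂ[t][X]` -/
noncomputable def tw {k : Type} [Field k] (j : k →+* ℂ) (b : ℂ) (D : ℕ) (f : k[X][X]) : ℂ[X][X] :=
  ∑ i ∈ Finset.range (f.natDegree + 1), monomial i
    (C ((D : ℂ) ^ (f.natDegree - i)) * ((f.coeff i).map j).comp (C b⁻¹ * X))

section curve

variable (k K : Type) [Field k] [CharZero k] [Field K] [CharZero K] [Algebra k K]

/-- every element of `K` algebraic over `k` is in `k` -/
def CstK : Prop := ∀ a : K, IsAlgebraic k a → ∃ q : k, algebraMap k K q = a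

variable {K}

/-- `h` is not of the form `a * u ^ p`, `a` in `k`, `p` prime -/
def NpwK (h : K) : Prop :=
  ∀ p : ℕ, p.Prime → ∀ (a : k) (u : K), h ≠ algebraMap k K a * u ^ p

variable {k}

/-- a plane model over the line with coordinate `h`: `K = k(h)(θ)`, `f(h, θ) = 0`, `f` monic of
degree `[K : k(h)]` -/
structure ModelK (h θ : K) (f : k[X][X]) : Prop where
  tr : Transcendental k h
  monic : f.Monic
  root : f.eval₂ (aeval h : k[X] →ₐ[k] K).toRingHom θ = 0
  top : IntermediateField.adjoin k {h, θ} = ⊤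
  deg : f.natDegree = Module.finrank (IntermediateField.adjoin k {h}) K
  pos : 0 < f.natDegree

/-- the polynomials `π ∈ k[X]`, monic and irreducible, whose roots `η` satisfy: `a η ^ m` is a
root of unity -/
def Cyk (a : k) (m : ℕ) (π : k[X]) : Prop :=
  π.Monic ∧ Irreducible π ∧ ∃ M : ℕ, 0 < M ∧ π ∣ (C a * X ^ m) ^ M - 1

end curve

end Pool.Agent.CSG
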