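import Pool.Agent.CSG.Defs
import Pool.Agent.CST.Deg

/-!
# Linear independence of powers of a root of unity over `k₀(η ^ l)`

With `e = [k₀ : ℚ]` and `y = η ^ l`, the tower law and `CST.degree_ge` give
`l - 1 ≤ e * deg (minpoly (k₀(y)) η)`; a relation with exponents `s ≤ r`, `(r - s) * e < l - 1`, is
after multiplication by `η ^ (-s)` a polynomial of degree smaller than the degree of the minimal
polynomial.
-/

open scoped BigOperators Polynomial
open Polynomial

namespace Pool.Agent.CSG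

open Pool.Agent.CST

private lemma dgk_int {N : ℕ} (hN : 0 < N) {z : ℂ} (hz : z ^ N = 1) : IsIntegral ℚ z := by
  refine ⟨X ^ N - C 1, monic_X_pow_sub_C 1 hN.ne', ?_⟩
  simp [hz]

private lemma dgk_deg (F : IntermediateField ℚ ℂ) [FiniteDimensional ℚ F] {η : ℂ}
    (hη : IsIntegral ℚ η) :
    FiniteDimensional ℚ (IntermediateField.adjoin F ({η} : Set ℂ)) ∧
      Module.finrank ℚ F * (minpoly F η).natDegree =
      Module.finrank ℚ (IntermediateField.adjoin F ({η} : Set ℂ)) := by
  have hi : IsIntegral F η := hη.tower_top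
  have f1 : FiniteDimensional F (IntermediateField.adjoin F ({η} : Set ℂ)) :=
    IntermediateField.adjoin.finiteDimensional hi
  refine ⟨FiniteDimensional.trans ℚ F _, ?_⟩
  rw [← IntermediateField.adjoin.finrank hi]
  exact Module.finrank_mul_finrank ℚ F _

private lemma dgk_tower (F L : IntermediateField ℚ ℂ) [FiniteDimensional ℚ F]
    [FiniteDimensional ℚ L] (h : F ≤ L) {η : ℂ} (hη : IsIntegral ℚ η) :
    Module.finrank ℚ F * (minpoly F η).natDegree ≤
      Module.finrank ℚ L * (minpoly L η).natDegree := by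
  obtain ⟨f1, e1⟩ := dgk_deg F hη
  obtain ⟨f2, e2⟩ := dgk_deg L hη
  rw [e1, e2]
  have hle : ∀ x ∈ IntermediateField.adjoin F ({η} : Set ℂ),
      x ∈ IntermediateField.adjoin L ({η} : Set ℂ) := by
    intro x hx
    induction hx using IntermediateField.adjoin_induction with
    | mem x hx => exact IntermediateField.subset_adjoin _ _ hx
    | algebraMap a =>
      exact (IntermediateField.adjoin L ({η} : Set ℂ)).algebraMap_mem (⟨(a : ℂ), h a.2⟩ : L)
    | add x y _ _ hx hy => exact add_mem hx hy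
    | inv x _ hx => exact inv_mem hx
    | mul x y _ _ hx hy => exact mul_mem hx hy
  let f : (IntermediateField.adjoin F ({η} : Set ℂ)) →ₗ[ℚ]
      (IntermediateField.adjoin L ({η} : Set ℂ)) :=
    { toFun := fun x => ⟨x.1, hle x.1 x.2⟩
      map_add' := fun x y => rfl
      map_smul' := fun a x => rfl }
  refine LinearMap.finrank_le_finrank_of_injective (f := f) ?_
  intro x y hxy
  exact Subtype.ext (congrArg
    (fun w : IntermediateField.adjoin L ({η} : Set ℂ) => (w : ℂ)) hxy)

private lemma dgk_ge (k₀ F : IntermediateField ℚ ℂ) [FiniteDimensional ℚ k₀]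
    [FiniteDimensional ℚ F] {η : ℂ} (hη : IsIntegral ℚ η) :
    (minpoly F η).natDegree ≤ Module.finrank ℚ k₀ *
      (minpoly (k₀ ⊔ F : IntermediateField ℚ ℂ) η).natDegree := by
  have fL : FiniteDimensional ℚ (k₀ ⊔ F : IntermediateField ℚ ℂ) :=
    IntermediateField.finiteDimensional_sup k₀ F
  have h1 := dgk_tower F (k₀ ⊔ F) le_sup_right hη
  have h2 : Module.finrank ℚ (k₀ ⊔ F : IntermediateField ℚ ℂ) ≤
      Module.finrank ℚ k₀ * Module.finrank ℚ F := IntermediateField.finrank_sup_le k₀ F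
  have hpos : 0 < Module.finrank ℚ F := Module.finrank_pos
  generalize (minpoly F η).natDegree = a at *
  generalize (minpoly (k₀ ⊔ F : IntermediateField ℚ ℂ) η).natDegree = b at *
  generalize Module.finrank ℚ (k₀ ⊔ F : IntermediateField ℚ ℂ) = m at *
  generalize Module.finrank ℚ k₀ = e at *
  generalize Module.finrank ℚ F = f at *
  refine Nat.le_of_mul_le_mul_left (c := f) ?_ hpos
  calc f * a ≤ m * b := h1
    _ ≤ (e * f) * b := Nat.mul_le_mul_right _ h2
    _ = f * (e * b) := by ring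

private lemma dgk_indep (L : IntermediateField ℚ ℂ) {η : ℂ} (hη0 : η ≠ 0)
    (hiL : IsIntegral L η) (c : ℤ → ℂ) (hc : ∀ r, c r ∈ L) (I : Finset ℤ) (s : ℤ)
    (hI : ∀ r ∈ I, s ≤ r ∧ (r - s).toNat < (minpoly L η).natDegree)
    (h0 : ∑ r ∈ I, c r * η ^ r = 0) : ∀ r ∈ I, c r = 0 := by
  classical
  let P : L[X] := ∑ r ∈ I, monomial (r - s).toNat (⟨c r, hc r⟩ : L)
  have hPη : aeval η P = 0 := by
    have h1 : ∀ r ∈ I, aeval η (monomial (r - s).toNat (⟨c r, hc r⟩ : L)) =
        η ^ (-s) * (c r * η ^ r) := by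
      intro r hr
      have h3 : ((r - s).toNat : ℤ) = r - s := Int.toNat_of_nonneg (by have := (hI r hr).1; omega)
      rw [aeval_monomial, ← zpow_natCast η, h3, sub_eq_add_neg, zpow_add₀ hη0]
      change c r * (η ^ r * η ^ (-s)) = _
      ring
    change aeval η (∑ r ∈ I, monomial (r - s).toNat (⟨c r, hc r⟩ : L)) = 0
    rw [map_sum, Finset.sum_congr rfl h1, ← Finset.mul_sum, h0, mul_zero]
  have hP : P = 0 := by
    by_contra hne
    have h1 := minpoly.degree_le_of_ne_zero L η hne hPη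
    have h2 : P.degree < (minpoly L η).degree := by
      rw [Polynomial.degree_eq_natDegree (minpoly.ne_zero hiL)]
      refine (Polynomial.degree_lt_iff_coeff_zero _ _).2 ?_
      intro m hm
      change (∑ r ∈ I, monomial (r - s).toNat (⟨c r, hc r⟩ : L)).coeff m = 0
      rw [Polynomial.finsetSum_coeff]
      refine Finset.sum_eq_zero ?_
      intro r hr
      rw [Polynomial.coeff_monomial, if_neg]
      have := (hI r hr).2
      omega
    exact absurd h1 (not_le.2 h2)
  intro r hr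
  have h1 : P.coeff (r - s).toNat = (⟨c r, hc r⟩ : L) := by
    change (∑ r' ∈ I, monomial (r' - s).toNat (⟨c r', hc r'⟩ : L)).coeff (r - s).toNat = _
    rw [Polynomial.finsetSum_coeff, Finset.sum_eq_single r]
    · rw [Polynomial.coeff_monomial, if_pos rfl]
    · intro b hb hbr
      rw [Polynomial.coeff_monomial, if_neg]
      have hb1 := (hI b hb).1
      have hr1 := (hI r hr).1
      omega
    · intro hn
      exact absurd hr hn
  rw [hP, Polynomial.coeff_zero] at h1
  exact (congrArg (fun w : L => (w : ℂ)) h1).symm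

theorem degree_geK (k₀ : IntermediateField ℚ ℂ) (hk : FiniteDimensional ℚ k₀) {N l : ℕ}
    (hN : 0 < N) (hl : Spl l N) {η : ℂ} (hη : IsPrimitiveRoot η N) :
    l - 1 ≤ Module.finrank ℚ k₀ * (minpoly (Ka k₀ (η ^ l)) η).natDegree := by
  have hηi : IsIntegral ℚ η := dgk_int hN hη.pow_eq_one
  have fF : FiniteDimensional ℚ (Qa (η ^ l)) :=
    IntermediateField.adjoin.finiteDimensional (hηi.pow l)
  exact (degree_ge hN hl hη).trans (dgk_ge k₀ (Qa (η ^ l)) hηi)

theorem indepK (k₀ : IntermediateField ℚ ℂ) (hk : FiniteDimensional ℚ k₀) {N l : ℕ}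
    (hN : 0 < N) (hl : Spl l N) {η : ℂ} (hη : IsPrimitiveRoot η N)
    (c : ℤ → ℂ) (hc : ∀ r, c r ∈ Ka k₀ (η ^ l)) (I : Finset ℤ) (s : ℤ)
    (hI : ∀ r ∈ I, s ≤ r ∧ (r - s) * (Module.finrank ℚ k₀ : ℤ) < (l : ℤ) - 1)
    (h0 : ∑ r ∈ I, c r * η ^ r = 0) : ∀ r ∈ I, c r = 0 := by
  have hd := degree_geK k₀ hk hN hl hη
  have hηi : IsIntegral ℚ η := dgk_int hN hη.pow_eq_one
  have hη0 : η ≠ 0 := hη.ne_zero hN.ne'
  refine dgk_indep (Ka k₀ (η ^ l)) hη0 hηi.tower_top c hc I s ?_ h0
  intro r hr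
  obtain ⟨h1, h2⟩ := hI r hr
  refine ⟨h1, ?_⟩
  have h3 : ((r - s).toNat : ℤ) = r - s := Int.toNat_of_nonneg (by omega)
  generalize (minpoly (Ka k₀ (η ^ l)) η).natDegree = d at *
  generalize Module.finrank ℚ k₀ = e at *
  have h4 : (r - s).toNat * e < l - 1 := by
    have h5 : (((r - s).toNat * e : ℕ) : ℤ) < (l : ℤ) - 1 := by
      push_cast
      rw [h3]
      exact h2
    omega
  by_contra hcon
  push Not at hcon
  have h6 := Nat.mul_le_mul_left e hcon
  have h7 : (r - s).toNat * e = e * (r - s).toNat := Nat.mul_comm _ _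
  omega

end Pool.Agent.CSG
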