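import Pool.Agent.CSG.Defs

/-!
# If `GeoC` fails for the twist of `f` then `θ` has a small degree over `k(α, γ)`

A factorisation of `D ^ d f(T ^ a / b, X / D)` over the Laurent polynomials with algebraic coefficients is
moved to the algebraically closed field `L` by an embedding of the algebraic numbers which extends `k → L` and
by `T ↦ σ(b₁) γ`, `b₁ ^ a = b`, `γ ^ a = h`; `D θ` is a root of one of the factors, and `α` is a primitive
element of a normal extension of `k` which contains all coefficients needed and a primitive root of unity of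
order `a`.
-/

open scoped BigOperators Polynomial LaurentPolynomial
open Polynomial

namespace Pool.Agent.CSG

/-- finitely many algebraic elements lie in a normal extension generated by one element -/
private theorem lowK_prim {k L : Type} [Field k] [CharZero k] [Field L] [CharZero L] [Algebra k L] [IsAlgClosed L]
    (S : Finset L) (hS : ∀ x ∈ S, IsAlgebraic k x) :
    ∃ α : L, IsAlgebraic k α ∧ Normal k (IntermediateField.adjoin k {α}) ∧
      ∀ x ∈ S, x ∈ IntermediateField.adjoin k {α} := by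
  classical
  set p : k[X] := ∏ x ∈ S, minpoly k x with hp
  have hp0 : p ≠ 0 := by
    rw [hp]
    exact Finset.prod_ne_zero_iff.2 fun x hx => minpoly.ne_zero (hS x hx).isIntegral
  set M : IntermediateField k L := IntermediateField.adjoin k (p.rootSet L) with hM
  have hspl := IntermediateField.adjoin_rootSet_isSplittingField (K := k) (L := L) (p := p)
    (IsAlgClosed.splits _)
  rw [← hM] at hspl
  have hfin := @IsSplittingField.finiteDimensional k M _ _ (IntermediateField.algebra' M) p hspl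
  have hnor := @Normal.of_isSplittingField k _ M _ (IntermediateField.algebra' M) p hspl
  obtain ⟨α, hα⟩ := @Field.exists_primitive_element k M _ _ (IntermediateField.algebra' M) hfin
    inferInstance
  have hαM : IntermediateField.adjoin k {(α : L)} = M := by
    rw [← IntermediateField.lift_adjoin_simple, hα, IntermediateField.lift_top]
  refine ⟨(α : L), ?_, ?_, ?_⟩
  · have h1 : IsIntegral k (α : L) :=
      (@IsIntegral.of_finite k M _ _ (IntermediateField.algebra' M) hfin α).map M.val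
    exact h1.isAlgebraic
  · rw [hαM]
    exact hnor
  · intro x hx
    rw [hαM, hM]
    refine IntermediateField.subset_adjoin k _ ?_
    rw [mem_rootSet]
    refine ⟨hp0, ?_⟩
    rw [hp, map_prod]
    exact Finset.prod_eq_zero hx (minpoly.aeval k x)

/-- the values of a Laurent polynomial -/
private theorem lowK_val {E L : Type} [Field E] [Field L] (σ : E →+* L) (w : Lˣ) (P : E[T;T⁻¹]) :
    LaurentPolynomial.eval₂ σ w P = ∑ n ∈ P.coeff.support, σ (P.coeff n) * ((w : L) ^ n) := by
  have h : P = ∑ n ∈ P.coeff.support, LaurentPolynomial.C (P.coeff n) * LaurentPolynomial.T n := by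
    conv_lhs => rw [← AddMonoidAlgebra.sum_coeff_single P]
    rw [Finsupp.sum]
    refine Finset.sum_congr rfl fun n _ => ?_
    exact LaurentPolynomial.single_eq_C_mul_T _ _
  conv_lhs => rw [h]
  rw [map_sum]
  refine Finset.sum_congr rfl fun n _ => ?_
  rw [LaurentPolynomial.eval₂_C_mul_T, Units.val_zpow_eq_zpow_val]

private theorem lowK_mem {k E L : Type} [Field k] [Field E] [Field L] [Algebra k L] (σ : E →+* L) (w : Lˣ)
    (P : E[T;T⁻¹]) (M : IntermediateField k L) (hw : (w : L) ∈ M)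
    (hM : ∀ n ∈ P.coeff.support, σ (P.coeff n) ∈ M) : LaurentPolynomial.eval₂ σ w P ∈ M := by
  rw [lowK_val]
  exact sum_mem fun n hn => mul_mem (hM n hn) (zpow_mem hw n)

/-- the twist over a field `E` -/
private noncomputable def lowK_tw {k E : Type} [Field k] [Field E] (j : k →+* E) (b : E) (D : ℕ) (f : k[X][X]) :
    E[X][X] :=
  ∑ i ∈ Finset.range (f.natDegree + 1), monomial i
    (C ((D : E) ^ (f.natDegree - i)) * ((f.coeff i).map j).comp (C b⁻¹ * X))

private theorem lowK_tw_map {k E : Type} [Field k] [Field E] (j : k →+* E) (ι : E →+* ℂ) (b : E) (D : ℕ)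
    (f : k[X][X]) : (lowK_tw j b D f).map (mapRingHom ι) = tw (ι.comp j) (ι b) D f := by
  unfold lowK_tw tw
  rw [Polynomial.map_sum]
  refine Finset.sum_congr rfl fun i _ => ?_
  rw [map_monomial, coe_mapRingHom, Polynomial.map_mul, map_C, map_pow, map_natCast, Polynomial.map_comp,
    Polynomial.map_map, Polynomial.map_mul, map_C, map_X, map_inv₀]

/-- the substitution over a field `E` -/
private noncomputable def lowK_sub {E : Type} [Field E] (a : ℕ) : E[X] →+* E[T;T⁻¹] :=
  Polynomial.eval₂RingHom (LaurentPolynomial.C : E →+* E[T;T⁻¹]) (LaurentPolynomial.T (a : ℤ))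

private theorem lowK_mu_C {E : Type} [Field E] (ι : E →+* ℂ) (x : E) :
    AddMonoidAlgebra.mapRingHom ℤ ι (LaurentPolynomial.C x) = LaurentPolynomial.C (ι x) := by
  rw [← LaurentPolynomial.single_eq_C, ← LaurentPolynomial.single_eq_C]
  exact AddMonoidAlgebra.mapRingHom_single ι 0 x

private theorem lowK_mu_T {E : Type} [Field E] (ι : E →+* ℂ) (n : ℤ) :
    AddMonoidAlgebra.mapRingHom ℤ ι (LaurentPolynomial.T n : E[T;T⁻¹]) = LaurentPolynomial.T n := by
  have h := AddMonoidAlgebra.mapRingHom_single ι n (1 : E)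
  rw [map_one] at h
  exact h

private theorem lowK_mu {E : Type} [Field E] (ι : E →+* ℂ) (a : ℕ) :
    (AddMonoidAlgebra.mapRingHom ℤ ι).comp (lowK_sub a) = (tsubC a).comp (mapRingHom ι) := by
  refine Polynomial.ringHom_ext (fun x => ?_) ?_
  · rw [RingHom.comp_apply, RingHom.comp_apply, coe_mapRingHom, map_C]
    unfold lowK_sub tsubC
    rw [coe_eval₂RingHom, coe_eval₂RingHom, eval₂_C, eval₂_C, lowK_mu_C]
  · rw [RingHom.comp_apply, RingHom.comp_apply, coe_mapRingHom, map_X]
    unfold lowK_sub tsubC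
    rw [coe_eval₂RingHom, coe_eval₂RingHom, eval₂_X, eval₂_X, lowK_mu_T]

private theorem lowK_deg {k E : Type} [Field k] [Field E] (j : k →+* E) (b : E) (D : ℕ) (f : k[X][X]) {R : Type}
    [CommRing R] (φ : E[X] →+* R) : ((lowK_tw j b D f).map φ).natDegree ≤ f.natDegree := by
  refine (natDegree_map_le).trans ?_
  unfold lowK_tw
  refine natDegree_sum_le_of_forall_le _ _ fun i hi => ?_
  refine (natDegree_monomial_le _).trans ?_
  rw [Finset.mem_range] at hi
  omega

/-- the value at `w ^ a = σ(b) h`, `X = D θ` -/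
private theorem lowK_root {k E K L : Type} [Field k] [Field K] [Field E] [Field L] [Algebra k K] [Algebra K L]
    [Algebra k L] [IsScalarTower k K L] (j : k →+* E) (σ : E →+* L) (hσ : ∀ x, σ (j x) = algebraMap k L x)
    {b : E} (hb : b ≠ 0) (D : ℕ) {h θ : K} {f : k[X][X]}
    (hr : f.eval₂ (aeval h : k[X] →ₐ[k] K).toRingHom θ = 0) {w : Lˣ} {a : ℕ}
    (hw : (w : L) ^ a = σ b * algebraMap K L h) :
    (((lowK_tw j b D f).map (lowK_sub a)).map (LaurentPolynomial.eval₂ σ w)).eval
      ((D : L) * algebraMap K L θ) = 0 := by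
  have h1 : (LaurentPolynomial.eval₂ σ w).comp (lowK_sub a) = eval₂RingHom σ (σ b * algebraMap K L h) := by
    refine Polynomial.ringHom_ext (fun x => ?_) ?_
    · rw [RingHom.comp_apply]
      unfold lowK_sub
      rw [coe_eval₂RingHom, coe_eval₂RingHom, eval₂_C, eval₂_C, LaurentPolynomial.eval₂_C]
    · rw [RingHom.comp_apply]
      unfold lowK_sub
      rw [coe_eval₂RingHom, coe_eval₂RingHom, eval₂_X, eval₂_X, LaurentPolynomial.eval₂_T, zpow_natCast,
        Units.val_pow_eq_pow_val, hw]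
  have hσb : σ b ≠ 0 := (map_ne_zero σ).2 hb
  have h2 : ∀ i, eval₂RingHom σ (σ b * algebraMap K L h)
      (C ((D : E) ^ (f.natDegree - i)) * ((f.coeff i).map j).comp (C b⁻¹ * X)) =
      (D : L) ^ (f.natDegree - i) * algebraMap K L (aeval h (f.coeff i)) := by
    intro i
    rw [map_mul, coe_eval₂RingHom, eval₂_C, map_pow, map_natCast, eval₂_comp, eval₂_mul, eval₂_C, eval₂_X,
      map_inv₀, inv_mul_cancel_left₀ hσb, eval₂_map]
    congr 1
    have h3 : σ.comp j = algebraMap k L := RingHom.ext hσ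
    rw [h3, ← aeval_def, aeval_algebraMap_apply]
  have h3 : eval₂ (aeval h : k[X] →ₐ[k] K).toRingHom θ f =
      ∑ i ∈ Finset.range (f.natDegree + 1), aeval h (f.coeff i) * θ ^ i := eval₂_eq_sum_range _ _
  rw [Polynomial.map_map, h1]
  unfold lowK_tw
  rw [Polynomial.map_sum, eval_finsetSum]
  have h4 : ∀ i ∈ Finset.range (f.natDegree + 1),
      eval ((D : L) * algebraMap K L θ) ((monomial i (C ((D : E) ^ (f.natDegree - i)) *
        ((f.coeff i).map j).comp (C b⁻¹ * X))).map (eval₂RingHom σ (σ b * algebraMap K L h))) =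
      (D : L) ^ f.natDegree * algebraMap K L (aeval h (f.coeff i) * θ ^ i) := by
    intro i hi
    rw [Finset.mem_range] at hi
    rw [map_monomial, eval_monomial, h2, map_mul, map_pow, mul_pow]
    have h5 : (D : L) ^ f.natDegree = (D : L) ^ (f.natDegree - i) * (D : L) ^ i := by
      rw [← pow_add]
      congr 1
      omega
    rw [h5]
    ring
  rw [Finset.sum_congr rfl h4, ← Finset.mul_sum, ← map_sum, ← h3, hr, map_zero, mul_zero]

theorem exists_lowK {k K L : Type} [Field k] [CharZero k] [Field K] [CharZero K] [Field L]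
    [CharZero L] [Algebra k K] [Algebra K L] [Algebra k L] [IsScalarTower k K L] [IsAlgClosed L]
    (hk : Algebra.IsAlgebraic ℚ k) (j : k →+* ℂ) {b : ℂ} (hb : IsAlgebraic ℚ b) (hb0 : b ≠ 0)
    {D : ℕ} (hD : 0 < D) {h θ : K} {f : k[X][X]} (hm : ModelK h θ f)
    (hf : ¬ GeoC (tw j b D f)) :
    ∃ (a : ℕ) (γ α : L), 0 < a ∧ γ ^ a = algebraMap K L h ∧ IsAlgebraic k α ∧
      Normal k (IntermediateField.adjoin k {α}) ∧
      (∃ ξ ∈ IntermediateField.adjoin k {α}, IsPrimitiveRoot ξ a) ∧
      ∃ G : L[X], G.Monic ∧ G.natDegree < f.natDegree ∧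
        (∀ i, G.coeff i ∈ IntermediateField.adjoin k {α, γ}) ∧
        G.eval (algebraMap K L θ) = 0 := by
  classical
  unfold GeoC at hf
  push Not at hf
  obtain ⟨a, ha, G1, H1, hG1, hH1, hGa, hHa, hGH, hG0, hH0⟩ := hf
  -- the field of the algebraic numbers
  let E : IntermediateField ℚ ℂ := algebraicClosure ℚ ℂ
  have hEalg : Algebra.IsAlgebraic ℚ E := ⟨fun x =>
    (isAlgebraic_algebraMap_iff (R := ℚ) (S := E) (A := ℂ) (algebraMap E ℂ).injective).1
      (mem_algebraicClosure_iff.1 x.2)⟩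
  have hmemE : ∀ z : ℂ, IsAlgebraic ℚ z → z ∈ E := fun z hz => mem_algebraicClosure_iff.2 hz
  have hjE : ∀ x : k, j x ∈ E := fun x =>
    hmemE _ ((Algebra.IsAlgebraic.isAlgebraic (R := ℚ) x).algHom j.toRatAlgHom)
  let jE : k →+* E := j.codRestrict E.toSubfield.toSubring hjE
  let ι : E →+* ℂ := algebraMap E ℂ
  have hιj : ι.comp jE = j := RingHom.ext fun x => rfl
  have hιinj : Function.Injective ι := (algebraMap E ℂ).injective
  let _ : Algebra k E := jE.toAlgebra
  have : IsScalarTower ℚ k E := IsScalarTower.of_algebraMap_eq' (Subsingleton.elim _ _)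
  have hkE : Algebra.IsAlgebraic k E := Algebra.IsAlgebraic.tower_top (K := ℚ) k
  let σ : E →ₐ[k] L := IsAlgClosed.lift
  have hσ : ∀ x, (σ : E →+* L) (jE x) = algebraMap k L x := fun x => σ.commutes x
  -- roots
  obtain ⟨b1, hb1⟩ := IsAlgClosed.exists_pow_nat_eq b ha
  have hb1E : b1 ∈ E := hmemE _ (IsAlgebraic.of_pow ha (by rw [hb1]; exact hb))
  obtain ⟨γ, hγ⟩ := IsAlgClosed.exists_pow_nat_eq (algebraMap K L h) ha
  let bE : E := ⟨b, hmemE b hb⟩
  let cE : E := ⟨b1, hb1E⟩
  have hbE : bE ≠ 0 := fun h0 => hb0 (congrArg Subtype.val h0)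
  have hcE : cE ^ a = bE := Subtype.ext hb1
  have hc0 : cE ≠ 0 := by
    intro h0
    rw [h0, zero_pow ha.ne'] at hcE
    exact hbE hcE.symm
  have hh0 : h ≠ 0 := by
    intro h0
    exact hm.tr (by rw [h0]; exact isAlgebraic_zero)
  have hγ0 : γ ≠ 0 := by
    intro h0
    rw [h0, zero_pow ha.ne'] at hγ
    exact hh0 ((map_eq_zero (algebraMap K L)).1 hγ.symm)
  have hw0 : (σ cE) * γ ≠ 0 := mul_ne_zero ((map_ne_zero σ).2 hc0) hγ0
  obtain ⟨w, hw⟩ : ∃ w : Lˣ, (w : L) = σ cE * γ := ⟨Units.mk0 _ hw0, rfl⟩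
  have hwa : (w : L) ^ a = (σ : E →+* L) bE * algebraMap K L h := by
    rw [hw, mul_pow, hγ, ← map_pow, hcE]
    rfl
  -- lifting
  have hlift : ∀ P : (ℂ[T;T⁻¹])[X], P.Monic → (∀ i n, IsAlgebraic ℚ ((P.coeff i).coeff n)) →
      ∃ Q : (E[T;T⁻¹])[X], Q.map (AddMonoidAlgebra.mapRingHom ℤ ι) = P ∧ Q.natDegree = P.natDegree ∧ Q.Monic := by
    intro P hP hPa
    refine lifts_and_natDegree_eq_and_monic ?_ hP
    rw [lifts_iff_coeff_lifts]
    intro i
    refine ⟨∑ n ∈ (P.coeff i).coeff.support,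
      LaurentPolynomial.C (⟨(P.coeff i).coeff n, hmemE _ (hPa i n)⟩ : E) * LaurentPolynomial.T n, ?_⟩
    rw [map_sum]
    have h1 : ∀ n ∈ (P.coeff i).coeff.support, AddMonoidAlgebra.mapRingHom ℤ ι
        (LaurentPolynomial.C (⟨(P.coeff i).coeff n, hmemE _ (hPa i n)⟩ : E) * LaurentPolynomial.T n) =
        AddMonoidAlgebra.single n ((P.coeff i).coeff n) := by
      intro n _
      rw [map_mul, lowK_mu_C, lowK_mu_T, ← LaurentPolynomial.single_eq_C_mul_T]
      rfl
    rw [Finset.sum_congr rfl h1]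
    exact AddMonoidAlgebra.sum_coeff_single _
  obtain ⟨G2, hG2, hG2d, hG2m⟩ := hlift G1 hG1 hGa
  obtain ⟨H2, hH2, hH2d, hH2m⟩ := hlift H1 hH1 hHa
  have hμinj : Function.Injective (AddMonoidAlgebra.mapRingHom ℤ ι : E[T;T⁻¹] →+* ℂ[T;T⁻¹]) := by
    intro P Q hPQ
    refine LaurentPolynomial.ext fun n => hιinj ?_
    rw [← AddMonoidAlgebra.coeff_mapRingHom ι P n, ← AddMonoidAlgebra.coeff_mapRingHom ι Q n, hPQ]
  have hfac : (lowK_tw jE bE D f).map (lowK_sub a) = G2 * H2 := by
    apply Polynomial.map_injective _ hμinj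
    rw [Polynomial.map_mul, hG2, hH2, ← hGH, Polynomial.map_map, lowK_mu, ← Polynomial.map_map, lowK_tw_map, hιj]
    rfl
  have hroot := lowK_root jE (σ : E →+* L) hσ hbE D hm.root hwa
  rw [hfac, Polynomial.map_mul, eval_mul] at hroot
  have hsum : G2.natDegree + H2.natDegree ≤ f.natDegree := by
    rw [← hG2m.natDegree_mul hH2m, ← hfac]
    exact lowK_deg jE bE D f _
  have hdec : ∃ G : (E[T;T⁻¹])[X], G.Monic ∧ G.natDegree < f.natDegree ∧
      (G.map (LaurentPolynomial.eval₂ (σ : E →+* L) w)).eval ((D : L) * algebraMap K L θ) = 0 := by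
    rcases mul_eq_zero.1 hroot with h | h
    · exact ⟨G2, hG2m, by omega, h⟩
    · exact ⟨H2, hH2m, by omega, h⟩
  obtain ⟨G, hG, hGd, hGr⟩ := hdec
  have ha' : ((a : ℕ) : L) ≠ 0 := Nat.cast_ne_zero.2 ha.ne'
  have : NeZero ((a : ℕ) : L) := ⟨ha'⟩
  obtain ⟨ξ, hξ⟩ := HasEnoughRootsOfUnity.exists_primitiveRoot L a
  set S : Finset L := {ξ, σ cE} ∪ (Finset.range (G.natDegree + 1)).biUnion fun i =>
    (G.coeff i).coeff.support.image (fun n => (σ : E →+* L) ((G.coeff i).coeff n)) with hS
  have hSa : ∀ x ∈ S, IsAlgebraic k x := by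
    intro x hx
    rw [hS, Finset.mem_union, Finset.mem_insert, Finset.mem_singleton, Finset.mem_biUnion] at hx
    rcases hx with (rfl | rfl) | ⟨i, -, hx⟩
    · have h1 : IsAlgebraic k (x ^ a) := by
        rw [hξ.pow_eq_one]
        exact isAlgebraic_one
      exact h1.of_pow ha
    · exact (Algebra.IsAlgebraic.isAlgebraic (R := k) cE).algHom σ
    · rw [Finset.mem_image] at hx
      obtain ⟨n, -, rfl⟩ := hx
      exact (Algebra.IsAlgebraic.isAlgebraic (R := k) _).algHom σ
  obtain ⟨α, hα1, hα2, hα3⟩ := lowK_prim S hSa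
  have hD' : (D : L) ≠ 0 := Nat.cast_ne_zero.2 hD.ne'
  refine ⟨a, γ, α, ha, hγ, hα1, hα2, ⟨ξ, hα3 ξ ?_, hξ⟩,
    (G.map (LaurentPolynomial.eval₂ (σ : E →+* L) w)).scaleRoots ((D : L)⁻¹), ?_, ?_, ?_, ?_⟩
  · rw [hS]
    exact Finset.mem_union_left _ (Finset.mem_insert_self ξ _)
  · rw [monic_scaleRoots_iff]
    exact hG.map _
  · rw [natDegree_scaleRoots, hG.natDegree_map]
    exact hGd
  · intro i
    have hle : IntermediateField.adjoin k {α} ≤ IntermediateField.adjoin k {α, γ} :=
      IntermediateField.adjoin.mono k _ _ (by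
        rw [Set.singleton_subset_iff]
        exact Set.mem_insert α _)
    have hγm : γ ∈ IntermediateField.adjoin k {α, γ} :=
      IntermediateField.subset_adjoin k _ (Set.mem_insert_of_mem _ (Set.mem_singleton γ))
    have hcm : σ cE ∈ IntermediateField.adjoin k {α, γ} := by
      refine hle (hα3 _ ?_)
      rw [hS]
      exact Finset.mem_union_left _ (Finset.mem_insert_of_mem (Finset.mem_singleton_self _))
    have hwm : (w : L) ∈ IntermediateField.adjoin k {α, γ} := by
      rw [hw]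
      exact mul_mem hcm hγm
    rw [coeff_scaleRoots, coeff_map]
    refine mul_mem ?_ (pow_mem (inv_mem (natCast_mem _ D)) _)
    by_cases hi : i ≤ G.natDegree
    · have hir : i ∈ Finset.range (G.natDegree + 1) := Finset.mem_range.2 (by omega)
      refine lowK_mem _ _ _ _ hwm fun n hn => hle (hα3 _ ?_)
      rw [hS]
      exact Finset.mem_union_right _ (Finset.mem_biUnion.2 ⟨i, hir, Finset.mem_image.2 ⟨n, hn, rfl⟩⟩)
    · rw [coeff_eq_zero_of_natDegree_lt (by omega), map_zero]
      exact zero_mem _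
  · have h1 := scaleRoots_eval_mul (G.map (LaurentPolynomial.eval₂ (σ : E →+* L) w))
      ((D : L) * algebraMap K L θ) ((D : L)⁻¹)
    rw [inv_mul_cancel_left₀ hD', hGr, mul_zero] at h1
    exact h1

end Pool.Agent.CSG
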