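import Pool.Agent.CSG.Pqk

/-! MODULE CSG-MiA, a copy of ISI-MilA over a field of constants `k` (the two basic relations of Milnor's computation of `K₂(k(x)) ⊗ ℚ`).
Multiplicativity of `g ↦ {π, g}` modulo symbols of lower degree, and the symbol of two monic
polynomials of the same degree. -/

namespace Pool.Agent.CSG

open Pool.Agent.Helper11 Pool.Agent.ISI Polynomial

variable {k K : Type} [Field k] [CharZero k] [Field K] [CharZero K] [Algebra k K] {x : K}

theorem milk_hom (hx : Transcendental k x) {d : ℕ} (hd : 0 < d) {π g₁ g₂ g₃ : k[X]}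
    (hπ : π.Monic) (hπd : π.natDegree = d) (h1 : g₁ ≠ 0) (h2 : g₂ ≠ 0) (h3 : g₃ ≠ 0)
    (hd1 : g₁.natDegree < d) (hd2 : g₂.natDegree < d) (hd3 : g₃.natDegree < d)
    (hdvd : π ∣ g₁ * g₂ - g₃) :
    sy (pqk x π) (pqk x g₁) + sy (pqk x π) (pqk x g₂) - sy (pqk x π) (pqk x g₃) ∈ LPdk k x (d - 1) := by
  obtain ⟨q, hq⟩ := hdvd
  have hπ0 : π ≠ 0 := hπ.ne_zero
  by_cases hq0 : q = 0
  · have h4 : g₁ * g₂ = g₃ := by
      rw [hq0, mul_zero] at hq
      exact sub_eq_zero.1 hq
    rw [← sy_mul_right, ← pqk_mul hx h1 h2, h4, sub_self]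
    exact Submodule.zero_mem _
  have hqd : q.natDegree ≤ d - 1 := by
    have h5 : (π * q).natDegree = d + q.natDegree := by
      rw [natDegree_mul hπ0 hq0, hπd]
    have h6 : (g₁ * g₂ - g₃).natDegree ≤ (d - 1) + (d - 1) := by
      refine (natDegree_sub_le _ _).trans (max_le ?_ (by omega))
      refine natDegree_mul_le.trans (by omega)
    rw [hq, h5] at h6
    omega
  have hmem : ∀ f g : k[X], f ≠ 0 → g ≠ 0 → f.natDegree ≤ d - 1 → g.natDegree ≤ d - 1 →
      sy (pqk x f) (pqk x g) ∈ LPdk k x (d - 1) := fun f g hf hg hfd hgd =>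
    Submodule.subset_span ⟨f, g, hf, hg, hfd, hgd, rfl⟩
  have hst : sy (pqk x q * pqk x π / (pqk x g₁ * pqk x g₂)) (pqk x g₃ / (pqk x g₁ * pqk x g₂)) = 0 := by
    refine sy_steinberg ?_
    have e1 : aeval x g₁ ≠ 0 := aeval_nek hx h1
    have e2 : aeval x g₂ ≠ 0 := aeval_nek hx h2
    have e3 : aeval x q * aeval x π + aeval x g₃ = aeval x g₁ * aeval x g₂ := by
      have := congrArg (aeval x) hq
      rw [map_sub, map_mul, map_mul] at this
      linear_combination -this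
    rw [Units.val_div_eq_div_val, Units.val_div_eq_div_val, Units.val_mul, Units.val_mul,
      pqk_val hx hq0, pqk_val hx hπ0, pqk_val hx h1, pqk_val hx h2, pqk_val hx h3, ← add_div, e3,
      div_self (mul_ne_zero e1 e2)]
  have key : ∀ f : k[X], f ≠ 0 → f.natDegree ≤ d - 1 →
      sy (pqk x f) (pqk x g₃ / (pqk x g₁ * pqk x g₂)) ∈ LPdk k x (d - 1) := by
    intro f hf hfd
    rw [sy_div_right, sy_mul_right]
    exact Submodule.sub_mem _ (hmem f g₃ hf h3 hfd (by omega))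
      (Submodule.add_mem _ (hmem f g₁ hf h1 hfd (by omega)) (hmem f g₂ hf h2 hfd (by omega)))
  have hexp : sy (pqk x π) (pqk x g₁) + sy (pqk x π) (pqk x g₂) - sy (pqk x π) (pqk x g₃) =
      sy (pqk x q) (pqk x g₃ / (pqk x g₁ * pqk x g₂)) -
        (sy (pqk x g₁) (pqk x g₃ / (pqk x g₁ * pqk x g₂)) +
          sy (pqk x g₂) (pqk x g₃ / (pqk x g₁ * pqk x g₂))) := by
    have h7 : sy (pqk x π) (pqk x g₃ / (pqk x g₁ * pqk x g₂)) =
        sy (pqk x π) (pqk x g₃) - (sy (pqk x π) (pqk x g₁) + sy (pqk x π) (pqk x g₂)) := by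
      rw [sy_div_right, sy_mul_right]
    rw [sy_div_left, sy_mul_left, sy_mul_left, h7] at hst
    rw [eq_comm, ← sub_eq_zero, ← hst]
    abel
  rw [hexp]
  exact Submodule.sub_mem _ (key q hq0 hqd)
    (Submodule.add_mem _ (key g₁ h1 (by omega)) (key g₂ h2 (by omega)))

theorem milk_two (hx : Transcendental k x) {d : ℕ} (hd : 0 < d) {π π' : k[X]}
    (hπ : π.Monic) (hπ' : π'.Monic) (hπd : π.natDegree = d) (hπd' : π'.natDegree = d)
    (hne : π ≠ π') :
    π - π' ≠ 0 ∧ (π - π').natDegree < d ∧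
      sy (pqk x π') (pqk x π) = sy (pqk x π') (pqk x (π - π')) - sy (pqk x π) (pqk x (π - π')) := by
  have hr : π - π' ≠ 0 := sub_ne_zero.2 hne
  have hπ0 : π ≠ 0 := hπ.ne_zero
  have hπ0' : π' ≠ 0 := hπ'.ne_zero
  refine ⟨hr, ?_, ?_⟩
  · have h1 : (π - π').degree < π.degree := by
      refine degree_sub_lt ?_ hπ0 ?_
      · rw [degree_eq_natDegree hπ0, degree_eq_natDegree hπ0', hπd, hπd']
      · rw [hπ.leadingCoeff, hπ'.leadingCoeff]
    rw [← hπd]
    exact natDegree_lt_natDegree hr h1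
  · have hst : sy (pqk x π' / pqk x π) (pqk x (π - π') / pqk x π) = 0 := by
      refine sy_steinberg ?_
      have e1 : aeval x π ≠ 0 := aeval_nek hx hπ0
      rw [Units.val_div_eq_div_val, Units.val_div_eq_div_val, pqk_val hx hπ0, pqk_val hx hπ0',
        pqk_val hx hr, ← add_div, map_sub, add_sub_cancel, div_self e1]
    rw [sy_div_left, sy_div_right, sy_div_right, sy_self] at hst
    rw [← sub_eq_zero, ← neg_eq_zero, ← hst]
    abel

end Pool.Agent.CSG
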