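import Pool.Agent.CSG.MiA

/-! MODULE CSG-MiB, a copy of ISI-MilB over a field of constants `k` (normal form modulo lower degree in Milnor's computation).

PROOF. Let `NF` be the set of `z` with the stated property. (1) `NF` is a `ℚ`-subspace containing
`LPdk k x (d - 1)`: for sums take `M M'`, the union of the index sets (put `g π = 1` outside, `1 ≠ 0`,
degree 0 < d), and combine `a {π, g} + b {π, g'}`, `a, b` integers, into one symbol modulo
`LPdk k x (d-1)`: by `milk_hom` the map `g ↦ {π, g}` (`g ≠ 0`, `deg g < d`) is multiplicative modulo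
`LPdk k x (d-1)` in the sense that for `g₁, g₂` there is `g₃` (`g₃ = g₁ g₂ % π`, non zero because `π`
is irreducible and prime to `g₁`, `g₂`), and every `g` has an inverse modulo `π`
(`g h ≡ 1`, `h` of degree < d: Bezout, `{π,g} + {π,h} - {π,1} ∈ LPd`, `{π,1} = 0`).
For rational scalars multiply by the denominator.
(2) `{π, g} ∈ NF` for `π` monic irreducible of degree `d` and `g ≠ 0`, `deg g < d`.
(3) A polynomial `p ≠ 0` of degree ≤ d is either `C a * π` with `π` monic irreducible of degree `d`,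
or a product of two non zero polynomials of degree < d, or of degree < d itself (write
`p = C (lc p) * (monic)`; if the monic polynomial `m` of degree `d ≥ 1` is not irreducible then
`m = m₁ m₂` with `0 < deg m_i < d`: `Polynomial.Monic.not_irreducible_iff_exists_add_mul_eq_coeff`-like
or `irreducible_iff` by hand).
(4) Expand `{p, q}` bilinearly with (3): one gets symbols of two polynomials of degree < d
(in `LPdk k x (d-1)`), `± {π, g}` with `deg g < d` (`sy_anti`), `{π, π} = 0` and `{π', π}` with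
`π ≠ π'`, which is `{π', r} - {π, r}` by `milk_two`. All are in `NF`. -/

namespace Pool.Agent.CSG

open Pool.Agent.Helper11 Pool.Agent.ISI Polynomial

variable {k K : Type} [Field k] [CharZero k] [Field K] [CharZero K] [Algebra k K] {x : K}

private lemma mibk_pq_one : pqk x (1 : k[X]) = 1 := by
  have h : aeval x (1 : k[X]) ≠ 0 := by
    rw [map_one]
    exact one_ne_zero
  apply Units.ext
  unfold pqk
  rw [dif_pos h, Units.val_mk0, map_one, Units.val_one]

private lemma mibk_mem {d : ℕ} {p q : k[X]} (hp : p ≠ 0) (hq : q ≠ 0) (hdp : p.natDegree ≤ d)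
    (hdq : q.natDegree ≤ d) : sy (pqk x p) (pqk x q) ∈ LPdk k x d :=
  Submodule.subset_span ⟨p, q, hp, hq, hdp, hdq, rfl⟩

private lemma mibk_not_dvd {d : ℕ} {π g : k[X]} (hπd : π.natDegree = d) (hg : g ≠ 0)
    (hgd : g.natDegree < d) : ¬ π ∣ g := by
  intro h
  have := Polynomial.natDegree_le_of_dvd h hg
  omega

/-- the classes of `{π, g}` modulo lower degree -/
private noncomputable def mibkS (hx : Transcendental k x) {d : ℕ} (hd : 0 < d) {π : k[X]}
    (hπ : π.Monic) (hirr : Irreducible π) (hπd : π.natDegree = d) : AddSubgroup (KMQ K 2) where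
  carrier := {v | ∃ g : k[X], g ≠ 0 ∧ g.natDegree < d ∧ v - sy (pqk x π) (pqk x g) ∈ LPdk k x (d - 1)}
  zero_mem' := by
    refine ⟨1, one_ne_zero, by rw [natDegree_one]; exact hd, ?_⟩
    rw [mibk_pq_one, sy_one_right, sub_zero]
    exact Submodule.zero_mem _
  add_mem' := by
    rintro v₁ v₂ ⟨g₁, h1, hd1, hm1⟩ ⟨g₂, h2, hd2, hm2⟩
    have hπ1 : π ≠ 1 := by
      intro h
      rw [h, natDegree_one] at hπd
      omega
    have h3 : (g₁ * g₂) %ₘ π ≠ 0 := by
      intro h
      have h4 : π ∣ g₁ * g₂ := (Polynomial.modByMonic_eq_zero_iff_dvd hπ).1 h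
      rcases hirr.prime.dvd_or_dvd h4 with h5 | h5
      · exact mibk_not_dvd hπd h1 hd1 h5
      · exact mibk_not_dvd hπd h2 hd2 h5
    have hd3 : ((g₁ * g₂) %ₘ π).natDegree < d := by
      rw [← hπd]
      exact Polynomial.natDegree_modByMonic_lt _ hπ hπ1
    have hdvd : π ∣ g₁ * g₂ - (g₁ * g₂) %ₘ π := by
      refine ⟨(g₁ * g₂) /ₘ π, ?_⟩
      have h6 := Polynomial.modByMonic_add_div (g₁ * g₂) π
      linear_combination h6.symm
    refine ⟨_, h3, hd3, ?_⟩
    have h7 := milk_hom hx hd hπ hπd h1 h2 h3 hd1 hd2 hd3 hdvd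
    have h8 : v₁ + v₂ - sy (pqk x π) (pqk x ((g₁ * g₂) %ₘ π)) =
        (v₁ - sy (pqk x π) (pqk x g₁)) + (v₂ - sy (pqk x π) (pqk x g₂)) +
        (sy (pqk x π) (pqk x g₁) + sy (pqk x π) (pqk x g₂) -
          sy (pqk x π) (pqk x ((g₁ * g₂) %ₘ π))) := by abel
    rw [h8]
    exact Submodule.add_mem _ (Submodule.add_mem _ hm1 hm2) h7
  neg_mem' := by
    rintro v ⟨g, hg, hgd, hm⟩
    have hπ1 : π ≠ 1 := by
      intro h
      rw [h, natDegree_one] at hπd
      omega
    have hcop : IsCoprime π g := (hirr.coprime_iff_not_dvd).2 (mibk_not_dvd hπd hg hgd)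
    obtain ⟨a, b, hab⟩ := hcop
    have hdvd : π ∣ g * (b %ₘ π) - 1 := by
      have h6 := Polynomial.modByMonic_add_div b π
      refine ⟨-(a + g * (b /ₘ π)), ?_⟩
      linear_combination g * h6 + hab
    have h3 : b %ₘ π ≠ 0 := by
      intro h
      rw [h, mul_zero, zero_sub, dvd_neg] at hdvd
      exact hirr.not_isUnit (isUnit_of_dvd_one hdvd)
    have hd3 : (b %ₘ π).natDegree < d := by
      rw [← hπd]
      exact Polynomial.natDegree_modByMonic_lt _ hπ hπ1
    refine ⟨_, h3, hd3, ?_⟩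
    have h7 := milk_hom hx hd hπ hπd hg h3 one_ne_zero hgd hd3
      (by rw [natDegree_one]; exact hd) hdvd
    rw [mibk_pq_one, sy_one_right, sub_zero] at h7
    have h8 : -v - sy (pqk x π) (pqk x (b %ₘ π)) =
        -(v - sy (pqk x π) (pqk x g)) -
        (sy (pqk x π) (pqk x g) + sy (pqk x π) (pqk x (b %ₘ π))) := by abel
    rw [h8]
    exact Submodule.sub_mem _ (Submodule.neg_mem _ hm) h7

/-- the group generated by the symbols `{π, g}` and `LPdk k x (d - 1)` -/
private noncomputable def mibkT (k : Type) {K : Type} [Field k] [Field K] [Algebra k K] (x : K) (d : ℕ) : AddSubgroup (KMQ K 2) :=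
  AddSubgroup.closure ({v | ∃ π g : k[X], π.Monic ∧ Irreducible π ∧ π.natDegree = d ∧ g ≠ 0 ∧
    g.natDegree < d ∧ v = sy (pqk x π) (pqk x g)} ∪ {v | v ∈ LPdk k x (d - 1)})

private lemma mibk_form (hx : Transcendental k x) {d : ℕ} (hd : 0 < d) {z : KMQ K 2}
    (hz : z ∈ mibkT k x d) :
    ∃ (P : Finset k[X]) (g : k[X] → k[X]),
      (∀ π ∈ P, π.Monic ∧ Irreducible π ∧ π.natDegree = d ∧ g π ≠ 0 ∧ (g π).natDegree < d) ∧
      z - ∑ π ∈ P, sy (pqk x π) (pqk x (g π)) ∈ LPdk k x (d - 1) := by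
  classical
  unfold mibkT at hz
  induction hz using AddSubgroup.closure_induction with
  | mem v hv =>
    rcases hv with ⟨π, g, hπ, hirr, hπd, hg, hgd, rfl⟩ | hv
    · refine ⟨{π}, fun _ => g, ?_, ?_⟩
      · intro π' hπ'
        rw [Finset.mem_singleton] at hπ'
        subst hπ'
        exact ⟨hπ, hirr, hπd, hg, hgd⟩
      · rw [Finset.sum_singleton, sub_self]
        exact Submodule.zero_mem _
    · refine ⟨∅, fun _ => 1, ?_, ?_⟩
      · intro π' hπ'
        exact absurd hπ' (Finset.notMem_empty _)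
      · rw [Finset.sum_empty, sub_zero]
        exact hv
  | zero =>
    refine ⟨∅, fun _ => 1, ?_, ?_⟩
    · intro π' hπ'
      exact absurd hπ' (Finset.notMem_empty _)
    · rw [Finset.sum_empty, sub_zero]
      exact Submodule.zero_mem _
  | add z₁ z₂ _ _ ih1 ih2 =>
    obtain ⟨P₁, g₁, hP1, hm1⟩ := ih1
    obtain ⟨P₂, g₂, hP2, hm2⟩ := ih2
    have hex : ∀ π ∈ P₁ ∪ P₂, ∃ g : k[X], g ≠ 0 ∧ g.natDegree < d ∧
        ((if π ∈ P₁ then sy (pqk x π) (pqk x (g₁ π)) else 0) +
          (if π ∈ P₂ then sy (pqk x π) (pqk x (g₂ π)) else 0)) - sy (pqk x π) (pqk x g)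
          ∈ LPdk k x (d - 1) := by
      intro π hπ
      have hgood : π.Monic ∧ Irreducible π ∧ π.natDegree = d := by
        rcases Finset.mem_union.1 hπ with h | h
        · exact ⟨(hP1 π h).1, (hP1 π h).2.1, (hP1 π h).2.2.1⟩
        · exact ⟨(hP2 π h).1, (hP2 π h).2.1, (hP2 π h).2.2.1⟩
      have hmem : ((if π ∈ P₁ then sy (pqk x π) (pqk x (g₁ π)) else 0) +
          (if π ∈ P₂ then sy (pqk x π) (pqk x (g₂ π)) else 0)) ∈
          mibkS hx hd hgood.1 hgood.2.1 hgood.2.2 := by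
        refine AddSubgroup.add_mem _ ?_ ?_
        · split_ifs with h
          · exact ⟨g₁ π, (hP1 π h).2.2.2.1, (hP1 π h).2.2.2.2, by
              rw [sub_self]; exact Submodule.zero_mem _⟩
          · exact AddSubgroup.zero_mem _
        · split_ifs with h
          · exact ⟨g₂ π, (hP2 π h).2.2.2.1, (hP2 π h).2.2.2.2, by
              rw [sub_self]; exact Submodule.zero_mem _⟩
          · exact AddSubgroup.zero_mem _
      exact hmem
    choose! g hg using hex
    refine ⟨P₁ ∪ P₂, g, ?_, ?_⟩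
    · intro π hπ
      have hgood : π.Monic ∧ Irreducible π ∧ π.natDegree = d := by
        rcases Finset.mem_union.1 hπ with h | h
        · exact ⟨(hP1 π h).1, (hP1 π h).2.1, (hP1 π h).2.2.1⟩
        · exact ⟨(hP2 π h).1, (hP2 π h).2.1, (hP2 π h).2.2.1⟩
      exact ⟨hgood.1, hgood.2.1, hgood.2.2, (hg π hπ).1, (hg π hπ).2.1⟩
    · have hs1 : ∑ π ∈ P₁ ∪ P₂, (if π ∈ P₁ then sy (pqk x π) (pqk x (g₁ π)) else 0) =
          ∑ π ∈ P₁, sy (pqk x π) (pqk x (g₁ π)) := by
        rw [← Finset.sum_filter]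
        refine Finset.sum_congr ?_ fun _ _ => rfl
        ext π
        simp only [Finset.mem_filter, Finset.mem_union]
        tauto
      have hs2 : ∑ π ∈ P₁ ∪ P₂, (if π ∈ P₂ then sy (pqk x π) (pqk x (g₂ π)) else 0) =
          ∑ π ∈ P₂, sy (pqk x π) (pqk x (g₂ π)) := by
        rw [← Finset.sum_filter]
        refine Finset.sum_congr ?_ fun _ _ => rfl
        ext π
        simp only [Finset.mem_filter, Finset.mem_union]
        tauto
      have hs : z₁ + z₂ - ∑ π ∈ P₁ ∪ P₂, sy (pqk x π) (pqk x (g π)) =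
          (z₁ - ∑ π ∈ P₁, sy (pqk x π) (pqk x (g₁ π))) +
          (z₂ - ∑ π ∈ P₂, sy (pqk x π) (pqk x (g₂ π))) +
          ∑ π ∈ P₁ ∪ P₂, (((if π ∈ P₁ then sy (pqk x π) (pqk x (g₁ π)) else 0) +
          (if π ∈ P₂ then sy (pqk x π) (pqk x (g₂ π)) else 0)) - sy (pqk x π) (pqk x (g π))) := by
        rw [Finset.sum_sub_distrib, Finset.sum_add_distrib, hs1, hs2]
        abel
      rw [hs]
      exact Submodule.add_mem _ (Submodule.add_mem _ hm1 hm2)
        (Submodule.sum_mem _ fun π hπ => (hg π hπ).2.2)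
  | neg z₁ _ ih =>
    obtain ⟨P₁, g₁, hP1, hm1⟩ := ih
    have hex : ∀ π ∈ P₁, ∃ g : k[X], g ≠ 0 ∧ g.natDegree < d ∧
        (-sy (pqk x π) (pqk x (g₁ π))) - sy (pqk x π) (pqk x g) ∈ LPdk k x (d - 1) := by
      intro π hπ
      have hgood := hP1 π hπ
      have hmem : (-sy (pqk x π) (pqk x (g₁ π))) ∈
          mibkS hx hd hgood.1 hgood.2.1 hgood.2.2.1 := by
        refine AddSubgroup.neg_mem _ ?_
        exact ⟨g₁ π, hgood.2.2.2.1, hgood.2.2.2.2, by
          rw [sub_self]; exact Submodule.zero_mem _⟩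
      exact hmem
    choose! g hg using hex
    refine ⟨P₁, g, ?_, ?_⟩
    · intro π hπ
      have hgood := hP1 π hπ
      exact ⟨hgood.1, hgood.2.1, hgood.2.2.1, (hg π hπ).1, (hg π hπ).2.1⟩
    · have hs : -z₁ - ∑ π ∈ P₁, sy (pqk x π) (pqk x (g π)) =
          -(z₁ - ∑ π ∈ P₁, sy (pqk x π) (pqk x (g₁ π))) +
          ∑ π ∈ P₁, ((-sy (pqk x π) (pqk x (g₁ π))) - sy (pqk x π) (pqk x (g π))) := by
        rw [Finset.sum_sub_distrib, Finset.sum_neg_distrib]
        abel
      rw [hs]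
      exact Submodule.add_mem _ (Submodule.neg_mem _ hm1)
        (Submodule.sum_mem _ fun π hπ => (hg π hπ).2.2)

private noncomputable def mibkE (k : Type) {K : Type} [Field k] [Field K] [Algebra k K] (x : K) (d : ℕ) : Set Kˣ :=
  {u | ∃ g : k[X], g ≠ 0 ∧ g.natDegree < d ∧ u = pqk x g} ∪
  {u | ∃ π : k[X], π.Monic ∧ Irreducible π ∧ π.natDegree = d ∧ u = pqk x π}

private lemma mibk_gen (hx : Transcendental k x) {d : ℕ} (hd : 0 < d) {p : k[X]} (hp : p ≠ 0)
    (hpd : p.natDegree ≤ d) : pqk x p ∈ Subgroup.closure (mibkE k x d) := by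
  rcases Nat.lt_or_ge p.natDegree d with h | h
  · exact Subgroup.subset_closure (Or.inl ⟨p, hp, h, rfl⟩)
  · have hpd' : p.natDegree = d := le_antisymm hpd h
    have hlc : p.leadingCoeff ≠ 0 := leadingCoeff_ne_zero.2 hp
    set m : k[X] := C (p.leadingCoeff⁻¹) * p with hm
    have hmm : m.Monic := by
      rw [Monic, hm, leadingCoeff_mul, leadingCoeff_C, inv_mul_cancel₀ hlc]
    have hmd : m.natDegree = d := by
      rw [hm, natDegree_C_mul (inv_ne_zero hlc), hpd']
    have hpm : p = C p.leadingCoeff * m := by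
      rw [hm, ← mul_assoc, ← C_mul, mul_inv_cancel₀ hlc, C_1, one_mul]
    have hC : C p.leadingCoeff ≠ 0 := C_ne_zero.2 hlc
    rw [hpm, pqk_mul hx hC hmm.ne_zero]
    refine Subgroup.mul_mem _ (Subgroup.subset_closure (Or.inl ⟨_, hC, ?_, rfl⟩)) ?_
    · rw [natDegree_C]
      exact hd
    · by_cases hirr : Irreducible m
      · exact Subgroup.subset_closure (Or.inr ⟨m, hmm, hirr, hmd, rfl⟩)
      · have hm1 : m ≠ 1 := by
          intro h1
          rw [h1, natDegree_one] at hmd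
          omega
        rw [hmm.irreducible_iff_natDegree] at hirr
        push Not at hirr
        obtain ⟨f, g, hf, hg, hfg, hf0, hg0⟩ := hirr hm1
        have hsum : f.natDegree + g.natDegree = d := by
          rw [← hmd, ← hfg, hf.natDegree_mul hg]
        rw [← hfg, pqk_mul hx hf.ne_zero hg.ne_zero]
        refine Subgroup.mul_mem _ (Subgroup.subset_closure (Or.inl ⟨f, hf.ne_zero, ?_, rfl⟩))
          (Subgroup.subset_closure (Or.inl ⟨g, hg.ne_zero, ?_, rfl⟩))
        · omega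
        · omega

private lemma mibk_sy (hx : Transcendental k x) {d : ℕ} (hd : 0 < d) {u v : Kˣ}
    (hu : u ∈ Subgroup.closure (mibkE k x d)) (hv : v ∈ Subgroup.closure (mibkE k x d)) :
    sy u v ∈ mibkT k x d := by
  have hgenm : ∀ {π g : k[X]}, π.Monic → Irreducible π → π.natDegree = d → g ≠ 0 →
      g.natDegree < d → sy (pqk x π) (pqk x g) ∈ mibkT k x d := fun h1 h2 h3 h4 h5 =>
    AddSubgroup.subset_closure (Or.inl ⟨_, _, h1, h2, h3, h4, h5, rfl⟩)
  have hlow : ∀ {v : KMQ K 2}, v ∈ LPdk k x (d - 1) → v ∈ mibkT k x d := fun h =>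
    AddSubgroup.subset_closure (Or.inr h)
  have hbase : ∀ u ∈ mibkE k x d, ∀ v ∈ mibkE k x d, sy u v ∈ mibkT k x d := by
    rintro u (⟨g, hg, hgd, rfl⟩ | ⟨π, hπ, hirr, hπd, rfl⟩) v
      (⟨g', hg', hgd', rfl⟩ | ⟨π', hπ', hirr', hπd', rfl⟩)
    · exact hlow (mibk_mem hg hg' (by omega) (by omega))
    · rw [sy_anti]
      exact AddSubgroup.neg_mem _ (hgenm hπ' hirr' hπd' hg hgd)
    · exact hgenm hπ hirr hπd hg' hgd'
    · by_cases hne : π' = π
      · subst hne
        rw [sy_self]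
        exact AddSubgroup.zero_mem _
      · obtain ⟨hr0, hrd, hr⟩ := milk_two hx hd hπ' hπ hπd' hπd hne
        rw [hr]
        exact AddSubgroup.sub_mem _ (hgenm hπ hirr hπd hr0 hrd) (hgenm hπ' hirr' hπd' hr0 hrd)
  have hstep : ∀ u ∈ mibkE k x d, ∀ v ∈ Subgroup.closure (mibkE k x d), sy u v ∈ mibkT k x d := by
    intro u hu v hv
    induction hv using Subgroup.closure_induction with
    | mem v hv => exact hbase u hu v hv
    | one =>
      rw [sy_one_right]
      exact AddSubgroup.zero_mem _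
    | mul a b _ _ ha hb =>
      rw [sy_mul_right]
      exact AddSubgroup.add_mem _ ha hb
    | inv a _ ha =>
      rw [sy_inv_right]
      exact AddSubgroup.neg_mem _ ha
  induction hu using Subgroup.closure_induction with
  | mem u hu => exact hstep u hu v hv
  | one =>
    rw [sy_anti, sy_one_right, neg_zero]
    exact AddSubgroup.zero_mem _
  | mul a b _ _ ha hb =>
    rw [sy_mul_left]
    exact AddSubgroup.add_mem _ ha hb
  | inv a _ ha =>
    rw [sy_anti, sy_inv_right, neg_neg, sy_anti]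
    exact AddSubgroup.neg_mem _ ha

private lemma mibk_mul (hx : Transcendental k x) {d : ℕ} (hd : 0 < d) {z : KMQ K 2}
    (hz : z ∈ LPdk k x d) : ∃ M : ℕ, M ≠ 0 ∧ (M : ℚ) • z ∈ mibkT k x d := by
  have hnat : ∀ (n : ℕ) {v : KMQ K 2}, v ∈ mibkT k x d → (n : ℚ) • v ∈ mibkT k x d := by
    intro n v hv
    rw [Nat.cast_smul_eq_nsmul]
    exact AddSubgroup.nsmul_mem _ hv n
  have hint : ∀ (n : ℤ) {v : KMQ K 2}, v ∈ mibkT k x d → (n : ℚ) • v ∈ mibkT k x d := by
    intro n v hv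
    rw [Int.cast_smul_eq_zsmul]
    exact AddSubgroup.zsmul_mem _ hv n
  unfold LPdk at hz
  induction hz using Submodule.span_induction with
  | mem v hv =>
    obtain ⟨p, q, hp, hq, hpd, hqd, rfl⟩ := hv
    refine ⟨1, one_ne_zero, ?_⟩
    rw [Nat.cast_one, one_smul]
    exact mibk_sy hx hd (mibk_gen hx hd hp hpd) (mibk_gen hx hd hq hqd)
  | zero =>
    refine ⟨1, one_ne_zero, ?_⟩
    rw [smul_zero]
    exact AddSubgroup.zero_mem _
  | add v w _ _ h1 h2 =>
    obtain ⟨M, hM, h1⟩ := h1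
    obtain ⟨M', hM', h2⟩ := h2
    refine ⟨M * M', Nat.mul_ne_zero hM hM', ?_⟩
    have e1 : ((M * M' : ℕ) : ℚ) • (v + w) =
        (M' : ℚ) • ((M : ℚ) • v) + (M : ℚ) • ((M' : ℚ) • w) := by
      rw [smul_smul, smul_smul, smul_add]
      push_cast
      rw [mul_comm (M' : ℚ) (M : ℚ)]
    rw [e1]
    exact AddSubgroup.add_mem _ (hnat _ h1) (hnat _ h2)
  | smul r v _ h1 =>
    obtain ⟨M, hM, h1⟩ := h1
    refine ⟨r.den * M, Nat.mul_ne_zero r.den_nz hM, ?_⟩
    have e1 : ((r.den * M : ℕ) : ℚ) • (r • v) = (r.num : ℚ) • ((M : ℚ) • v) := by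
      rw [smul_smul, smul_smul]
      congr 1
      push_cast
      have h2 := Rat.den_mul_eq_num r
      calc (r.den : ℚ) * M * r = ((r.den : ℚ) * r) * M := by ring
        _ = r.num * M := by rw [h2]
    rw [e1]
    exact hint _ h1

theorem milk_normal (hx : Transcendental k x) {d : ℕ} (hd : 0 < d) {z : KMQ K 2}
    (hz : z ∈ LPdk k x d) :
    ∃ (M : ℕ) (P : Finset k[X]) (g : k[X] → k[X]), M ≠ 0 ∧
      (∀ π ∈ P, π.Monic ∧ Irreducible π ∧ π.natDegree = d ∧ g π ≠ 0 ∧ (g π).natDegree < d) ∧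
      (M : ℚ) • z - ∑ π ∈ P, sy (pqk x π) (pqk x (g π)) ∈ LPdk k x (d - 1) := by
  obtain ⟨M, hM, hMz⟩ := mibk_mul hx hd hz
  obtain ⟨P, g, hP, hm⟩ := mibk_form hx hd hMz
  exact ⟨M, P, g, hM, hP, hm⟩

end Pool.Agent.CSG
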