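import Pool.Agent.CSG.MiB
import Pool.Agent.ISI.TamB

/-! MODULE CSG-MiC, a copy of ISI-MilC over a field of constants `k` (Milnor's theorem: elements of `K₂(ℚ(x)) ⊗ ℚ` with few tame symbols). -/

namespace Pool.Agent.CSG

open Pool.Agent.Helper11 Pool.Agent.ISI Polynomial

variable {k K : Type} [Field k] [CharZero k] [Field K] [CharZero K] [Algebra k K] {x : K}

private lemma mick_mem (O : ValuationSubring K) (hQ : ∀ r : k, algebraMap k K r ∈ O) (hxO : x ∈ O)
    (p : k[X]) : aeval x p ∈ O := by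
  rw [aeval_eq_sum_range]
  refine O.toSubring.sum_mem fun i _ => ?_
  rw [Algebra.smul_def]
  exact O.mul_mem _ _ (hQ _) (O.toSubring.pow_mem hxO i)

private lemma mick_unit (O : ValuationSubring K) (hQ : ∀ r : k, algebraMap k K r ∈ O) (hxO : x ∈ O)
    {π : k[X]} (hirr : Irreducible π) (hπ : O.valuation (aeval x π) < 1) {p : k[X]}
    (hp : ¬ π ∣ p) : O.valuation (aeval x p) = 1 := by
  have hle : ∀ q : k[X], O.valuation (aeval x q) ≤ 1 := fun q =>
    (O.valuation_le_one_iff _).2 (mick_mem O hQ hxO q)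
  refine le_antisymm (hle p) ?_
  by_contra hcon
  push Not at hcon
  obtain ⟨a, b, hab⟩ := (hirr.coprime_iff_not_dvd.2 hp)
  have h1 : aeval x a * aeval x π + aeval x b * aeval x p = 1 := by
    rw [← map_mul, ← map_mul, ← map_add, hab, map_one]
  have h2 : O.valuation (aeval x a * aeval x π + aeval x b * aeval x p) < 1 := by
    apply Valuation.map_add_lt
    · rw [map_mul]
      exact mul_lt_one_of_nonneg_of_lt_one_right (hle a) zero_le hπ
    · rw [map_mul]
      exact mul_lt_one_of_nonneg_of_lt_one_right (hle b) zero_le hcon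
  rw [h1, map_one] at h2
  exact lt_irrefl _ h2

private lemma mick_ndvd {π p : k[X]} (hp : p ≠ 0) (h : p.natDegree < π.natDegree) : ¬ π ∣ p :=
  fun hd => absurd (natDegree_le_of_dvd hd hp) (not_le.2 h)

private lemma mick_pow (hx : Transcendental k x) {d : ℕ} (hd : 0 < d) {π g : k[X]}
    (hπ : π.Monic) (hirr : Irreducible π) (hπd : π.natDegree = d) (hg : g ≠ 0)
    (hgd : g.natDegree < d) (m : ℕ) :
    ∃ r : k[X], r ≠ 0 ∧ r.natDegree < d ∧ π ∣ g ^ m - r ∧
      (m : ℚ) • sy (pqk x π) (pqk x g) - sy (pqk x π) (pqk x r) ∈ LPdk k x (d - 1) := by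
  induction m with
  | zero =>
    refine ⟨1, one_ne_zero, by rw [natDegree_one]; exact hd, by rw [pow_zero, sub_self]; exact dvd_zero π, ?_⟩
    have h1 : pqk x (1 : k[X]) = 1 := by
      apply Units.ext
      rw [pqk_val hx one_ne_zero, map_one, Units.val_one]
    rw [h1, sy_one_right, Nat.cast_zero, zero_smul, sub_zero]
    exact Submodule.zero_mem _
  | succ m ih =>
    obtain ⟨r, hr0, hrd, hrdvd, hr⟩ := ih
    have hπ1 : π ≠ 1 := by
      rintro rfl
      rw [natDegree_one] at hπd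
      omega
    obtain ⟨s, hs⟩ : ∃ s, s = (r * g) %ₘ π := ⟨_, rfl⟩
    have hsdvd : π ∣ r * g - s := by
      rw [hs, modByMonic_eq_sub_mul_div _ π]
      refine ⟨(r * g) /ₘ π, by ring⟩
    have hsd : s.natDegree < d := by
      rw [hs, ← hπd]
      exact natDegree_modByMonic_lt _ hπ hπ1
    have hs0 : s ≠ 0 := by
      intro h0
      rw [h0, sub_zero] at hsdvd
      rcases hirr.prime.dvd_or_dvd hsdvd with h | h
      · exact mick_ndvd hr0 (by rw [hπd]; exact hrd) h
      · exact mick_ndvd hg (by rw [hπd]; exact hgd) h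
    refine ⟨s, hs0, hsd, ?_, ?_⟩
    · have h1 : g ^ (m + 1) - s = (g ^ m - r) * g + (r * g - s) := by ring
      rw [h1]
      exact dvd_add (hrdvd.mul_right g) hsdvd
    · have h1 := milk_hom hx hd hπ hπd hr0 hg hs0 hrd hgd hsd hsdvd
      have h2 : ((m + 1 : ℕ) : ℚ) • sy (pqk x π) (pqk x g) - sy (pqk x π) (pqk x s) =
          ((m : ℚ) • sy (pqk x π) (pqk x g) - sy (pqk x π) (pqk x r)) +
          (sy (pqk x π) (pqk x r) + sy (pqk x π) (pqk x g) - sy (pqk x π) (pqk x s)) := by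
        rw [Nat.cast_succ, add_smul, one_smul]
        abel
      rw [h2]
      exact Submodule.add_mem _ hr h1

omit [CharZero K] in
private lemma mick_mem_of_smul {W : Submodule ℚ (KMQ K 2)} {m : ℕ} (hm : m ≠ 0) {z : KMQ K 2}
    (h : (m : ℚ) • z ∈ W) : z ∈ W := by
  have h1 := W.smul_mem ((m : ℚ)⁻¹) h
  rwa [smul_smul, inv_mul_cancel₀ (by exact_mod_cast hm), one_smul] at h1

/-- one step: the symbols at the places as in the hypothesis have lower degree -/
private lemma mick_step (hx : Transcendental k x) {d : ℕ} (hd : 0 < d) {z : KMQ K 2} {M : ℕ}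
    {P : Finset k[X]} {g : k[X] → k[X]}
    (hP : ∀ π ∈ P, π.Monic ∧ Irreducible π ∧ π.natDegree = d ∧ g π ≠ 0 ∧ (g π).natDegree < d)
    (hz : (M : ℚ) • z - ∑ π ∈ P, sy (pqk x π) (pqk x (g π)) ∈ LPdk k x (d - 1))
    {π₀ : k[X]} (hπ₀ : π₀ ∈ P) (O : ValuationSubring K) [IsDiscreteValuationRing O]
    (hQ : ∀ r : k, algebraMap k K r ∈ O) (hxO : x ∈ O) (hv : O.valuation (aeval x π₀) < 1)
    (hzO : z ∈ unrM O 2) : sy (pqk x π₀) (pqk x (g π₀)) ∈ LPdk k x (d - 1) := by
  classical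
  obtain ⟨V, _, _, χ, τ, ord, p, H, t1, t2, t3⟩ := exists_tameT O
  obtain ⟨hm0, hi0, hd0, hg0, hgd0⟩ := hP π₀ hπ₀
  -- units
  have hunit : ∀ q : k[X], q ≠ 0 → ¬ π₀ ∣ q → pqk x q ∈ O.unitGroup := by
    intro q hq hdv
    rw [ValuationSubring.mem_unitGroup_iff, pqk_val hx hq]
    exact mick_unit O hQ hxO hi0 hv hdv
  have hkill : ∀ u ∈ O.unitGroup, ∀ w ∈ O.unitGroup, τ (sy u w) = 0 := by
    intro u hu w hw
    rw [t1 u w hw]
    have h1 : ord u = 0 := (H.eq_one_iff u).1 ((ValuationSubring.mem_unitGroup_iff _ _).1 hu)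
    rw [h1, Int.cast_zero, zero_smul]
  have hlow : ∀ y ∈ LPdk k x (d - 1), τ y = 0 := by
    intro y hy
    unfold LPdk at hy
    induction hy using Submodule.span_induction with
    | mem y hy =>
      obtain ⟨q, r, hq, hr, hqd, hrd, rfl⟩ := hy
      refine hkill _ (hunit q hq (mick_ndvd hq (by omega))) _ (hunit r hr (mick_ndvd hr (by omega)))
    | zero => exact map_zero τ
    | add a b _ _ ha hb => rw [map_add, ha, hb, add_zero]
    | smul c a _ ha => rw [map_smul, ha, smul_zero]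
  have h1 := hlow _ hz
  rw [map_sub, map_smul, t2 z hzO, smul_zero, zero_sub, neg_eq_zero, map_sum,
    Finset.sum_eq_single π₀] at h1
  rotate_left
  · intro π hπ hne
    obtain ⟨hm, hi, hdd, hg, hgd⟩ := hP π hπ
    refine hkill _ (hunit π hm.ne_zero ?_) _ (hunit _ hg (mick_ndvd hg (by omega)))
    intro hdv
    exact hne (eq_of_monic_of_associated hm hm0 ((hi0.associated_of_dvd hi hdv).symm))
  · intro h
    exact absurd hπ₀ h
  have hgu : pqk x (g π₀) ∈ O.unitGroup := hunit _ hg0 (mick_ndvd hg0 (by omega))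
  rw [t1 _ _ hgu] at h1
  have hord : 0 < ord (pqk x π₀) := by
    rw [← H.lt_one_iff, pqk_val hx hm0.ne_zero]
    exact hv
  have h2 : χ (pqk x (g π₀)) = 0 := by
    have h3 : (ord (pqk x π₀) : ℚ) ≠ 0 := by exact_mod_cast hord.ne'
    have h4 := congrArg (fun w => (ord (pqk x π₀) : ℚ)⁻¹ • w) h1
    simp only [smul_smul, inv_mul_cancel₀ h3, one_smul, smul_zero] at h4
    exact h4
  obtain ⟨m, hm, hmv⟩ := t3 _ hgu h2
  have h3 : π₀ ∣ g π₀ ^ m - 1 := by
    by_contra hcon
    have h4 := mick_unit O hQ hxO hi0 hv hcon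
    rw [map_sub, map_pow, map_one] at h4
    rw [pqk_val hx hg0] at hmv
    rw [h4] at hmv
    exact lt_irrefl _ hmv
  obtain ⟨r, hr0, hrd, hrdvd, hr⟩ := mick_pow hx hd hm0 hi0 hd0 hg0 hgd0 m
  have h4 : r = 1 := by
    by_contra hne
    have h5 : π₀ ∣ r - 1 := by
      have h6 : r - 1 = (g π₀ ^ m - 1) - (g π₀ ^ m - r) := by ring
      rw [h6]
      exact dvd_sub h3 hrdvd
    refine mick_ndvd (sub_ne_zero.2 hne) ?_ h5
    refine (natDegree_sub_le _ _).trans_lt ?_
    rw [natDegree_one, max_lt_iff]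
    exact ⟨by omega, by omega⟩
  have h5 : pqk x (1 : k[X]) = 1 := by
    apply Units.ext
    rw [pqk_val hx one_ne_zero, map_one, Units.val_one]
  rw [h4, h5, sy_one_right, sub_zero] at hr
  exact mick_mem_of_smul hm hr

private lemma mick_mono {d d' : ℕ} (h : d ≤ d') : LPdk k x d ≤ LPdk k x d' := by
  unfold LPdk
  apply Submodule.span_mono
  rintro z ⟨p, q, hp, hq, hpd, hqd, rfl⟩
  exact ⟨p, q, hp, hq, hpd.trans h, hqd.trans h, rfl⟩

private lemma mick_exists {z : KMQ K 2} (hz : z ∈ LPk k x) : ∃ d, z ∈ LPdk k x d := by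
  unfold LPk at hz
  induction hz using Submodule.span_induction with
  | mem y hy =>
    obtain ⟨p, q, hp, hq, rfl⟩ := hy
    exact ⟨max p.natDegree q.natDegree, Submodule.subset_span
      ⟨p, q, hp, hq, le_max_left _ _, le_max_right _ _, rfl⟩⟩
  | zero => exact ⟨0, Submodule.zero_mem _⟩
  | add a b _ _ ha hb =>
    obtain ⟨d, hd⟩ := ha
    obtain ⟨e, he⟩ := hb
    exact ⟨max d e, Submodule.add_mem _ (mick_mono (le_max_left _ _) hd)
      (mick_mono (le_max_right _ _) he)⟩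
  | smul c a _ ha =>
    obtain ⟨d, hd⟩ := ha
    exact ⟨d, Submodule.smul_mem _ c hd⟩

theorem milnorK (hx : Transcendental k x) {z : KMQ K 2} (hz : z ∈ LPk k x)
    (h : ∀ π : k[X], π.Monic → Irreducible π →
      ∃ O : ValuationSubring K, IsDiscreteValuationRing O ∧ (∀ r : k, algebraMap k K r ∈ O) ∧
        x ∈ O ∧ O.valuation (aeval x π) < 1 ∧ z ∈ unrM O 2) :
    z ∈ LPdk k x 0 := by
  classical
  have hdesc : ∀ d : ℕ, z ∈ LPdk k x d → z ∈ LPdk k x 0 := by
    intro d
    induction d with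
    | zero => exact fun h => h
    | succ d ih =>
      intro hzd
      apply ih
      obtain ⟨M, P, g, hM, hP, hs⟩ := milk_normal hx (Nat.succ_pos d) hzd
      have hsum : ∑ π ∈ P, sy (pqk x π) (pqk x (g π)) ∈ LPdk k x (d + 1 - 1) := by
        refine Submodule.sum_mem _ fun π hπ => ?_
        obtain ⟨O, hO, hQ, hxO, hv, hzO⟩ := h π (hP π hπ).1 (hP π hπ).2.1
        exact mick_step hx (Nat.succ_pos d) hP hs hπ O hQ hxO hv hzO
      have h2 := Submodule.add_mem _ hs hsum
      rw [sub_add_cancel, Nat.succ_sub_one] at h2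
      exact mick_mem_of_smul hM h2
  obtain ⟨d, hd⟩ := mick_exists hz
  exact hdesc d hd

end Pool.Agent.CSG
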