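import Pool.Agent.CSG.Defs
import Pool.Agent.CST.Mod

/-!
# Plane models over `k`

`exists_modelK`: a primitive element of `K / k(h)`, multiplied by an element of `k[h]`, is integral over
`k[h] ≅ k[X]`, which is integrally closed with fraction field `k(h)`; so its minimal polynomial over `k[h]`
has degree `[K : k(h)]`. `finite_over`: `ℚ(h) ⊆ k(h)`.
-/

open scoped BigOperators Polynomial
open Polynomial

namespace Pool.Agent.CSG

private theorem modk_top {k K : Type} [Field k] [Field K] [Algebra k K] {g θ : K}
    (h : IntermediateField.adjoin (IntermediateField.adjoin k {g}) {θ} = ⊤) :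
    IntermediateField.adjoin k {g, θ} = ⊤ := by
  have h1 := IntermediateField.adjoin_adjoin_left k {g} {θ}
  rw [h, IntermediateField.restrictScalars_top] at h1
  rw [h1]
  congr 1

theorem exists_modelK {k K : Type} [Field k] [CharZero k] [Field K] [CharZero K] [Algebra k K]
    {h : K} (hh : Transcendental k h)
    (hK : FiniteDimensional (IntermediateField.adjoin k {h}) K) :
    ∃ (θ : K) (f : k[X][X]), ModelK h θ f := by
  let E := IntermediateField.adjoin k {h}
  have hK' : FiniteDimensional E K := hK
  let ev : k[X] →+* K := (aeval h : k[X] →ₐ[k] K).toRingHom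
  have hmem : ∀ P : k[X], ev P ∈ E := by
    intro P
    exact IntermediateField.algebra_adjoin_le_adjoin k {h}
      (aeval_mem_adjoin_singleton k h)
  have hinj : Function.Injective ev := by
    rw [injective_iff_map_eq_zero]
    intro P hP
    exact (transcendental_iff.1 hh) _ hP
  let evE : k[X] →+* E := ev.codRestrict E.toSubring hmem
  let _ : Algebra k[X] E := evE.toAlgebra
  let _ : Algebra k[X] K := ev.toAlgebra
  have htw : IsScalarTower k[X] E K := IsScalarTower.of_algebraMap_eq fun _ => rfl
  have hamE : ∀ x : k[X], ((algebraMap k[X] E x : E) : K) = ev x := fun _ => rfl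
  have hamK : ∀ x : k[X], algebraMap k[X] K x = ev x := fun _ => rfl
  have hinjE : Function.Injective (algebraMap k[X] E) := by
    intro a b hab
    apply hinj
    rw [← hamE, ← hamE, hab]
  have hfsE : FaithfulSMul k[X] E := (faithfulSMul_iff_algebraMap_injective k[X] E).2 hinjE
  have hfsK : FaithfulSMul k[X] K := (faithfulSMul_iff_algebraMap_injective k[X] K).2 hinj
  have hfrac : IsFractionRing k[X] E := by
    apply IsFractionRing.of_field k[X] E
    intro z
    obtain ⟨x, y, hxy⟩ := (IntermediateField.mem_adjoin_simple_iff k (z : K)).1 z.2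
    refine ⟨x, y, ?_⟩
    apply Subtype.ext
    exact hxy
  obtain ⟨θ0, hθ0⟩ := Field.exists_primitive_element E K
  have halg : Algebra.IsAlgebraic k[X] K :=
    (IsFractionRing.comap_isAlgebraic_iff (A := k[X]) (K := E) (C := K)).2 inferInstance
  obtain ⟨y, hy0, hy⟩ := (halg.isAlgebraic θ0).exists_integral_multiple
  have hy0' : ev y ≠ 0 := by
    intro h
    apply hy0
    apply hinj
    rw [h, map_zero]
  have hθtop : IntermediateField.adjoin E {y • θ0} = ⊤ := by
    rw [eq_top_iff, ← hθ0, IntermediateField.adjoin_simple_le_iff]
    have h1 : θ0 = ((algebraMap k[X] E y)⁻¹ : E) • (y • θ0) := by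
      rw [Algebra.smul_def, Algebra.smul_def, hamK]
      rw [map_inv₀]
      have h2 : algebraMap E K (algebraMap k[X] E y) = ev y := rfl
      rw [h2, ← mul_assoc, inv_mul_cancel₀ hy0', one_mul]
    have h3 : ((algebraMap k[X] E y)⁻¹ : E) • (y • θ0) ∈ IntermediateField.adjoin E {y • θ0} :=
      (IntermediateField.adjoin E {y • θ0}).smul_mem
        (IntermediateField.mem_adjoin_simple_self E (y • θ0))
    rw [← h1] at h3
    exact h3
  have hmp : minpoly E (y • θ0) = (minpoly k[X] (y • θ0)).map (algebraMap k[X] E) :=
    minpoly.isIntegrallyClosed_eq_field_fractions' E hy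
  have hmon : (minpoly k[X] (y • θ0)).Monic := minpoly.monic hy
  refine ⟨y • θ0, minpoly k[X] (y • θ0), ?_⟩
  exact {
    tr := hh
    monic := hmon
    root := by
      have := minpoly.aeval k[X] (y • θ0)
      rw [aeval_def] at this
      exact this
    top := modk_top hθtop
    deg := by
      have h1 := IntermediateField.adjoin.finrank (K := E) (x := y • θ0)
        (Algebra.IsIntegral.isIntegral _)
      rw [hθtop, IntermediateField.finrank_top', hmp, hmon.natDegree_map] at h1
      first
        | exact h1
        | exact h1.symm
    pos := minpoly.natDegree_pos hy }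

theorem finite_over {k K : Type} [Field k] [CharZero k] [Field K] [CharZero K] [Algebra k K]
    {h : K} (hK : FiniteDimensional (IntermediateField.adjoin ℚ {h}) K) :
    FiniteDimensional (IntermediateField.adjoin k {h}) K := by
  have hle : ∀ x : K, x ∈ IntermediateField.adjoin ℚ {h} → x ∈ IntermediateField.adjoin k {h} := by
    intro x hx
    have h1 : IntermediateField.adjoin ℚ {h} ≤
        (IntermediateField.adjoin k {h}).restrictScalars ℚ := by
      rw [IntermediateField.adjoin_le_iff]
      exact IntermediateField.subset_adjoin _ _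
    exact h1 hx
  let i : IntermediateField.adjoin ℚ {h} →+* IntermediateField.adjoin k {h} :=
    (algebraMap (IntermediateField.adjoin ℚ {h}) K).codRestrict
      (IntermediateField.adjoin k {h}).toSubring fun x => hle x.1 x.2
  let _ : Algebra (IntermediateField.adjoin ℚ {h}) (IntermediateField.adjoin k {h}) := i.toAlgebra
  have htw : IsScalarTower (IntermediateField.adjoin ℚ {h}) (IntermediateField.adjoin k {h}) K :=
    IsScalarTower.of_algebraMap_eq fun _ => rfl
  exact FiniteDimensional.right (IntermediateField.adjoin ℚ {h}) (IntermediateField.adjoin k {h}) K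

end Pool.Agent.CSG
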