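import Pool.Agent.CSG.PlI
import Pool.Agent.CST.Ord

/-!
# Orders of constants and of `π(h) / π(0)`

`vo_const`: `u`, `u⁻¹` are in `O` (`const_mem`). The others as `CST.vo_ph_neg` etc.: all coefficients have
valuation `≤ 1`, the non zero ones `1`; at a pole of `h` the leading term dominates, at a zero of `h` the
constant term `1`.
-/

open scoped BigOperators Polynomial
open Polynomial

namespace Pool.Agent.CSG

open Pool.Agent.CST

variable {k K : Type} [Field k] [CharZero k] [Field K] [CharZero K] [Algebra k K]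

private theorem orc_one (O : ValuationSubring K) : vo O (1 : Kˣ) = 0 := by
  have h := vo_mul O 1 1
  rw [mul_one] at h
  omega

private theorem orc_inv (O : ValuationSubring K) (h : Kˣ) : vo O h⁻¹ = -vo O h := by
  have h1 := vo_mul O h h⁻¹
  rw [mul_inv_cancel, orc_one] at h1
  omega

theorem vo_const (hk : Algebra.IsAlgebraic ℚ k) {O : ValuationSubring K} (hO : IsPl O) {u : Kˣ}
    {c : k} (hu : (u : K) = algebraMap k K c) : vo O u = 0 := by
  have h1 : 0 ≤ vo O u := by
    rw [vo_nonneg_iff hO, hu]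
    exact const_mem hk hO c
  have h2 : 0 ≤ vo O u⁻¹ := by
    rw [vo_nonneg_iff hO, Units.val_inv_eq_inv_val, hu, ← map_inv₀]
    exact const_mem hk hO c⁻¹
  rw [orc_inv] at h2
  omega

/-- the constants have valuation at most one -/
private theorem orc_le (hk : Algebra.IsAlgebraic ℚ k) {O : ValuationSubring K} (hO : IsPl O)
    (c : k) : O.valuation (algebraMap k K c) ≤ 1 :=
  (O.valuation_le_one_iff _).2 (const_mem hk hO c)

/-- the constants different from zero have valuation one -/
private theorem orc_eq (hk : Algebra.IsAlgebraic ℚ k) {O : ValuationSubring K} (hO : IsPl O)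
    {c : k} (hc : c ≠ 0) : O.valuation (algebraMap k K c) = 1 := by
  have h0 : algebraMap k K c ≠ 0 := (_root_.map_ne_zero _).2 hc
  have h1 := vo_const hk hO (u := Units.mk0 _ h0) (c := c) rfl
  exact (vo_eq_zero_iff hO _).1 h1

/-- equal valuations, equal orders -/
private theorem orc_val {O : ValuationSubring K} (hO : IsPl O) {h u : Kˣ}
    (hv : O.valuation (h : K) = O.valuation (u : K)) : vo O h = vo O u := by
  have h1 : vo O (h * u⁻¹) = 0 := by
    rw [vo_eq_zero_iff hO, Units.val_mul, Units.val_inv_eq_inv_val, map_mul, map_inv₀, hv]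
    exact mul_inv_cancel₀ ((O.valuation.ne_zero_iff).2 u.ne_zero)
  rw [vo_mul, orc_inv] at h1
  omega

theorem vo_pi_neg (hk : Algebra.IsAlgebraic ℚ k) {O : ValuationSubring K} (hO : IsPl O)
    {h u : Kˣ} {π : k[X]} (h0 : π.coeff 0 ≠ 0) (hn : vo O h < 0)
    (hu : (u : K) = algebraMap k K (π.coeff 0)⁻¹ * aeval (h : K) π) :
    vo O u = π.natDegree * vo O h := by
  have hg1 : 1 < O.valuation (h : K) := by
    by_contra hcon
    have h1 := (vo_nonneg_iff hO h).2 ((O.valuation_le_one_iff _).1 (not_lt.1 hcon))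
    omega
  have hg0 : O.valuation (h : K) ≠ 0 := (zero_lt_one.trans hg1).ne'
  have hπ : π ≠ 0 := by
    rintro rfl
    exact h0 (coeff_zero 0)
  have hpow : vo O (h ^ π.natDegree) = π.natDegree * vo O h := by
    have h1 := vo_zpow O h (π.natDegree : ℤ)
    rwa [zpow_natCast] at h1
  rw [← hpow]
  refine orc_val hO ?_
  have hlc : O.valuation (algebraMap k K (π.coeff π.natDegree)) = 1 :=
    orc_eq hk hO (by
      rw [coeff_natDegree]
      exact leadingCoeff_ne_zero.2 hπ)
  have hlast : O.valuation (π.coeff π.natDegree • (h : K) ^ π.natDegree) =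
      O.valuation (h : K) ^ π.natDegree := by
    rw [Algebra.smul_def, map_mul, map_pow, hlc, one_mul]
  rw [hu, map_mul, orc_eq hk hO (inv_ne_zero h0), one_mul, aeval_eq_sum_range,
    Finset.sum_range_succ, Units.val_pow_eq_pow_val, map_pow, ← hlast]
  refine Valuation.map_add_eq_of_lt_right O.valuation ?_
  rw [hlast]
  refine Valuation.map_sum_lt _ (pow_ne_zero _ hg0) ?_
  intro i hi
  rw [Finset.mem_range] at hi
  rw [Algebra.smul_def, map_mul, map_pow]
  calc O.valuation (algebraMap k K (π.coeff i)) * O.valuation (h : K) ^ i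
      ≤ 1 * O.valuation (h : K) ^ i := mul_le_mul' (orc_le hk hO _) le_rfl
    _ = O.valuation (h : K) ^ i := one_mul _
    _ < O.valuation (h : K) ^ π.natDegree := pow_lt_pow_right₀ hg1 hi

theorem vo_pi_nonneg (hk : Algebra.IsAlgebraic ℚ k) {O : ValuationSubring K} (hO : IsPl O)
    {h u : Kˣ} {π : k[X]} (hn : 0 ≤ vo O h)
    (hu : (u : K) = algebraMap k K (π.coeff 0)⁻¹ * aeval (h : K) π) : 0 ≤ vo O u := by
  have hg1 := (vo_nonneg_iff hO h).1 hn
  refine (vo_nonneg_iff hO u).2 ?_
  rw [hu, aeval_eq_sum_range]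
  refine mul_mem (const_mem hk hO _) (sum_mem fun i _ => ?_)
  rw [Algebra.smul_def]
  exact mul_mem (const_mem hk hO _) (pow_mem hg1 i)

theorem vo_pi_pos (hk : Algebra.IsAlgebraic ℚ k) {O : ValuationSubring K} (hO : IsPl O)
    {h u : Kˣ} {π : k[X]} (h0 : π.coeff 0 ≠ 0) (hn : 0 < vo O h)
    (hu : (u : K) = algebraMap k K (π.coeff 0)⁻¹ * aeval (h : K) π) : vo O u = 0 := by
  have hg1 := (vo_pos_iff hO h).1 hn
  rw [vo_eq_zero_iff hO]
  have h1 : O.valuation (π.coeff 0 • (h : K) ^ 0) = 1 := by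
    rw [pow_zero, Algebra.smul_def, mul_one]
    exact orc_eq hk hO h0
  rw [hu, map_mul, orc_eq hk hO (inv_ne_zero h0), one_mul, aeval_eq_sum_range,
    Finset.sum_range_succ', Valuation.map_add_eq_of_lt_right O.valuation ?_, h1]
  rw [h1]
  refine Valuation.map_sum_lt _ one_ne_zero ?_
  intro i _
  rw [Algebra.smul_def, map_mul, map_pow]
  calc O.valuation (algebraMap k K (π.coeff (i + 1))) * O.valuation (h : K) ^ (i + 1)
      ≤ 1 * O.valuation (h : K) ^ (i + 1) := mul_le_mul' (orc_le hk hO _) le_rfl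
    _ = O.valuation (h : K) ^ (i + 1) := one_mul _
    _ < 1 := pow_lt_one₀ zero_le hg1 (Nat.succ_ne_zero i)

end Pool.Agent.CSG
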