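import Pool.Agent.CSG.Chk
import Pool.Agent.CSG.Mod
import Pool.Agent.CST.PlC

/-!
# `π(h)` generates a maximal ideal of the integral closure

`Bh h` (`CST.PlD`) is the integral closure of `ℚ[h]` in `K`; as `k` is algebraic over `ℚ` it is also the
integral closure of `k[h]`. Let `κ = k[h] ⧸ (π(h))`, it embeds into `ℂ` (over `j`, `h ↦ η = ζ / b`) with image in
`k₀(ζ)`. A factorisation of `f` over `κ` gives after scaling the roots by `D` one of `(tw j b D f)(ζ, X)`, and
`chiK` applies. The ring `Bh h ⧸ π(h) Bh h` has dimension `[K : k(h)]` over `κ`, so it is equal to the image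
of the field `κ[X] ⧸ (f)`.
-/

open scoped BigOperators Polynomial
open Polynomial

namespace Pool.Agent.CSG

open Pool.Agent.CST

section abstract_part

attribute [local instance] Ideal.Quotient.field

set_option linter.deprecated false in
private theorem PlG_max {A B F L : Type} [CommRing A] [IsDedekindDomain A] [CommRing B] [IsDomain B]
    [Algebra A B] [Field F] [Field L] [Algebra A F] [IsFractionRing A F] [Algebra B L] [IsFractionRing B L]
    [Algebra F L] [Algebra A L] [IsScalarTower A F L] [IsScalarTower A B L] [Module.Finite A B]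
    (p : Ideal A) [hp : p.IsMaximal] (h : A[X]) (hm : h.Monic) (hd : h.natDegree = Module.finrank F L)
    (h0 : 0 < h.natDegree) (θ : B) (hθ : h.eval₂ (algebraMap A B) θ = 0)
    (hi : Irreducible (h.map (Ideal.Quotient.mk p))) : (p.map (algebraMap A B)).IsMaximal := by
  have hfr : Module.finrank (A ⧸ p) (B ⧸ p.map (algebraMap A B)) = Module.finrank F L :=
    Ideal.finrank_quotient_map p F L
  have hpos : 0 < Module.finrank (A ⧸ p) (B ⧸ p.map (algebraMap A B)) := by
    rw [hfr, ← hd]
    exact h0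
  have : Module.Finite (A ⧸ p) (B ⧸ p.map (algebraMap A B)) := Module.finite_of_finrank_pos hpos
  have : Nontrivial (B ⧸ p.map (algebraMap A B)) := Module.nontrivial_of_finrank_pos hpos
  have : Fact (Irreducible (h.map (Ideal.Quotient.mk p))) := ⟨hi⟩
  have hr : (h.map (Ideal.Quotient.mk p)).eval₂ (algebraMap (A ⧸ p) (B ⧸ p.map (algebraMap A B)))
      (Ideal.Quotient.mk _ θ) = 0 := by
    rw [eval₂_map]
    have h1 : (algebraMap (A ⧸ p) (B ⧸ p.map (algebraMap A B))).comp (Ideal.Quotient.mk p) =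
        (Ideal.Quotient.mk (p.map (algebraMap A B))).comp (algebraMap A B) := by
      ext x
      rfl
    rw [h1, ← hom_eval₂, hθ, map_zero]
  let ρ : AdjoinRoot (h.map (Ideal.Quotient.mk p)) →ₐ[A ⧸ p] (B ⧸ p.map (algebraMap A B)) :=
    AdjoinRoot.liftAlgHom _ (Algebra.ofId _ _) (Ideal.Quotient.mk _ θ) hr
  have hinj : Function.Injective ρ := ρ.toRingHom.injective
  have hfin : FiniteDimensional (A ⧸ p) (AdjoinRoot (h.map (Ideal.Quotient.mk p))) :=
    (AdjoinRoot.powerBasis hi.ne_zero).finite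
  have hfr2 : Module.finrank (A ⧸ p) (AdjoinRoot (h.map (Ideal.Quotient.mk p))) =
      Module.finrank (A ⧸ p) (B ⧸ p.map (algebraMap A B)) := by
    rw [(AdjoinRoot.powerBasis hi.ne_zero).finrank, AdjoinRoot.powerBasis_dim, hfr, ← hd,
      hm.natDegree_map]
  have hsur : Function.Surjective ρ :=
    (LinearMap.injective_iff_surjective_of_finrank_eq_finrank (f := ρ.toLinearMap) hfr2).1 hinj
  refine Ideal.Quotient.maximal_of_isField _ ?_
  exact (RingEquiv.ofBijective ρ.toRingHom ⟨hinj, hsur⟩).symm.toMulEquiv.isField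
    (Field.toIsField (AdjoinRoot (h.map (Ideal.Quotient.mk p))))

end abstract_part

theorem mem_bh {k K : Type} [Field k] [CharZero k] [Field K] [CharZero K] [Algebra k K]
    (hk : Algebra.IsAlgebraic ℚ k) (h : K) (π : k[X]) : aeval h π ∈ Bh h := by
  have hh : h ∈ Bh h := by
    have h1 : IsIntegral (Ah h) (algebraMap (Ah h) K ⟨h, Algebra.self_mem_adjoin_singleton ℚ h⟩) :=
      isIntegral_algebraMap
    exact h1
  have hc : ∀ c : k, algebraMap k K c ∈ Bh h := by
    intro c
    have h1 : IsIntegral ℚ c := (hk.isAlgebraic c).isIntegral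
    have h2 : IsIntegral ℚ (algebraMap k K c) := h1.algebraMap
    exact h2.tower_top
  rw [aeval_eq_sum_range]
  refine Subalgebra.sum_mem _ fun i _ => ?_
  rw [Algebra.smul_def]
  exact Subalgebra.mul_mem _ (hc _) (Subalgebra.pow_mem _ hh i)

/-- `k[h]` -/
private noncomputable abbrev PlG_A (k : Type) {K : Type} [Field k] [Field K] [Algebra k K] (h : K) :
    Subalgebra k K := Algebra.adjoin k {h}

private theorem PlG_mem {k K : Type} [Field k] [CharZero k] [Field K] [CharZero K] [Algebra k K]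
    (hk : Algebra.IsAlgebraic ℚ k) {h x : K} (hx : x ∈ PlG_A k h) : x ∈ Bh h := by
  have hx' : x ∈ Algebra.adjoin k {h} := hx
  rw [Algebra.adjoin_singleton_eq_range_aeval] at hx'
  obtain ⟨p, hp⟩ := hx'
  have h1 := mem_bh hk h p
  have h2 : aeval h p = x := hp
  rwa [h2] at h1

/-- the inclusion `k[h] → Bh h` -/
private noncomputable def PlG_in {k K : Type} [Field k] [CharZero k] [Field K] [CharZero K] [Algebra k K]
    (hk : Algebra.IsAlgebraic ℚ k) (h : K) : PlG_A k h →+* Bh h :=
  (PlG_A k h).val.toRingHom.codRestrict (Bh h) fun x => PlG_mem hk x.2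

private theorem PlG_jmem (k : Type) {K : Type} [Field k] [CharZero k] [Field K] [CharZero K] [Algebra k K]
    {h x : K} (hx : x ∈ Ah h) : x ∈ PlG_A k h := by
  have h1 : x ∈ Algebra.adjoin ℚ {h} := hx
  rw [Algebra.adjoin_singleton_eq_range_aeval] at h1
  obtain ⟨p, hp⟩ := h1
  have h2 : aeval h p = x := hp
  rw [← h2]
  have h3 : aeval h p = aeval h (p.map (algebraMap ℚ k)) := by
    rw [aeval_map_algebraMap]
  rw [h3]
  exact aeval_mem_adjoin_singleton k h

/-- the inclusion `ℚ[h] → k[h]` -/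
private noncomputable def PlG_j (k : Type) {K : Type} [Field k] [CharZero k] [Field K] [CharZero K]
    [Algebra k K] (h : K) : Ah h →+* PlG_A k h :=
  (Ah h).val.toRingHom.codRestrict (PlG_A k h) fun x => PlG_jmem k x.2

private theorem PlG_pid {k K : Type} [Field k] [Field K] [Algebra k K] (h : K) :
    IsPrincipalIdealRing (PlG_A k h) := by
  refine IsPrincipalIdealRing.of_surjective
    (aeval (⟨h, Algebra.self_mem_adjoin_singleton k h⟩ : PlG_A k h) : k[X] →ₐ[k] PlG_A k h).toRingHom ?_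
  rintro ⟨x, hx⟩
  have hx' : x ∈ Algebra.adjoin k {h} := hx
  rw [Algebra.adjoin_singleton_eq_range_aeval] at hx'
  obtain ⟨p, hp⟩ := hx'
  refine ⟨p, Subtype.ext ?_⟩
  have e := aeval_algHom_apply (PlG_A k h).val ⟨h, Algebra.self_mem_adjoin_singleton k h⟩ p
  exact e.symm.trans hp

section conc

open scoped IntermediateField.algebraAdjoinAdjoin

private theorem PlG_finite {K : Type} [Field K] [CharZero K] {h : K} (hh : Transcendental ℚ h)
    (hK : FiniteDimensional (IntermediateField.adjoin ℚ {h}) K) : Module.Finite (Ah h) (Bh h) := by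
  have := ah_pid hh
  exact IsIntegralClosure.finite (Ah h) (IntermediateField.adjoin ℚ {h}) K (Bh h)

/-- the coefficients -/
private noncomputable def PlG_al {k K : Type} [Field k] [Field K] [Algebra k K] (h : K) :
    k[X] →+* PlG_A k h :=
  (aeval (⟨h, Algebra.self_mem_adjoin_singleton k h⟩ : PlG_A k h) : k[X] →ₐ[k] PlG_A k h).toRingHom

private theorem PlG_al_comp {k K : Type} [Field k] [Field K] [Algebra k K] (h : K) :
    (algebraMap (PlG_A k h) K).comp (PlG_al h) = (aeval h : k[X] →ₐ[k] K).toRingHom := by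
  refine RingHom.ext fun p => ?_
  exact (aeval_algHom_apply (PlG_A k h).val ⟨h, Algebra.self_mem_adjoin_singleton k h⟩ p).symm

private theorem PlG_jv {k K : Type} [Field k] [CharZero k] [Field K] [CharZero K] [Algebra k K] {h : K}
    (y : Ah h) : algebraMap (Ah h) K y = algebraMap (PlG_A k h) K (PlG_j k h y) := by
  have h1 : algebraMap (Ah h) K y = (Ah h).val.toRingHom y := rfl
  have h2 : ∀ z : PlG_A k h, algebraMap (PlG_A k h) K z = (z : K) := fun z => rfl
  rw [h2, PlG_j, RingHom.codRestrict_apply, h1]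

private theorem PlG_iv {k K : Type} [Field k] [CharZero k] [Field K] [CharZero K] [Algebra k K]
    (hk : Algebra.IsAlgebraic ℚ k) {h : K} (y : PlG_A k h) :
    algebraMap (PlG_A k h) K y = algebraMap (Bh h) K (PlG_in hk h y) := by
  have h1 : algebraMap (PlG_A k h) K y = (PlG_A k h).val.toRingHom y := rfl
  have h2 : ∀ z : Bh h, algebraMap (Bh h) K z = (z : K) := fun z => rfl
  rw [h2, PlG_in, RingHom.codRestrict_apply, h1]

private theorem PlG_ij {k K : Type} [Field k] [CharZero k] [Field K] [CharZero K] [Algebra k K]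
    (hk : Algebra.IsAlgebraic ℚ k) {h : K} (y : Ah h) :
    algebraMap (Ah h) (Bh h) y = PlG_in hk h (PlG_j k h y) := by
  apply Subtype.ext
  have h1 : ((algebraMap (Ah h) (Bh h) y : Bh h) : K) = algebraMap (Ah h) K y := rfl
  have h2 : ((PlG_in hk h (PlG_j k h y) : Bh h) : K) = algebraMap (Bh h) K (PlG_in hk h (PlG_j k h y)) := rfl
  rw [h1, h2, ← PlG_iv, ← PlG_jv]

private theorem PlG_tw {k : Type} [Field k] (j : k →+* ℂ) (b : ℂ) (D : ℕ) {f : k[X][X]} (hf : f.Monic)
    (ζ : ℂ) : (tw j b D f).map (cev ζ) =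
      (f.map (eval₂RingHom j (ζ / b))).scaleRoots (D : ℂ) := by
  ext i
  rw [coeff_scaleRoots, hf.natDegree_map, coeff_map, coeff_map, tw]
  rw [finsetSum_coeff, map_sum]
  have h1 : ∀ l ∈ Finset.range (f.natDegree + 1), l ≠ i → cev ζ (((monomial l)
      (C ((D : ℂ) ^ (f.natDegree - l)) * ((f.coeff l).map j).comp (C b⁻¹ * X))).coeff i) = 0 := by
    intro l _ hl
    rw [coeff_monomial, if_neg hl, map_zero]
  by_cases hi : i ∈ Finset.range (f.natDegree + 1)
  · rw [Finset.sum_eq_single_of_mem i hi h1, coeff_monomial, if_pos rfl]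
    rw [map_mul, mul_comm]
    congr 1
    · rw [cev, coe_evalRingHom, eval_comp, eval_map, coe_eval₂RingHom]
      congr 1
      rw [eval_mul, eval_C, eval_X, div_eq_mul_inv, mul_comm]
    · rw [cev, coe_evalRingHom, eval_C]
  · rw [Finset.sum_eq_zero fun l hl => h1 l hl fun h2 => hi (h2 ▸ hl)]
    rw [Finset.mem_range, not_lt] at hi
    rw [coeff_eq_zero_of_natDegree_lt (by omega), map_zero, zero_mul]

theorem span_maximalK {k K : Type} [Field k] [CharZero k] [Field K] [CharZero K] [Algebra k K]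
    (hk : Algebra.IsAlgebraic ℚ k) (j : k →+* ℂ) {b : ℂ} (hb0 : b ≠ 0) {D : ℕ} (hD : 0 < D)
    {h θ : K} {f : k[X][X]} (hm : ModelK h θ f) (hgeo : GeoC (tw j b D f))
    (k₀ : IntermediateField ℚ ℂ) (hk₀ : FiniteDimensional ℚ k₀) (hj : ∀ q : k, j q ∈ k₀)
    (hb : b ∈ k₀) (hF : (tw j b D f).Monic) (hI : IntIn k₀ (tw j b D f))
    (hd : (tw j b D f).natDegree = f.natDegree)
    (hK : FiniteDimensional (IntermediateField.adjoin ℚ {h}) K) :
    ∃ n₀ : ℕ, ∀ n, n₀ ≤ n → ∀ ζ : ℂ, IsPrimitiveRoot ζ n → ∀ π : k[X], π.Monic →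
      Irreducible π → (π.map j).eval (ζ / b) = 0 → ∀ x : Bh h, (x : K) = aeval h π →
        (Ideal.span {x}).IsMaximal := by
  have _ := hb0
  have _ := hD
  have _ := hd
  obtain ⟨n₀, hn₀⟩ := chiK k₀ hk₀ (tw j b D f) hF hI hgeo
  refine ⟨n₀, fun n hn ζ hζ π hπm hπi hπr x hx => ?_⟩
  have hg := hm.tr
  have hgQ : Transcendental ℚ h := by
    intro h1
    exact hg (h1.tower_top k)
  have := PlG_pid (k := k) h
  have := ah_pid hgQ
  have := bh_frac hgQ hK
  have hfin0 := PlG_finite hgQ hK
  let i1 : Algebra (PlG_A k h) (Bh h) := (PlG_in hk h).toAlgebra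
  let i2 : Algebra (Ah h) (PlG_A k h) := (PlG_j k h).toAlgebra
  have i3 : IsScalarTower (Ah h) (PlG_A k h) (Bh h) := IsScalarTower.of_algebraMap_eq (PlG_ij hk)
  have i4 : IsScalarTower (Ah h) (PlG_A k h) K := IsScalarTower.of_algebraMap_eq PlG_jv
  have i5 : IsScalarTower (PlG_A k h) (Bh h) K := IsScalarTower.of_algebraMap_eq (PlG_iv hk)
  have hfin1 : Module.Finite (PlG_A k h) (Bh h) := Module.Finite.of_restrictScalars_finite (Ah h) _ _
  have hint : Algebra.IsIntegral (Ah h) (PlG_A k h) := ⟨fun y => by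
    have h1 : IsIntegral (Ah h) (y : K) := PlG_mem hk y.2
    exact (isIntegral_algebraMap_iff (A := PlG_A k h) (B := K) Subtype.val_injective).1 h1⟩
  let e : k[X] ≃ₐ[k] PlG_A k h := Polynomial.algEquivOfTranscendental k h hg
  let φ : PlG_A k h →+* ℂ := (eval₂RingHom j (ζ / b)).comp e.symm.toAlgHom.toRingHom
  have hφ : ∀ q : k[X], φ (e q) = eval₂ j (ζ / b) q := fun q => by
    change eval₂ j (ζ / b) (e.symm (e q)) = _
    rw [AlgEquiv.symm_apply_apply]
  have hal : ∀ q : k[X], e q = PlG_al h q := fun q => rfl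
  have hφal : φ.comp (PlG_al h) = eval₂RingHom j (ζ / b) := by
    refine RingHom.ext fun q => ?_
    rw [RingHom.comp_apply, ← hal, hφ]
    rfl
  set P : PlG_A k h := PlG_al h π with hP
  have heP : e π = P := hal π
  have hPi : Irreducible P := by
    rw [← heP, MulEquiv.irreducible_iff e]
    exact hπi
  have hmax : (Ideal.span {P}).IsMaximal := PrincipalIdealRing.isMaximal_of_irreducible hPi
  have hker : ∀ y ∈ Ideal.span {P}, φ y = 0 := by
    intro y hy
    obtain ⟨z, rfl⟩ := Ideal.mem_span_singleton'.1 hy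
    rw [map_mul, ← heP, hφ, ← eval_map, hπr, mul_zero]
  let := Ideal.Quotient.field (Ideal.span {P})
  let φb : PlG_A k h ⧸ Ideal.span {P} →+* ℂ := Ideal.Quotient.lift (Ideal.span {P}) φ hker
  have hφb : φb.comp (Ideal.Quotient.mk (Ideal.span {P})) = φ := RingHom.ext fun x => rfl
  have hζK : ζ ∈ Ka k₀ ζ := (le_sup_right : Qa ζ ≤ k₀ ⊔ Qa ζ) (IntermediateField.mem_adjoin_simple_self ℚ ζ)
  have hkK : ∀ z ∈ k₀, z ∈ Ka k₀ ζ := fun z hz => (le_sup_left : k₀ ≤ k₀ ⊔ Qa ζ) hz
  have hKa : ∀ x, φb x ∈ Ka k₀ ζ := by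
    intro x
    obtain ⟨a, rfl⟩ := Ideal.Quotient.mk_surjective x
    have h1 : φb (Ideal.Quotient.mk (Ideal.span {P}) a) = eval₂ j (ζ / b) (e.symm a) := by
      rw [← hφ, AlgEquiv.apply_symm_apply]
      rfl
    rw [h1, eval₂_eq_sum_range]
    refine sum_mem fun i _ => mul_mem (hkK _ (hj _)) (pow_mem (div_mem hζK (hkK _ hb)) i)
  have hθA : IsIntegral (PlG_A k h) θ := by
    refine ⟨f.map (PlG_al h), hm.monic.map _, ?_⟩
    rw [eval₂_map, PlG_al_comp]
    exact hm.root
  have hθi : IsIntegral (Ah h) θ := isIntegral_trans θ hθA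
  have hirr : Irreducible ((f.map (PlG_al h)).map (Ideal.Quotient.mk (Ideal.span {P}))) := by
    have hmon : ((f.map (PlG_al h)).map (Ideal.Quotient.mk (Ideal.span {P}))).Monic :=
      (hm.monic.map _).map _
    rw [hmon.irreducible_iff_natDegree]
    refine ⟨fun h1 => ?_, fun G H hG' hH' hGH => ?_⟩
    · have h2 := congrArg natDegree h1
      rw [(hm.monic.map _).natDegree_map, hm.monic.natDegree_map, natDegree_one] at h2
      have := hm.pos
      omega
    · have h3 : f.map (eval₂RingHom j (ζ / b)) = G.map φb * H.map φb := by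
        rw [← Polynomial.map_mul, hGH, Polynomial.map_map, Polynomial.map_map, hφb, hφal]
      have h3' : (tw j b D f).map (cev ζ) =
          (G.map φb).scaleRoots (D : ℂ) * (H.map φb).scaleRoots (D : ℂ) := by
        rw [PlG_tw j b D hm.monic ζ, h3, mul_scaleRoots_of_noZeroDivisors]
      have hDK : ∀ m : ℕ, (D : ℂ) ^ m ∈ Ka k₀ ζ := fun m => pow_mem (natCast_mem _ D) m
      have h4 := hn₀ n hn ζ hζ _ _ ((monic_scaleRoots_iff _).2 (hG'.map φb))
        ((monic_scaleRoots_iff _).2 (hH'.map φb)) h3'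
        (fun i => by rw [coeff_scaleRoots, coeff_map]; exact mul_mem (hKa _) (hDK _))
        (fun i => by rw [coeff_scaleRoots, coeff_map]; exact mul_mem (hKa _) (hDK _))
      rwa [natDegree_scaleRoots, natDegree_scaleRoots, hG'.natDegree_map, hH'.natDegree_map] at h4
  have hfin := PlG_max (A := PlG_A k h) (B := Bh h) (F := IntermediateField.adjoin k {h}) (L := K)
    (Ideal.span {P})
    (f.map (PlG_al h)) (hm.monic.map _) (by rw [hm.monic.natDegree_map]; exact hm.deg)
    (by rw [hm.monic.natDegree_map]; exact hm.pos) ⟨θ, hθi⟩ (by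
      apply Subtype.ext
      have h5 : ((algebraMap (Bh h) K) (eval₂ (algebraMap (PlG_A k h) (Bh h)) ⟨θ, hθi⟩
          (f.map (PlG_al h)))) = 0 := by
        rw [hom_eval₂, eval₂_map]
        have h6 : ((algebraMap (Bh h) K).comp (algebraMap (PlG_A k h) (Bh h))).comp (PlG_al h) =
            (aeval h : k[X] →ₐ[k] K).toRingHom := by
          rw [← IsScalarTower.algebraMap_eq, PlG_al_comp]
        rw [h6]
        exact hm.root
      exact h5) hirr
  rw [Ideal.map_span, Set.image_singleton] at hfin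
  have hxP : algebraMap (PlG_A k h) (Bh h) P = x := by
    apply Subtype.ext
    rw [hx]
    have h7 := RingHom.congr_fun (PlG_al_comp (k := k) h) π
    rw [RingHom.comp_apply, ← hP, IsScalarTower.algebraMap_apply (PlG_A k h) (Bh h) K] at h7
    exact h7
  rwa [hxP] at hfin

end conc

end Pool.Agent.CSG
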