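import Pool.Agent.CSG.PlG
import Pool.Agent.CSG.PlI
import Pool.Agent.CST.PlF

/-!
# Exactly one closed point over `π(h)`

`π(h)` generates a maximal ideal of `Bh h`; a place where its value is less than one contains `h`, because `h` is
integral over the valuation ring (which contains the constants), and is determined by its centre.
-/

open scoped BigOperators Polynomial
open Polynomial

namespace Pool.Agent.CSG

open Pool.Agent.CST

/-- exactly one closed point over `π(h)`, and `π(h)` is a uniformizer there -/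
def OnePt {k K : Type} [Field k] [Field K] [CharZero K] [Algebra k K] (h : K) (π : k[X])
    (O : ValuationSubring K) : Prop :=
  IsPl O ∧ O.valuation (aeval h π) < 1 ∧
    (∀ O' : ValuationSubring K, IsPl O' → O'.valuation (aeval h π) < 1 → O' = O) ∧
    ∀ x : K, O.valuation x < 1 → O.valuation x ≤ O.valuation (aeval h π)

private theorem plH_mem {k K : Type} [Field k] [CharZero k] [Field K] [CharZero K] [Algebra k K]
    (hk : Algebra.IsAlgebraic ℚ k) {h : K} {π : k[X]} (hπ : π.Monic) (hπ' : Irreducible π)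
    {O : ValuationSubring K} (hO : IsPl O) (hv : O.valuation (aeval h π) < 1) : h ∈ O := by
  have h1 : aeval h π ∈ O := (O.valuation_le_one_iff _).1 hv.le
  have hφ : ∀ q : k, algebraMap k K q ∈ O.toSubring := fun q => const_mem hk hO q
  have h2 : IsIntegral O h := by
    refine ⟨π.map ((algebraMap k K).codRestrict O.toSubring hφ) - C ⟨aeval h π, h1⟩, ?_, ?_⟩
    · refine (hπ.map _).sub_of_left ?_
      refine lt_of_le_of_lt degree_C_le ?_
      rw [hπ.degree_map]
      exact degree_pos_of_irreducible hπ'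
    · rw [eval₂_sub, eval₂_map, eval₂_C]
      exact sub_self _
  obtain ⟨y, hy⟩ := IsIntegrallyClosed.isIntegral_iff.1 h2
  rw [← hy]
  exact y.2

private theorem plH_ne {k K : Type} [Field k] [CharZero k] [Field K] [CharZero K] [Algebra k K]
    (hk : Algebra.IsAlgebraic ℚ k) {h : K} (hh : Transcendental ℚ h) {π : k[X]} (h0 : π ≠ 0) :
    aeval h π ≠ 0 := by
  intro e
  have h1 : IsAlgebraic k h := ⟨π, h0, e⟩
  exact hh (h1.restrictScalars ℚ)

theorem unique_of_max {k K : Type} [Field k] [CharZero k] [Field K] [CharZero K] [Algebra k K]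
    (hk : Algebra.IsAlgebraic ℚ k) {h : K} (hh : Transcendental ℚ h)
    (hK : FiniteDimensional (IntermediateField.adjoin ℚ {h}) K) {π : k[X]} (hπ : π.Monic)
    (hπ' : Irreducible π)
    (H : ∀ x : Bh h, (x : K) = aeval h π → (Ideal.span {x}).IsMaximal) : ∃ O, OnePt h π O := by
  obtain ⟨x, hx⟩ : ∃ x : Bh h, (x : K) = aeval h π := ⟨⟨_, mem_bh hk h π⟩, rfl⟩
  have hmax := H x hx
  have hb : Ideal.span {x} ≠ ⊥ := by
    rw [Ne, Ideal.span_singleton_eq_bot]
    intro h0
    refine plH_ne hk hh hπ.ne_zero ?_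
    rw [← hx, h0]
    rfl
  obtain ⟨O, hO, hOb⟩ := exists_place hh hK _ hmax.isPrime hb
  have h1 : O.valuation (aeval h π) < 1 := by
    rw [← hx]
    exact (hOb x).2.2 (Ideal.mem_span_singleton_self _)
  have hhO := plH_mem hk hπ hπ' hO h1
  refine ⟨O, hO, h1, fun O' hO' h2 => ?_, fun z hz => ?_⟩
  · have hhO' := plH_mem hk hπ hπ' hO' h2
    obtain ⟨P', hP', -, hc⟩ := exists_center hh hK hO' hhO'
    have h3 : x ∈ P' := (hc _).1 (by rw [hx]; exact h2)
    have h4 : Ideal.span {x} = P' :=
      hmax.eq_of_le hP'.ne_top ((Ideal.span_singleton_le_iff_mem _).2 h3)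
    refine place_unique hh hK hO' hO hhO' hhO fun b => ?_
    rw [hc, (hOb b).2, h4]
  · have h5 := uniformizer hh hK hO hhO (π := x) (fun b => (hOb b).2) hz
    rwa [hx] at h5

end Pool.Agent.CSG
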