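import Pool.Agent.CSG.Defs
import Pool.Agent.ISI.TamB

/-!
# Values of polynomials over `k` as units, symbols of polynomials
-/

open scoped BigOperators Polynomial
open Polynomial

namespace Pool.Agent.CSG

open Pool.Agent.Helper11

variable {k K : Type} [Field k] [Field K] [CharZero K] [Algebra k K]

open Classical in
/-- the value of a polynomial at `x`, as a unit (`1` if it vanishes) -/
noncomputable def pqk (x : K) (p : k[X]) : Kˣ :=
  if h : aeval x p ≠ 0 then Units.mk0 _ h else 1

omit [CharZero K] in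
lemma aeval_nek {x : K} (hx : Transcendental k x) {p : k[X]} (hp : p ≠ 0) : aeval x p ≠ 0 :=
  fun h => hp ((transcendental_iff.1 hx) p h)

omit [CharZero K] in
lemma pqk_val {x : K} (hx : Transcendental k x) {p : k[X]} (hp : p ≠ 0) :
    (pqk x p : K) = aeval x p := by
  unfold pqk
  rw [dif_pos (aeval_nek hx hp), Units.val_mk0]

omit [CharZero K] in
lemma pqk_mul {x : K} (hx : Transcendental k x) {p q : k[X]} (hp : p ≠ 0) (hq : q ≠ 0) :
    pqk x (p * q) = pqk x p * pqk x q := by
  apply Units.ext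
  rw [Units.val_mul, pqk_val hx hp, pqk_val hx hq, pqk_val hx (mul_ne_zero hp hq), map_mul]

omit [CharZero K] in
lemma pqk_C {x : K} (hx : Transcendental k x) (q : kˣ) :
    pqk x (C (q : k)) = Units.map (algebraMap k K : k →* K) q := by
  apply Units.ext
  rw [pqk_val hx (C_ne_zero.2 q.ne_zero), aeval_C]
  rfl

omit [CharZero K] in
lemma pqk_pow {x : K} (hx : Transcendental k x) {p : k[X]} (hp : p ≠ 0) (n : ℕ) :
    pqk x (p ^ n) = pqk x p ^ n := by
  apply Units.ext
  rw [Units.val_pow_eq_pow_val, pqk_val hx hp, pqk_val hx (pow_ne_zero n hp), map_pow]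

omit [CharZero K] in
lemma pqk_congr {x : K} (hx : Transcendental k x) {p : k[X]} (hp : p ≠ 0) {u : Kˣ}
    (h : (u : K) = aeval x p) : u = pqk x p := by
  apply Units.ext
  rw [pqk_val hx hp, h]

variable (k)

/-- the combinations of symbols of two polynomials in `x` -/
noncomputable def LPk (x : K) : Submodule ℚ (KMQ K 2) :=
  Submodule.span ℚ {z | ∃ p q : k[X], p ≠ 0 ∧ q ≠ 0 ∧ z = sy (pqk x p) (pqk x q)}

/-- the combinations of symbols of two polynomials of degree at most `d` in `x` -/
noncomputable def LPdk (x : K) (d : ℕ) : Submodule ℚ (KMQ K 2) :=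
  Submodule.span ℚ {z | ∃ p q : k[X], p ≠ 0 ∧ q ≠ 0 ∧ p.natDegree ≤ d ∧ q.natDegree ≤ d ∧
    z = sy (pqk x p) (pqk x q)}

end Pool.Agent.CSG
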