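import Pool.Agent.CSG.Defs

/-!
# Integral twists

The finitely many coefficients of `f(t / b, X)` are algebraic numbers of `k₀`, so that for some natural number
`D > 0` all `D * c` are algebraic integers. Then all `D ^ (d - i) * c`, `i < d`, are algebraic integers; the
coefficient of `X ^ d` is `1`.
-/

open scoped BigOperators Polynomial
open Polynomial

namespace Pool.Agent.CSG

private theorem twi_one {c : ℂ} (hc : IsAlgebraic ℚ c) :
    ∃ m : ℕ, 0 < m ∧ IsIntegral ℤ ((m : ℂ) * c) := by
  have h1 : IsAlgebraic ℤ c := (IsFractionRing.isAlgebraic_iff ℤ ℚ ℂ).2 hc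
  obtain ⟨y, hy, hi⟩ := h1.exists_integral_multiple
  refine ⟨y.natAbs, Int.natAbs_pos.2 hy, ?_⟩
  rw [zsmul_eq_mul] at hi
  rcases Int.natAbs_eq y with h | h
  · have h2 : ((y.natAbs : ℕ) : ℂ) = (y : ℂ) := by
      have := congrArg (Int.cast : ℤ → ℂ) h
      rw [this, Int.cast_natCast]
    rw [h2]
    exact hi
  · have h2 : ((y.natAbs : ℕ) : ℂ) = -(y : ℂ) := by
      have := congrArg (Int.cast : ℤ → ℂ) h
      rw [this, Int.cast_neg, Int.cast_natCast, neg_neg]
    rw [h2, neg_mul]
    exact hi.neg

private theorem twi_nat (m : ℕ) : IsIntegral ℤ (m : ℂ) := by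
  have := isIntegral_algebraMap (R := ℤ) (A := ℂ) (x := (m : ℤ))
  simpa using this

private theorem twi_fin {ι : Type*} (s : Finset ι) (c : ι → ℂ)
    (hc : ∀ i ∈ s, IsAlgebraic ℚ (c i)) :
    ∃ m : ℕ, 0 < m ∧ ∀ i ∈ s, IsIntegral ℤ ((m : ℂ) * c i) := by
  classical
  induction s using Finset.induction_on with
  | empty => exact ⟨1, Nat.one_pos, fun i hi => absurd hi (Finset.notMem_empty i)⟩
  | insert a s ha ih =>
    obtain ⟨m, hm, h⟩ := ih fun i hi => hc i (Finset.mem_insert_of_mem hi)
    obtain ⟨l, hl, h'⟩ := twi_one (hc a (Finset.mem_insert_self a s))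
    refine ⟨m * l, Nat.mul_pos hm hl, fun i hi => ?_⟩
    rcases Finset.mem_insert.1 hi with rfl | hi
    · rw [Nat.cast_mul, mul_assoc]
      exact (twi_nat m).mul h'
    · rw [Nat.cast_mul, mul_comm (m : ℂ), mul_assoc]
      exact (twi_nat l).mul (h i hi)

private theorem twi_coeff {k : Type} [Field k] (j : k →+* ℂ) (b : ℂ) (D : ℕ) (f : k[X][X])
    (i n : ℕ) : ((tw j b D f).coeff i).coeff n = if i ≤ f.natDegree then
      (D : ℂ) ^ (f.natDegree - i) * (j ((f.coeff i).coeff n) * b⁻¹ ^ n) else 0 := by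
  unfold tw
  rw [finsetSum_coeff]
  simp only [coeff_monomial]
  rw [Finset.sum_ite_eq']
  by_cases h : i ≤ f.natDegree
  · rw [if_pos h, if_pos (Finset.mem_range.2 (by omega)), coeff_C_mul, comp_C_mul_X_coeff,
      coeff_map]
  · rw [if_neg h, if_neg (fun h' => h (by have := Finset.mem_range.1 h'; omega)), coeff_zero]

theorem exists_twist {k : Type} [Field k] [CharZero k] (hk : Algebra.IsAlgebraic ℚ k)
    (j : k →+* ℂ) {b : ℂ} (hb : IsAlgebraic ℚ b) (hb0 : b ≠ 0) {f : k[X][X]} (hf : f.Monic)
    (hpos : 0 < f.natDegree) (k₀ : IntermediateField ℚ ℂ) (hj : ∀ q : k, j q ∈ k₀)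
    (hb' : b ∈ k₀) : ∃ D : ℕ, 0 < D ∧ (tw j b D f).Monic ∧ IntIn k₀ (tw j b D f) ∧
      (tw j b D f).natDegree = f.natDegree := by
  classical
  have hjalg : ∀ q : k, IsAlgebraic ℚ (j q) := fun q =>
    (hk.isAlgebraic q).algHom (j.toRatAlgHom)
  obtain ⟨M, hM⟩ : ∃ M : ℕ, ∀ i n, M ≤ n → (f.coeff i).coeff n = 0 := by
    refine ⟨(f.support.sup fun i => (f.coeff i).natDegree) + 1, fun i n hn => ?_⟩
    by_cases hi : i ∈ f.support
    · refine coeff_eq_zero_of_natDegree_lt ?_
      have h1 : (f.coeff i).natDegree ≤ f.support.sup fun i => (f.coeff i).natDegree :=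
        Finset.le_sup (f := fun i => (f.coeff i).natDegree) hi
      omega
    · rw [notMem_support_iff.1 hi, coeff_zero]
  obtain ⟨D, hD, hint⟩ := twi_fin (Finset.range f.natDegree ×ˢ Finset.range M)
    (fun x => j ((f.coeff x.1).coeff x.2) * b⁻¹ ^ x.2)
    (fun x _ => (hjalg _).mul (hb.inv.pow _))
  have hdeg : (tw j b D f).coeff f.natDegree = 1 := by
    refine Polynomial.ext fun n => ?_
    rw [twi_coeff, if_pos le_rfl, Nat.sub_self, pow_zero, one_mul]
    have h1 : f.coeff f.natDegree = 1 := hf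
    rw [h1, coeff_one, coeff_one]
    by_cases hn : n = 0
    · subst hn
      simp
    · rw [if_neg hn, if_neg hn, map_zero, zero_mul]
  have hle : (tw j b D f).natDegree ≤ f.natDegree := by
    refine natDegree_le_iff_coeff_eq_zero.2 fun i hi => ?_
    refine Polynomial.ext fun n => ?_
    rw [twi_coeff, if_neg (by omega), coeff_zero]
  have hnd : (tw j b D f).natDegree = f.natDegree := by
    refine le_antisymm hle (le_natDegree_of_ne_zero ?_)
    rw [hdeg]
    exact one_ne_zero
  refine ⟨D, hD, ?_, ?_, hnd⟩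
  · rw [Monic, leadingCoeff, hnd]
    exact hdeg
  · intro i n
    rw [twi_coeff]
    by_cases hi : i ≤ f.natDegree
    · rw [if_pos hi]
      refine ⟨?_, ?_⟩
      · exact mul_mem (pow_mem (natCast_mem k₀ D) _)
          (mul_mem (hj _) (pow_mem (inv_mem hb') _))
      · rcases Nat.lt_or_ge i f.natDegree with h | h
        · by_cases hn : n < M
          · have h1 := hint (i, n) (Finset.mem_product.2
              ⟨Finset.mem_range.2 h, Finset.mem_range.2 hn⟩)
            simp only at h1
            obtain ⟨e, he⟩ : ∃ e, f.natDegree - i = e + 1 := ⟨f.natDegree - i - 1, by omega⟩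
            rw [he, pow_succ, mul_assoc]
            exact ((twi_nat D).pow e).mul h1
          · rw [hM i n (by omega), map_zero, zero_mul, mul_zero]
            exact isIntegral_zero
        · have hi' : i = f.natDegree := le_antisymm hi h
          have h1 : f.coeff f.natDegree = 1 := hf
          rw [hi', Nat.sub_self, pow_zero, one_mul, h1, coeff_one]
          by_cases hn : n = 0
          · subst hn
            simp only [if_true, map_one, pow_zero, mul_one]
            exact isIntegral_one
          · rw [if_neg hn, map_zero, zero_mul]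
            exact isIntegral_zero
    · rw [if_neg hi]
      exact ⟨zero_mem _, isIntegral_zero⟩

end Pool.Agent.CSG
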