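import Pool.Agent.CSG.PlH
import Pool.Agent.CSG.Gge
import Pool.Agent.CSG.Twi

/-!
# The closed points over the roots of unity

With `b ^ m = j a` the roots `η` of `π.map j`, `Cyk a m π`, are `ζ / b`, `ζ` a root of unity. For almost all `ζ` the
element `π(h)` generates a maximal ideal (`span_maximalK`), and `unique_of_max` applies. The exceptional set `E` is
finite: a monic irreducible polynomial is determined by one root.
-/

open scoped BigOperators Polynomial
open Polynomial

namespace Pool.Agent.CSG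

open Pool.Agent.CST

/-- a monic irreducible polynomial is determined by one root -/
private theorem pts_unique {k : Type} [Field k] (j : k →+* ℂ) (η : ℂ) :
    {π : k[X] | π.Monic ∧ Irreducible π ∧ (π.map j).eval η = 0}.Subsingleton := by
  rintro π ⟨hm, hi, h0⟩ ρ ⟨hm', hi', h0'⟩
  by_contra hne
  have hnd : ¬ π ∣ ρ := by
    intro hd
    exact hne (eq_of_monic_of_associated hm hm' (hi.associated_of_dvd hi' hd))
  have hcop : IsCoprime π ρ := (hi.coprime_iff_not_dvd).2 hnd
  obtain ⟨u, v, huv⟩ := hcop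
  have h1 := congrArg (fun q => (q.map j).eval η) huv
  simp only [Polynomial.map_add, Polynomial.map_mul, eval_add, eval_mul, h0, h0', mul_zero, add_zero, Polynomial.map_one,
    eval_one] at h1
  exact zero_ne_one h1

theorem exists_points {k K : Type} [Field k] [CharZero k] [Field K] [CharZero K] [Algebra k K]
    (hk : FiniteDimensional ℚ k) (hc : CstK k K) {h : K} (hh : Transcendental ℚ h)
    (hK : FiniteDimensional (IntermediateField.adjoin ℚ {h}) K) (hp : NpwK k h) {a : k}
    (ha : a ≠ 0) {m : ℕ} (hm : 0 < m) :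
    ∃ E : Set k[X], E.Finite ∧ ∀ π : k[X], Cyk a m π → π ∉ E → ∃ O, OnePt h π O := by
  have hka : Algebra.IsAlgebraic ℚ k := Algebra.IsAlgebraic.of_finite ℚ k
  let jA : k →ₐ[ℚ] ℂ := IsAlgClosed.lift
  let j : k →+* ℂ := jA.toRingHom
  obtain ⟨b, hb⟩ := IsAlgClosed.exists_pow_nat_eq (j a) hm
  have hja : j a ≠ 0 := (_root_.map_ne_zero j).2 ha
  have hb0 : b ≠ 0 := by
    rintro rfl
    rw [zero_pow hm.ne'] at hb
    exact hja hb.symm
  have hjalg : ∀ q : k, IsAlgebraic ℚ (j q) := fun q => (hka.isAlgebraic q).algHom jA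
  have hba : IsAlgebraic ℚ b := by
    have h1 : IsAlgebraic ℚ (b ^ m) := by
      rw [hb]
      exact hjalg a
    exact h1.of_pow hm
  let k₀ : IntermediateField ℚ ℂ := jA.fieldRange ⊔ IntermediateField.adjoin ℚ {b}
  have hfd1 : FiniteDimensional ℚ jA.fieldRange :=
    inferInstanceAs (FiniteDimensional ℚ (LinearMap.range jA.toLinearMap))
  have hfd2 : FiniteDimensional ℚ (IntermediateField.adjoin ℚ {b}) :=
    IntermediateField.adjoin.finiteDimensional hba.isIntegral
  have hfd : FiniteDimensional ℚ k₀ := IntermediateField.finiteDimensional_sup _ _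
  have hj : ∀ q : k, j q ∈ k₀ := fun q => (le_sup_left : jA.fieldRange ≤ k₀) ⟨q, rfl⟩
  have hbk : b ∈ k₀ := (le_sup_right : IntermediateField.adjoin ℚ {b} ≤ k₀)
    (IntermediateField.mem_adjoin_simple_self ℚ b)
  have hht : Transcendental k h := by
    intro h1
    exact hh (h1.restrictScalars ℚ)
  obtain ⟨θ, f, hmod⟩ := exists_modelK (k := k) hht (finite_over (k := k) hK)
  obtain ⟨D, hD, hmon, hint, hdeg⟩ := exists_twist hka j hba hb0 hmod.monic hmod.pos k₀ hj hbk
  have hgeo := geo_of_modelK hka hc j hba hb0 hD hmod hp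
  obtain ⟨n₀, H⟩ := span_maximalK hka j hb0 hD hmod hgeo k₀ hfd hj hbk hmon hint hdeg hK
  refine ⟨⋃ n ∈ Finset.range n₀, ⋃ ζ ∈ primitiveRoots n ℂ,
    {π : k[X] | π.Monic ∧ Irreducible π ∧ (π.map j).eval (ζ / b) = 0}, ?_, ?_⟩
  · refine Set.Finite.biUnion (Finset.finite_toSet _) fun n _ => ?_
    refine Set.Finite.biUnion (Finset.finite_toSet _) fun ζ _ => ?_
    exact (pts_unique j (ζ / b)).finite
  · intro π hπ hE
    obtain ⟨hπm, hπi, M, hM, hdvd⟩ := hπ
    have hdeg0 : (π.map j).degree ≠ 0 := by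
      rw [degree_map]
      exact (degree_pos_of_irreducible hπi).ne'
    obtain ⟨η, hη⟩ := IsAlgClosed.exists_root (π.map j) hdeg0
    have hη0 : (π.map j).eval η = 0 := hη
    have h1 : (j a * η ^ m) ^ M = 1 := by
      obtain ⟨q, hq⟩ := hdvd
      have h2 := congrArg (fun q => (q.map j).eval η) hq
      simp only [Polynomial.map_sub, Polynomial.map_pow, Polynomial.map_mul, Polynomial.map_one, map_C, map_X, eval_sub, eval_pow,
        eval_mul, eval_C, eval_X, eval_one, hη0, zero_mul] at h2
      exact sub_eq_zero.1 h2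
    have h2 : (b * η) ^ (m * M) = 1 := by
      rw [pow_mul, mul_pow, hb, h1]
    have hpos : 0 < orderOf (b * η) := orderOf_pos_iff.2
      (isOfFinOrder_iff_pow_eq_one.2 ⟨m * M, Nat.mul_pos hm hM, h2⟩)
    have hprim : IsPrimitiveRoot (b * η) (orderOf (b * η)) := IsPrimitiveRoot.orderOf _
    have h3 : (b * η) / b = η := by
      rw [mul_comm, mul_div_cancel_right₀ _ hb0]
    have h4 : n₀ ≤ orderOf (b * η) := by
      by_contra hlt
      apply hE
      refine Set.mem_biUnion (Finset.mem_range.2 (not_le.1 hlt)) ?_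
      refine Set.mem_biUnion ((mem_primitiveRoots hpos).2 hprim) ?_
      refine ⟨hπm, hπi, ?_⟩
      rw [h3]
      exact hη0
    exact unique_of_max hka hh hK hπm hπi (H _ h4 _ hprim π hπm hπi (by
      rw [h3]
      exact hη0))

end Pool.Agent.CSG
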