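import Pool.Agent.CSG.Defs
import Pool.Agent.CST.Reg

/-!
# Algebraic elements keep their degree over `K`

`minpoly K α` divides `(minpoly k α).map`, is monic, so its coefficients are integral over `k`
(`integralClosure.mem_lifts_of_monic_of_dvd_map`), hence in `k` (`CstK k K`).
-/

open scoped BigOperators Polynomial
open Polynomial

namespace Pool.Agent.CSG

theorem minpoly_mapK {k K L : Type} [Field k] [CharZero k] [Field K] [CharZero K] [Field L]
    [CharZero L] [Algebra k K] [Algebra K L] [Algebra k L] [IsScalarTower k K L]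
    (hc : CstK k K) {α : L} (hα : IsAlgebraic k α) :
    minpoly K α = (minpoly k α).map (algebraMap k K) := by
  have hi : IsIntegral k α := hα.isIntegral
  have hiK : IsIntegral K α := hi.tower_top
  have hdvd : minpoly K α ∣ (minpoly k α).map (algebraMap k K) := minpoly.dvd_map_of_isScalarTower k K α
  have hl := integralClosure.mem_lifts_of_monic_of_dvd_map K (minpoly.monic hi)
    (minpoly.monic hiK) hdvd
  have hl2 : minpoly K α ∈ Polynomial.lifts (algebraMap k K) := by
    rw [Polynomial.lifts_iff_coeff_lifts] at hl ⊢
    intro n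
    obtain ⟨a, ha⟩ := hl n
    have h1 : IsAlgebraic k ((minpoly K α).coeff n) := by
      rw [← ha]
      have h2 : IsIntegral k (a : K) := a.2
      exact h2.isAlgebraic
    obtain ⟨q, hq⟩ := hc _ h1
    exact ⟨q, hq⟩
  obtain ⟨q, hq1, hq2, hq3⟩ := Polynomial.lifts_and_degree_eq_and_monic hl2 (minpoly.monic hiK)
  have hz : aeval α q = 0 := by
    have h1 : aeval α (minpoly K α) = 0 := minpoly.aeval K α
    rw [← hq1] at h1
    rw [← h1, aeval_map_algebraMap]
  have h4 : minpoly k α ∣ q := minpoly.dvd k α hz
  have h5 : (minpoly k α).map (algebraMap k K) ∣ minpoly K α := by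
    rw [← hq1]
    exact Polynomial.map_dvd _ h4
  exact Polynomial.eq_of_monic_of_associated (minpoly.monic hiK)
    ((minpoly.monic hi).map _) (associated_of_dvd_dvd hdvd h5)

end Pool.Agent.CSG
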