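import Pool.Agent.CSG.Pts
import Pool.Agent.CSG.Orc
import Pool.Agent.CSG.Cyk
import Pool.Agent.CSG.Tak
import Pool.Agent.CST.Red

/-!
# `{g, f}` vanishes if `f` is a unit at the finitely many special points

As `CST.Red`: `f` is multiplied by powers of the functions `π(h) / π(0)`, `Cyk a m π`, whose symbols with `g` vanish,
until its order is zero at all places which are not poles of `h` and a fixed multiple of the order of `h` at the
poles of `h`. It is then a constant, and a root of unity by the tame symbol at a zero of `g`.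
-/

open scoped BigOperators Polynomial
open Polynomial

namespace Pool.Agent.CSG

open Pool.Agent.CST Pool.Agent.Helper11 Pool.Agent.ISI

/-- the special points -/
def SpcK {k K : Type} [Field k] [Field K] [CharZero K] [Algebra k K] (E : Set k[X]) (g h : K)
    (O : ValuationSubring K) : Prop :=
  IsPl O ∧ (O.valuation g ≠ 1 ∨ ∃ π ∈ E, π ≠ 0 ∧ O.valuation (aeval h π) < 1)

theorem spcK_finite {k K : Type} [Field k] [CharZero k] [Field K] [CharZero K] [Algebra k K]
    {E : Set k[X]} (hE : E.Finite) {g h : K} (hh : Transcendental k h) (hg : g ≠ 0)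
    (hK : FiniteDimensional (IntermediateField.adjoin ℚ {g}) K) :
    {O : ValuationSubring K | SpcK E g h O}.Finite := by
  have h1 : ({O : ValuationSubring K | IsPl O ∧ O.valuation g ≠ 1} ∪
      ⋃ π ∈ E, {O : ValuationSubring K | π ≠ 0 ∧ IsPl O ∧ O.valuation (aeval h π) ≠ 1}).Finite := by
    refine Set.Finite.union (finite_suppK hK hg) (hE.biUnion fun π _ => ?_)
    by_cases hπ : π = 0
    · refine Set.Finite.subset Set.finite_empty ?_
      rintro O ⟨h2, -⟩
      exact h2 hπ
    · refine (finite_suppK hK (h := aeval h π) fun h2 => hπ ((transcendental_iff.1 hh) _ h2)).subset ?_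
      rintro O ⟨-, h2⟩
      exact h2
  refine h1.subset ?_
  rintro O ⟨hO, h2 | ⟨π, hπ, hπ0, h2⟩⟩
  · exact Or.inl ⟨hO, h2⟩
  · refine Or.inr ?_
    rw [Set.mem_iUnion₂]
    exact ⟨π, hπ, hπ0, hO, h2.ne⟩

private theorem rek_inv {K : Type} [Field K] [CharZero K] (O : ValuationSubring K) (h : Kˣ) :
    vo O h⁻¹ = -vo O h := by
  have h1 := vo_zpow O h (-1)
  rw [zpow_neg_one] at h1
  rw [h1]
  ring

private theorem rek_tr {k K : Type} [Field k] [CharZero k] [Field K] [CharZero K] [Algebra k K]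
    (hk : Algebra.IsAlgebraic ℚ k) {g h : K} (hg : Transcendental ℚ g) {a : k} {m : ℕ}
    (hgh : g = algebraMap k K a * h ^ m) : Transcendental k h := by
  intro hh
  apply hg
  have h1 : IsAlgebraic k g := by
    rw [hgh]
    exact (isAlgebraic_algebraMap a).mul (hh.pow m)
  exact h1.restrictScalars ℚ

theorem sy_eq_zeroK {k K : Type} [Field k] [CharZero k] [Field K] [CharZero K] [Algebra k K]
    (hk : Algebra.IsAlgebraic ℚ k) (hc : CstK k K) {g : Kˣ} (hg : Transcendental ℚ (g : K))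
    (hK : FiniteDimensional (IntermediateField.adjoin ℚ {(g : K)}) K) {a : k} (ha : a ≠ 0)
    {m : ℕ} (hm : 0 < m) {h : K} (hgh : (g : K) = algebraMap k K a * h ^ m) {E : Set k[X]}
    (H : ∀ π : k[X], Cyk a m π → π ∉ E → ∃ O, OnePt h π O) {f : Kˣ}
    (hf : sy g f ∈ geomM K) (h0 : ∀ O, SpcK E (g : K) h O → vo O f = 0) : sy g f = 0 := by
  classical
  have hht : Transcendental k h := rek_tr hk hg hgh
  have hh0 : h ≠ 0 := by
    rintro rfl
    exact hht isAlgebraic_zero
  have ha0 : algebraMap k K a ≠ 0 := (_root_.map_ne_zero _).2 ha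
  set t : Kˣ := Units.mk0 h hh0 with ht
  have hth : (t : K) = h := rfl
  set ua : Kˣ := Units.mk0 _ ha0 with hua
  have hgt : g = ua * t ^ (m : ℤ) := by
    apply Units.ext
    rw [Units.val_mul, zpow_natCast, Units.val_pow_eq_pow_val, hth, hgh]
    rfl
  have hvg : ∀ O, IsPl O → vo O g = m * vo O t := by
    intro O hO
    rw [hgt, vo_mul, vo_zpow, vo_const hk hO (u := ua) (c := a) rfl, zero_add]
  have hunr : ∀ O : ValuationSubring K, IsPl O → sy g f ∈ unrM O 2 := by
    intro O hO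
    unfold geomM at hf
    rw [Submodule.mem_iInf] at hf
    have h1 := hf O
    rw [Submodule.mem_iInf] at h1
    exact h1 hO
  have hw : ∀ π : k[X], ∃ w : Kˣ, Cyk a m π → (w : K) = aeval h π := by
    intro π
    by_cases hπ : Cyk a m π
    · have h1 : aeval h π ≠ 0 := fun h2 => hπ.2.1.ne_zero ((transcendental_iff.1 hht) _ h2)
      exact ⟨Units.mk0 _ h1, fun _ => rfl⟩
    · exact ⟨1, fun h1 => absurd h1 hπ⟩
  choose w hw using hw
  have hcu : ∀ π : k[X], ∃ c : Kˣ, Cyk a m π → (c : K) = algebraMap k K (π.coeff 0)⁻¹ := by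
    intro π
    by_cases hπ : Cyk a m π
    · have h1 : algebraMap k K (π.coeff 0)⁻¹ ≠ 0 :=
        (_root_.map_ne_zero _).2 (inv_ne_zero (coeff_zero_ne hm hπ))
      exact ⟨Units.mk0 _ h1, fun _ => rfl⟩
    · exact ⟨1, fun h1 => absurd h1 hπ⟩
  choose cu hcu using hcu
  set u : k[X] → Kˣ := fun π => cu π * w π with hu
  have huv : ∀ π, Cyk a m π → (u π : K) = algebraMap k K (π.coeff 0)⁻¹ * aeval h π := by
    intro π hπ
    rw [hu]
    simp only [Units.val_mul]
    rw [hw π hπ, hcu π hπ]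
  have hvu : ∀ O, IsPl O → ∀ π, Cyk a m π → vo O (u π) = vo O (w π) := by
    intro O hO π hπ
    rw [hu]
    simp only
    rw [vo_mul, vo_const hk hO (hcu π hπ), zero_add]
  -- `h` is in the places over `π(h)`
  have hmem : ∀ O, IsPl O → ∀ π, Cyk a m π → O.valuation (aeval h π) < 1 → h ∈ O := by
    intro O hO π hπ hv
    rw [← hth, ← vo_nonneg_iff hO]
    by_contra hcon
    have h1 := vo_pi_neg hk hO (coeff_zero_ne hm hπ) (not_le.1 hcon) (huv π hπ)
    rw [hvu O hO π hπ] at h1
    have h2 : 0 < vo O (w π) := by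
      rw [vo_pos_iff hO, hw π hπ]
      exact hv
    have h3 : (π.natDegree : ℤ) * vo O t ≤ 0 :=
      mul_nonpos_of_nonneg_of_nonpos (Int.natCast_nonneg _) (not_le.1 hcon).le
    omega
  choose! On hOn using H
  -- the points where the order of `f` is not zero
  have hA : ∀ O : ValuationSubring K, IsPl O → vo O f ≠ 0 →
      ∃ π, (Cyk a m π ∧ π ∉ E) ∧ O = On π := by
    intro O hO hv
    have hns : ¬ SpcK E (g : K) h O := fun hs => hv (h0 O hs)
    unfold SpcK at hns
    push Not at hns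
    obtain ⟨hv1, hv2⟩ := hns hO
    rcases val_or_torsion hO (hunr O hO) hv1 with h2 | ⟨M, hM, h2⟩
    · exact absurd ((vo_eq_zero_iff hO f).2 h2) hv
    · have h3 : vo O t = 0 := by
        have h4 := hvg O hO
        rw [(vo_eq_zero_iff hO g).2 hv1] at h4
        rcases mul_eq_zero.1 h4.symm with h5 | h5
        · omega
        · exact h5
      have hhO : h ∈ O := (vo_nonneg_iff hO t).1 h3.ge
      obtain ⟨π, hπ, h5⟩ := exists_cyk hk hO ha hm hgh hhO hM h2
      have hπE : π ∉ E := fun h6 => absurd h5 (not_lt.2 (hv2 π h6 hπ.2.1.ne_zero))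
      exact ⟨π, ⟨hπ, hπE⟩, (hOn π hπ hπE).2.2.1 O hO h5⟩
  have hinj : Set.InjOn On {π | Cyk a m π ∧ π ∉ E} := by
    intro π hπ π' hπ' e
    have h1 := hOn π hπ.1 hπ.2
    have h2 := hOn π' hπ'.1 hπ'.2
    have h3 := h1.2.1
    have h4 := h1.1
    rw [e] at h3 h4
    exact cyk_unique hk h4 (hmem _ h4 π hπ.1 h3) hπ.1.1 hπ.1.2.1 hπ'.1.1 hπ'.1.2.1 h3 h2.2.1
  have hfin : {π | (Cyk a m π ∧ π ∉ E) ∧ vo (On π) f ≠ 0}.Finite := by
    refine Set.Finite.of_finite_image ((finite_suppK hK f.ne_zero).subset ?_)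
      (f := On) (hinj.mono fun n hn => hn.1)
    rintro _ ⟨π, ⟨hπ, h1⟩, rfl⟩
    have h2 := (hOn π hπ.1 hπ.2).1
    exact ⟨h2, fun h3 => h1 ((vo_eq_zero_iff h2 f).2 h3)⟩
  set s : Finset k[X] := hfin.toFinset with hs
  have hsm : ∀ π, π ∈ s ↔ (Cyk a m π ∧ π ∉ E) ∧ vo (On π) f ≠ 0 := fun π => by
    rw [hs, Set.Finite.mem_toFinset]
    rfl
  set b : k[X] → ℤ := fun π => vo (On π) f with hb
  set f' : Kˣ := f * ∏ π ∈ s, u π ^ (-b π) with hf'
  have hvo : ∀ O, vo O f' = vo O f + ∑ π ∈ s, (-b π) * vo O (u π) := by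
    intro O
    rw [hf', vo_mul, vo_prod]
    congr 1
    exact Finset.sum_congr rfl fun π _ => vo_zpow O _ _
  have hsy : sy g f' = sy g f := by
    rw [hf', sy_mul_right, sy_prod_right, Finset.sum_eq_zero, add_zero]
    intro π hπ
    have h1 := ((hsm π).1 hπ).1.1
    rw [sy_zpow_right, sy_cyk ha hm h1 hht hgh (huv π h1), smul_zero]
  set r : ℤ := ∑ π ∈ s, (-b π) * (π.natDegree : ℤ) with hr
  have hspg : ∀ O, IsPl O → vo O t ≠ 0 → vo O f = 0 := by
    intro O hO hv
    refine h0 O ⟨hO, Or.inl fun h1 => hv ?_⟩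
    have h4 := hvg O hO
    rw [(vo_eq_zero_iff hO g).2 h1] at h4
    rcases mul_eq_zero.1 h4.symm with h5 | h5
    · omega
    · exact h5
  have hneg : ∀ O, IsPl O → vo O t < 0 → vo O f' = r * vo O t := by
    intro O hO hv
    rw [hvo, hspg O hO hv.ne, zero_add, hr, Finset.sum_mul]
    refine Finset.sum_congr rfl fun π hπ => ?_
    have h1 := ((hsm π).1 hπ).1.1
    rw [vo_pi_neg hk hO (coeff_zero_ne hm h1) hv (huv π h1)]
    ring
  have hpos : ∀ O, IsPl O → 0 < vo O t → vo O f' = 0 := by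
    intro O hO hv
    rw [hvo, hspg O hO hv.ne', zero_add]
    refine Finset.sum_eq_zero fun π hπ => ?_
    have h1 := ((hsm π).1 hπ).1.1
    rw [vo_pi_pos hk hO (coeff_zero_ne hm h1) hv (huv π h1), mul_zero]
  have hzer : ∀ O, IsPl O → vo O t = 0 → vo O f' = 0 := by
    intro O hO hv
    have hun : ∀ π, Cyk a m π → π ∉ E → vo O (u π) ≠ 0 → O = On π := by
      intro π hπ hπE h1
      have h2 := vo_pi_nonneg hk hO hv.ge (huv π hπ)
      have h4 : 0 < vo O (w π) := by
        rw [← hvu O hO π hπ]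
        omega
      have h3 : O.valuation (w π : K) < 1 := (vo_pos_iff hO _).1 h4
      rw [hw π hπ] at h3
      exact (hOn π hπ hπE).2.2.1 O hO h3
    rw [hvo]
    by_cases hex : ∃ π ∈ s, O = On π
    · obtain ⟨π, hπs, rfl⟩ := hex
      have hπ := ((hsm π).1 hπs).1
      have hpt := hOn π hπ.1 hπ.2
      have h1 : vo (On π) (u π) = 1 := by
        rw [hvu _ hO π hπ.1]
        refine vo_uniform hO ?_ ?_
        · rw [hw π hπ.1]
          exact hpt.2.1
        · rw [hw π hπ.1]
          exact hpt.2.2.2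
      rw [Finset.sum_eq_single π, h1]
      · simp [hb]
      · intro π' hπ's hne
        have hπ' := ((hsm π').1 hπ's).1
        have h2 : vo (On π) (u π') = 0 := by
          by_contra h3
          exact hne (hinj hπ hπ' (hun π' hπ'.1 hπ'.2 h3)).symm
        rw [h2, mul_zero]
      · exact fun h2 => absurd hπs h2
    · push Not at hex
      have h1 : vo O f = 0 := by
        by_contra h2
        obtain ⟨π, hπ, rfl⟩ := hA O hO h2
        exact hex π ((hsm π).2 ⟨hπ, h2⟩) rfl
      rw [h1, zero_add]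
      refine Finset.sum_eq_zero fun π hπs => ?_
      have hπ := ((hsm π).1 hπs).1
      have h2 : vo O (u π) = 0 := by
        by_contra h3
        exact hex π hπs (hun π hπ.1 hπ.2 h3)
      rw [h2, mul_zero]
  -- `f'` is a constant
  have hcst : ∃ q : k, (f' : K) = algebraMap k K q := by
    rcases le_total r 0 with h1 | h1
    · obtain ⟨q, hq⟩ := const_of_mem hc hK (h := (f' : K)) fun O hO => by
        rw [← vo_nonneg_iff hO]
        rcases lt_trichotomy (vo O t) 0 with h2 | h2 | h2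
        · rw [hneg O hO h2]
          exact mul_nonneg_of_nonpos_of_nonpos h1 h2.le
        · rw [hzer O hO h2]
        · rw [hpos O hO h2]
      exact ⟨q, hq.symm⟩
    · obtain ⟨q, hq⟩ := const_of_mem hc hK (h := ((f'⁻¹ : Kˣ) : K)) fun O hO => by
        rw [← vo_nonneg_iff hO, rek_inv]
        rcases lt_trichotomy (vo O t) 0 with h2 | h2 | h2
        · rw [hneg O hO h2, ← neg_mul]
          exact mul_nonneg_of_nonpos_of_nonpos (by omega) h2.le
        · rw [hzer O hO h2, neg_zero]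
        · rw [hpos O hO h2, neg_zero]
      refine ⟨q⁻¹, ?_⟩
      rw [map_inv₀, hq, Units.val_inv_eq_inv_val, inv_inv]
  obtain ⟨q, hq⟩ := hcst
  obtain ⟨O₀, hO₀, hg₀⟩ := exists_zero hg hK
  rw [← hsy]
  obtain ⟨M, hM, h1⟩ := const_eqK hk hO₀ hq (by rw [hsy]; exact hunr O₀ hO₀) hg₀
  exact sy_torsion hM h1

end Pool.Agent.CSG
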