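import Pool.Agent.CSG.Trc
import Pool.Agent.CSG.Cof
import Pool.Agent.CST.Spa
import Pool.Agent.CST.Dir

/-!
# Sparse representations over `k₀`, and Dirichlet

`sparse_coeff`: by `coeffsK` and `trace_coord` a coefficient `s` satisfies `δ s = ∑ β i * P_i(ζ)`, and every
`P_i(ζ)` is sparse by `CST.sparse`. `exists_repK`: `CST.dirichlet` for the union of the exponent sets, as in
`CST.exists_rep`.
-/

open scoped BigOperators Polynomial
open Polynomial

namespace Pool.Agent.CSG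

open Pool.Agent.CST

private theorem spk_comb (k₀ : IntermediateField ℚ ℂ) {e l R₀ δ : ℕ} (hδ : 0 < δ) {ζ s : ℂ}
    (β : Fin e → ℂ) (hβ : ∀ i, β i ∈ k₀) (t : Fin e → ℂ) (ht : ∀ i, Sparse l R₀ ζ (t i))
    (hs : (δ : ℂ) * s = ∑ i, β i * t i) : SparseK k₀ l (e * R₀) ζ s := by
  classical
  choose J c hJ hc hsum using ht
  refine ⟨Finset.univ.biUnion J,
    fun j => ∑ i, if j ∈ J i then (δ : ℂ)⁻¹ * β i * c i j else 0, ?_, ?_, ?_⟩
  · calc (Finset.univ.biUnion J).card ≤ ∑ i : Fin e, (J i).card := Finset.card_biUnion_le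
      _ ≤ ∑ _i : Fin e, R₀ := Finset.sum_le_sum fun i _ => hJ i
      _ = e * R₀ := by rw [Finset.sum_const, Finset.card_univ, Fintype.card_fin, smul_eq_mul]
  · intro j
    refine sum_mem fun i _ => ?_
    split_ifs
    · refine mul_mem (mul_mem (inv_mem (natCast_mem _ _)) ?_) ?_
      · exact (le_sup_left : k₀ ≤ Ka k₀ (ζ ^ l)) (hβ i)
      · exact (le_sup_right : Qa (ζ ^ l) ≤ Ka k₀ (ζ ^ l)) (hc i j)
    · exact zero_mem _
  · have hδ0 : (δ : ℂ) ≠ 0 := Nat.cast_ne_zero.2 hδ.ne'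
    have h1 : s = ∑ i, (δ : ℂ)⁻¹ * (β i * t i) := by
      rw [← Finset.mul_sum, ← hs, inv_mul_cancel_left₀ hδ0]
    have h2 : ∑ j ∈ Finset.univ.biUnion J,
        (∑ i, if j ∈ J i then (δ : ℂ)⁻¹ * β i * c i j else 0) * ζ ^ j =
        ∑ i, ∑ j ∈ Finset.univ.biUnion J,
          if j ∈ J i then (δ : ℂ)⁻¹ * β i * c i j * ζ ^ j else 0 := by
      rw [Finset.sum_comm]
      refine Finset.sum_congr rfl fun j _ => ?_
      rw [Finset.sum_mul]
      refine Finset.sum_congr rfl fun i _ => ?_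
      rw [ite_mul, zero_mul]
    rw [h2, h1]
    refine Finset.sum_congr rfl fun i _ => ?_
    rw [← Finset.sum_filter]
    have h3 : (Finset.univ.biUnion J).filter (fun j => j ∈ J i) = J i := by
      ext j
      rw [Finset.mem_filter, Finset.mem_biUnion]
      constructor
      · exact fun h => h.2
      · exact fun h => ⟨⟨i, Finset.mem_univ i, h⟩, h⟩
    rw [h3, hsum i, Finset.mul_sum, Finset.mul_sum]
    refine Finset.sum_congr rfl fun j _ => ?_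
    ring

theorem sparse_coeff (k₀ : IntermediateField ℚ ℂ) (hk : FiniteDimensional ℚ k₀) (F : ℂ[X][X])
    (hF : F.Monic) (hI : IntIn k₀ F) : ∃ (B R : ℕ), ∀ (n l : ℕ), 0 < n → Spl l n → B ≤ l →
    ∀ ζ : ℂ, IsPrimitiveRoot ζ n → ∀ G H : ℂ[X], G.Monic → H.Monic → F.map (cev ζ) = G * H →
    (∀ i, G.coeff i ∈ Ka k₀ ζ) → (∀ i, H.coeff i ∈ Ka k₀ ζ) →
    ∀ i, SparseK k₀ l R ζ (G.coeff i) := by
  obtain ⟨C, hC0, hco⟩ := coeffsK k₀ hk F hF hI
  obtain ⟨e, β, δ, B, -, hδ, hB, hβ, htr⟩ := trace_coord k₀ hk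
  obtain ⟨B₀, hB₀⟩ := exists_nat_gt (4 * (B * C) ^ 2)
  refine ⟨B₀, e * B₀, fun n l hn hl hBl ζ hζ G H hG hH hGH hGc hHc i => ?_⟩
  obtain ⟨hint, hτ⟩ := hco n hn ζ hζ G H hG hH hGH hGc hHc i
  obtain ⟨P, hP, hPb⟩ := htr n hn ζ hζ ⟨G.coeff i, hGc i⟩ hint C hτ
  have hBC : 0 ≤ B * C := mul_nonneg hB hC0
  refine spk_comb k₀ hδ β hβ (fun i => aeval ζ (P i)) (fun j => ?_) hP
  refine sparse hn hl hζ (P j) hBC (hPb j) ?_ ?_
  · refine hB₀.trans_le ?_
    exact_mod_cast hBl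
  · have h1 : 2 * (B * C) ^ 2 ≤ 4 * (B * C) ^ 2 := by nlinarith [sq_nonneg (B * C)]
    exact h1.trans hB₀.le

theorem exists_repK (k₀ : IntermediateField ℚ ℂ) {l R N Q : ℕ} (hl : 0 < l) (hQ : 0 < Q) {ζ : ℂ}
    (hζ : ζ ≠ 0) (s : Fin N → ℂ) (hs : ∀ i, SparseK k₀ l R ζ (s i)) :
    ∃ a : ℕ, 0 < a ∧ a ≤ Q ^ (N * R) ∧ ∀ η : ℂ, η ^ a = ζ → ∀ i, RepK k₀ l Q η (s i) := by
  classical
  choose J e hJ he hse using hs
  obtain ⟨a, ha, ha2, hd⟩ := dirichlet (Finset.univ.biUnion J) (L := l) (Q := Q) hl hQ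
  have hcard : (Finset.univ.biUnion J).card ≤ N * R := by
    calc (Finset.univ.biUnion J).card ≤ ∑ i : Fin N, (J i).card := Finset.card_biUnion_le
      _ ≤ ∑ _i : Fin N, R := Finset.sum_le_sum fun i _ => hJ i
      _ = N * R := by rw [Finset.sum_const, Finset.card_univ, Fintype.card_fin, smul_eq_mul]
  refine ⟨a, ha, ha2.trans (Nat.pow_le_pow_right hQ hcard), fun η hη i => ?_⟩
  have hη0 : η ≠ 0 := by
    rintro rfl
    rw [zero_pow ha.ne'] at hη
    exact hζ hη.symm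
  have hd' : ∀ j : ℕ, ∃ m r : ℤ, j ∈ J i → (a * j : ℤ) = l * m + r ∧ |r| * Q ≤ l := by
    intro j
    by_cases hj : j ∈ J i
    · obtain ⟨m, r, h1, h2⟩ := hd j (Finset.mem_biUnion.2 ⟨i, Finset.mem_univ _, hj⟩)
      exact ⟨m, r, fun _ => ⟨h1, by exact_mod_cast h2⟩⟩
    · exact ⟨0, 0, fun h => (hj h).elim⟩
  choose m r hmr using hd'
  have hmem : η ^ l ∈ Ka k₀ (η ^ l) :=
    (le_sup_right : Qa (η ^ l) ≤ Ka k₀ (η ^ l)) (IntermediateField.mem_adjoin_simple_self ℚ (η ^ l))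
  have hle : Ka k₀ (ζ ^ l) ≤ Ka k₀ (η ^ l) := by
    refine sup_le_sup_left ?_ _
    rw [IntermediateField.adjoin_le_iff, Set.singleton_subset_iff]
    have h1 : ζ ^ l = (η ^ l) ^ a := by rw [← hη, ← pow_mul, ← pow_mul, mul_comm]
    rw [h1]
    exact pow_mem (IntermediateField.mem_adjoin_simple_self ℚ (η ^ l)) a
  refine ⟨(J i).image r, fun q => ∑ j ∈ (J i).filter fun j => r j = q, e i j * (η ^ l) ^ m j,
    ?_, ?_, ?_⟩
  · intro q hq
    obtain ⟨j, hj, rfl⟩ := Finset.mem_image.1 hq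
    exact (hmr j hj).2
  · intro q
    refine sum_mem fun j _ => mul_mem (hle (he i j)) ?_
    exact zpow_mem hmem (m j)
  · have h2 : ∀ j ∈ J i, e i j * ζ ^ j = e i j * (η ^ l) ^ m j * η ^ r j := by
      intro j hj
      have h3 : ζ ^ j = η ^ ((a * j : ℤ)) := by
        rw [← hη, ← pow_mul]
        exact_mod_cast (zpow_natCast η (a * j)).symm
      rw [h3, (hmr j hj).1, zpow_add₀ hη0, zpow_mul, zpow_natCast, mul_assoc]
    rw [hse i, Finset.sum_congr rfl h2]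
    rw [← Finset.sum_fiberwise_of_maps_to (g := r) (t := (J i).image r)
      fun j hj => Finset.mem_image_of_mem r hj]
    refine Finset.sum_congr rfl fun q _ => ?_
    rw [Finset.sum_mul]
    refine Finset.sum_congr rfl fun j hj => ?_
    rw [(Finset.mem_filter.1 hj).2]

end Pool.Agent.CSG
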