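import Pool.Agent.CSG.Defs
import Pool.Agent.CST.Cof

/-!
# Trace coordinates

Let `b_i` be a basis of `k₀` over `ℚ` and `c_i` the dual basis for the trace form. For `s` in the
compositum `M = k₀(ζ)`, `L = ℚ(ζ)`, one has `s = ∑ b_i Tr_{M/L}(s c_i)`: for every embedding `τ` of
`M` over `L` the sum `∑ b_i τ(c_i)` is `1` if `τ` is the identity and `0` otherwise. With an integer
`δ > 0` such that all `δ c_i` are integral, `Tr_{M/L}(s δ c_i)` is an algebraic integer of `ℚ(ζ)`, hence of the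
form `P_i(ζ)`, and its conjugates are bounded.
-/

open scoped BigOperators Polynomial
open Polynomial

namespace Pool.Agent.CSG

open Pool.Agent.CST

/-- the values of a basis and of its dual basis under the embeddings -/
private theorem Trc_dual (k : Type) [Field k] [CharZero k] [Algebra ℚ k] [FiniteDimensional ℚ k]
    {e : ℕ} (b c : Fin e → k) (he : e = Module.finrank ℚ k)
    (h : ∀ i j, Algebra.trace ℚ k (b i * c j) = if i = j then 1 else 0) (ρ ρ' : k →ₐ[ℚ] ℂ)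
    [Decidable (ρ' = ρ)] :
    ∑ i, ρ (b i) * ρ' (c i) = if ρ' = ρ then 1 else 0 := by
  classical
  let A : Matrix (Fin e) (k →ₐ[ℚ] ℂ) ℂ := Matrix.of fun i ρ => ρ (b i)
  let B : Matrix (k →ₐ[ℚ] ℂ) (Fin e) ℂ := Matrix.of fun ρ i => ρ (c i)
  have h1 : A * B = 1 := by
    ext i j
    rw [Matrix.mul_apply, Matrix.one_apply]
    have h2 := trace_eq_sum_embeddings (K := ℚ) (L := k) ℂ (x := b i * c j)
    rw [h] at h2
    simp only [map_mul] at h2
    refine h2.symm.trans ?_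
    split_ifs <;> simp
  have hcard : Fintype.card (Fin e) = Fintype.card (k →ₐ[ℚ] ℂ) := by
    rw [Fintype.card_fin, AlgHom.card, he]
  have h3 : B * A = 1 := (Matrix.mul_eq_one_comm_of_card_eq _ _ _ hcard).1 h1
  have h4 := congrFun (congrFun h3 ρ') ρ
  rw [Matrix.mul_apply, Matrix.one_apply] at h4
  have h5 : ∑ i, ρ (b i) * ρ' (c i) = ∑ i, B ρ' i * A i ρ :=
    Finset.sum_congr rfl fun i _ => mul_comm _ _
  rw [h5, h4]
  split_ifs <;> rfl

/-- the trace of an element, as a sum over embeddings, is bounded -/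
private theorem Trc_bound (L M : Type) [Field L] [Field M] [CharZero L] [Algebra L M]
    [FiniteDimensional L M] (σ : L →+* ℂ) (x : M) (D : ℝ) (h : ∀ τ : M →+* ℂ, ‖τ x‖ ≤ D) :
    ‖σ (Algebra.trace L M x)‖ ≤ Module.finrank L M * D := by
  let _ : Algebra L ℂ := σ.toAlgebra
  have h1 : σ (Algebra.trace L M x) = ∑ τ : M →ₐ[L] ℂ, τ x := trace_eq_sum_embeddings ℂ
  rw [h1]
  refine (norm_sum_le _ _).trans ?_
  refine (Finset.sum_le_sum fun τ _ => h τ.toRingHom).trans ?_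
  rw [Finset.sum_const, Finset.card_univ, AlgHom.card, nsmul_eq_mul]

/-- the formula -/
private theorem Trc_formula (k L M : Type) [Field k] [CharZero k] [Algebra ℚ k]
    [FiniteDimensional ℚ k] [Field L] [Field M] [CharZero L] [Algebra ℚ M] [Algebra k M]
    [Algebra L M] [FiniteDimensional L M] {e : ℕ} (b c : Fin e → k) (he : e = Module.finrank ℚ k)
    (h : ∀ i j, Algebra.trace ℚ k (b i * c j) = if i = j then 1 else 0) (ι : M →+* ℂ)
    (huniq : ∀ τ : M →+* ℂ, τ.comp (algebraMap L M) = ι.comp (algebraMap L M) →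
      τ.comp (algebraMap k M) = ι.comp (algebraMap k M) → τ = ι) (s : M) :
    ι s = ∑ i, ι (algebraMap k M (b i)) *
      ι (algebraMap L M (Algebra.trace L M (s * algebraMap k M (c i)))) := by
  classical
  let _ : Algebra L ℂ := (ι.comp (algebraMap L M)).toAlgebra
  have h1 : ∀ x : M, ι (algebraMap L M (Algebra.trace L M x)) = ∑ τ : M →ₐ[L] ℂ, τ x :=
    fun x => (trace_eq_sum_embeddings (K := L) (L := M) ℂ (x := x) :)
  let ι' : M →ₐ[L] ℂ := { ι with commutes' := fun _ => rfl }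
  let res : (M →+* ℂ) → (k →ₐ[ℚ] ℂ) := fun τ =>
    (τ.comp (algebraMap k M)).toRatAlgHom
  have h2 : ∀ τ : M →ₐ[L] ℂ, (res τ.toRingHom = res ι) ↔ τ = ι' := by
    intro τ
    constructor
    · intro h3
      have h4 : τ.toRingHom = ι := by
        apply huniq
        · refine RingHom.ext fun x => ?_
          exact τ.commutes x
        · refine RingHom.ext fun x => ?_
          exact DFunLike.congr_fun h3 x
      refine AlgHom.ext fun x => ?_
      exact DFunLike.congr_fun h4 x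
    · rintro rfl
      rfl
  have h3 : ∀ i, ι (algebraMap k M (b i)) *
      ι (algebraMap L M (Algebra.trace L M (s * algebraMap k M (c i)))) =
      ∑ τ : M →ₐ[L] ℂ, τ s * (res ι (b i) * res τ.toRingHom (c i)) := by
    intro i
    rw [h1, Finset.mul_sum]
    refine Finset.sum_congr rfl fun τ _ => ?_
    rw [map_mul]
    change ι (algebraMap k M (b i)) * (τ s * τ (algebraMap k M (c i))) =
      τ s * (ι (algebraMap k M (b i)) * τ (algebraMap k M (c i)))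
    ring
  rw [Finset.sum_congr rfl fun i _ => h3 i, Finset.sum_comm]
  have h4 : ∀ τ : M →ₐ[L] ℂ, ∑ i, τ s * (res ι (b i) * res τ.toRingHom (c i)) =
      if τ = ι' then ι s else 0 := by
    intro τ
    rw [← Finset.mul_sum, Trc_dual k b c he h]
    by_cases h5 : τ = ι'
    · rw [if_pos h5, if_pos ((h2 τ).2 h5), mul_one, h5]
      rfl
    · rw [if_neg h5, if_neg (fun h6 => h5 ((h2 τ).1 h6)), mul_zero]
  rw [Finset.sum_congr rfl fun τ _ => h4 τ, Finset.sum_ite_eq', if_pos (Finset.mem_univ _)]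

/-- an embedding of a compositum is determined by its restrictions -/
private theorem Trc_uniq (k₀ : IntermediateField ℚ ℂ) (ζ : ℂ) (τ : Ka k₀ ζ →+* ℂ)
    (h1 : ∀ x : Qa ζ, τ ⟨x, (le_sup_right : Qa ζ ≤ Ka k₀ ζ) x.2⟩ = x)
    (h2 : ∀ x : k₀, τ ⟨x, (le_sup_left : k₀ ≤ Ka k₀ ζ) x.2⟩ = x) :
    τ = algebraMap (Ka k₀ ζ) ℂ := by
  let N : IntermediateField ℚ ℂ :=
    { carrier := {x | ∃ h : x ∈ Ka k₀ ζ, τ ⟨x, h⟩ = x}
      mul_mem' := by
        rintro x y ⟨hx, hx'⟩ ⟨hy, hy'⟩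
        refine ⟨mul_mem hx hy, ?_⟩
        have h := map_mul τ ⟨x, hx⟩ ⟨y, hy⟩
        rw [hx', hy'] at h
        exact h
      one_mem' := ⟨one_mem _, map_one τ⟩
      add_mem' := by
        rintro x y ⟨hx, hx'⟩ ⟨hy, hy'⟩
        refine ⟨add_mem hx hy, ?_⟩
        have h := map_add τ ⟨x, hx⟩ ⟨y, hy⟩
        rw [hx', hy'] at h
        exact h
      zero_mem' := ⟨zero_mem _, map_zero τ⟩
      algebraMap_mem' := by
        intro r
        refine ⟨(Ka k₀ ζ).algebraMap_mem r, ?_⟩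
        exact map_ratCast τ r
      inv_mem' := by
        rintro x ⟨hx, hx'⟩
        refine ⟨inv_mem hx, ?_⟩
        have h := map_inv₀ τ ⟨x, hx⟩
        rw [hx'] at h
        exact h }
  have h3 : Ka k₀ ζ ≤ N := by
    refine sup_le (fun x hx => ?_) (fun x hx => ?_)
    · exact ⟨(le_sup_left : k₀ ≤ Ka k₀ ζ) hx, h2 ⟨x, hx⟩⟩
    · exact ⟨(le_sup_right : Qa ζ ≤ Ka k₀ ζ) hx, h1 ⟨x, hx⟩⟩
  refine RingHom.ext fun x => ?_
  obtain ⟨_, h4⟩ := h3 x.2
  exact h4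

/-- the embedding of `ℚ(ζ)` which maps `ζ` to `z` -/
private theorem Trc_emb {n : ℕ} (hn : 0 < n) {ζ z : ℂ} (hζ : IsPrimitiveRoot ζ n)
    (hz : IsPrimitiveRoot z n) : ∃ σ : Qa ζ →+* ℂ, ∀ (t : Qa ζ) (P : ℤ[X]),
      aeval ζ P = (t : ℂ) → σ t = aeval z P := by
  have hint : IsIntegral ℚ ζ := (hζ.isIntegral hn).tower_top
  have hroot : aeval z (minpoly ℚ ζ) = 0 := by
    have : NeZero n := ⟨hn.ne'⟩
    rw [← cyclotomic_eq_minpoly_rat hζ hn, cyclotomic_eq_minpoly_rat hz hn]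
    exact minpoly.aeval ℚ z
  have hmem : z ∈ (minpoly ℚ ζ).aroots ℂ := by
    rw [mem_aroots]
    exact ⟨minpoly.ne_zero hint, hroot⟩
  let φ : Qa ζ →ₐ[ℚ] ℂ := (IntermediateField.algHomAdjoinIntegralEquiv ℚ hint).symm ⟨z, hmem⟩
  have hφ : φ (IntermediateField.AdjoinSimple.gen ℚ ζ) = z :=
    IntermediateField.algHomAdjoinIntegralEquiv_symm_apply_gen ℚ hint ⟨z, hmem⟩
  refine ⟨φ.toRingHom, fun t P h => ?_⟩
  have h1 : t = aeval (IntermediateField.AdjoinSimple.gen ℚ ζ) P := by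
    apply Subtype.ext
    rw [← h]
    change _ = (algebraMap (Qa ζ) ℂ) _
    rw [← aeval_algebraMap_apply, IntermediateField.AdjoinSimple.algebraMap_gen]
  change φ t = _
  rw [h1]
  have h2 : φ (aeval (IntermediateField.AdjoinSimple.gen ℚ ζ) P) =
      aeval (φ (IntermediateField.AdjoinSimple.gen ℚ ζ)) P :=
    (aeval_algHom_apply (φ.restrictScalars ℤ) _ P).symm
  rw [h2, hφ]

theorem trace_coord (k₀ : IntermediateField ℚ ℂ) (hk : FiniteDimensional ℚ k₀) :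
    ∃ (e : ℕ) (β : Fin e → ℂ) (δ : ℕ) (B : ℝ), 0 < e ∧ 0 < δ ∧ 0 ≤ B ∧ (∀ i, β i ∈ k₀) ∧
      ∀ n : ℕ, 0 < n → ∀ ζ : ℂ, IsPrimitiveRoot ζ n → ∀ s : Ka k₀ ζ, IsIntegral ℤ (s : ℂ) →
        ∀ C : ℝ, (∀ τ : Ka k₀ ζ →+* ℂ, ‖τ s‖ ≤ C) →
          ∃ P : Fin e → ℤ[X], (δ : ℂ) * s = ∑ i, β i * aeval ζ (P i) ∧
            ∀ i, ∀ z : ℂ, IsPrimitiveRoot z n → ‖aeval z (P i)‖ ≤ B * C := by
  classical
  have hnf : NumberField k₀ := { }
  set e := Module.finrank ℚ k₀ with he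
  let b := Module.finBasis ℚ k₀
  let c := (Algebra.traceForm ℚ k₀).dualBasis (traceForm_nondegenerate ℚ k₀) b
  have hbc : ∀ i j, Algebra.trace ℚ k₀ (b i * c j) = if i = j then 1 else 0 := fun i j =>
    (Algebra.traceForm ℚ k₀).apply_dualBasis_right (traceForm_nondegenerate ℚ k₀)
      (Algebra.traceForm_isSymm ℚ) b i j
  obtain ⟨y, hy0, hy⟩ := exists_integral_multiples ℤ ℚ (Finset.univ.image c)
  have hδ : ∀ i, IsIntegral ℤ ((y.natAbs : k₀) * c i) := by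
    intro i
    have h1 := hy (c i) (Finset.mem_image_of_mem _ (Finset.mem_univ _))
    rw [zsmul_eq_mul] at h1
    have h2 : ((y.natAbs : ℤ) : k₀) = y ∨ ((y.natAbs : ℤ) : k₀) = -y := by
      rcases Int.natAbs_eq y with h | h
      · left
        rw [← h]
      · right
        rw [← Int.cast_neg]
        congr 1
        omega
    rw [Int.cast_natCast] at h2
    rcases h2 with h2 | h2
    · rw [h2]
      exact h1
    · rw [h2, neg_mul]
      exact h1.neg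
  refine ⟨e, fun i => (b i : ℂ), y.natAbs,
    e * ∑ i, ∑ ρ : k₀ →+* ℂ, ‖ρ ((y.natAbs : k₀) * c i)‖, Module.finrank_pos,
    Int.natAbs_pos.2 hy0, by positivity, fun i => (b i).2, ?_⟩
  intro n hn ζ hζ s hs C hC
  have hint : IsIntegral ℚ ζ := (hζ.isIntegral hn).tower_top
  have hfdL : FiniteDimensional ℚ (Qa ζ) := IntermediateField.adjoin.finiteDimensional hint
  have hfdM : FiniteDimensional ℚ (Ka k₀ ζ) := IntermediateField.finiteDimensional_sup k₀ (Qa ζ)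
  let _ : Algebra k₀ (Ka k₀ ζ) :=
    (IntermediateField.inclusion (le_sup_left : k₀ ≤ Ka k₀ ζ)).toRingHom.toAlgebra
  let _ : Algebra (Qa ζ) (Ka k₀ ζ) :=
    (IntermediateField.inclusion (le_sup_right : Qa ζ ≤ Ka k₀ ζ)).toRingHom.toAlgebra
  have hst : IsScalarTower ℚ (Qa ζ) (Ka k₀ ζ) := IsScalarTower.of_algebraMap_eq fun x => rfl
  have hfdML : FiniteDimensional (Qa ζ) (Ka k₀ ζ) := Module.Finite.of_restrictScalars_finite ℚ _ _
  have hrk : Module.finrank (Qa ζ) (Ka k₀ ζ) ≤ e := by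
    have h1 := IntermediateField.finrank_sup_le k₀ (Qa ζ)
    have h2 := Module.finrank_mul_finrank ℚ (Qa ζ) (Ka k₀ ζ)
    have h3 : 0 < Module.finrank ℚ (Qa ζ) := Module.finrank_pos
    rw [← h2, mul_comm (Module.finrank ℚ k₀)] at h1
    exact Nat.le_of_mul_le_mul_left h1 h3
  let ι : Ka k₀ ζ →+* ℂ := algebraMap (Ka k₀ ζ) ℂ
  have hC0 : 0 ≤ C := (norm_nonneg _).trans (hC ι)
  let x : Fin e → Ka k₀ ζ := fun i => s * algebraMap k₀ (Ka k₀ ζ) ((y.natAbs : k₀) * c i)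
  let t : Fin e → Qa ζ := fun i => Algebra.trace (Qa ζ) (Ka k₀ ζ) (x i)
  have hsint : IsIntegral ℤ s := by
    have h1 : IsIntegral ℤ (algebraMap (Ka k₀ ζ) ℂ s) := hs
    exact (isIntegral_algebraMap_iff (algebraMap (Ka k₀ ζ) ℂ).injective).1 h1
  have hxint : ∀ i, IsIntegral ℤ (x i) := fun i =>
    hsint.mul ((hδ i).map (algebraMap k₀ (Ka k₀ ζ)).toIntAlgHom)
  have htint : ∀ i, IsIntegral ℤ (t i : ℂ) := fun i =>
    (Algebra.isIntegral_trace (hxint i)).map (algebraMap (Qa ζ) ℂ).toIntAlgHom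
  choose P hP using fun i => exists_poly hn hζ (t i).2 (htint i)
  refine ⟨P, ?_, ?_⟩
  · have huniq : ∀ τ : Ka k₀ ζ →+* ℂ,
        τ.comp (algebraMap (Qa ζ) (Ka k₀ ζ)) = ι.comp (algebraMap (Qa ζ) (Ka k₀ ζ)) →
        τ.comp (algebraMap k₀ (Ka k₀ ζ)) = ι.comp (algebraMap k₀ (Ka k₀ ζ)) → τ = ι := by
      intro τ h1 h2
      exact Trc_uniq k₀ ζ τ (fun x => RingHom.congr_fun h1 x) (fun x => RingHom.congr_fun h2 x)
    have h1 := Trc_formula k₀ (Qa ζ) (Ka k₀ ζ) b c he hbc ι huniq ((y.natAbs : Ka k₀ ζ) * s)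
    have h2 : ι ((y.natAbs : Ka k₀ ζ) * s) = (y.natAbs : ℂ) * s := by
      rw [map_mul, map_natCast]
      rfl
    rw [← h2, h1]
    refine Finset.sum_congr rfl fun i _ => ?_
    rw [hP i]
    have h3 : (y.natAbs : Ka k₀ ζ) * s * algebraMap k₀ (Ka k₀ ζ) (c i) = x i := by
      change _ = s * algebraMap k₀ (Ka k₀ ζ) ((y.natAbs : k₀) * c i)
      rw [map_mul, map_natCast]
      ring
    rw [h3]
    rfl
  · intro i z hz
    obtain ⟨σ, hσ⟩ := Trc_emb hn hζ hz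
    rw [← hσ (t i) (P i) (hP i)]
    refine (Trc_bound (Qa ζ) (Ka k₀ ζ) σ (x i)
      (C * ∑ i, ∑ ρ : k₀ →+* ℂ, ‖ρ ((y.natAbs : k₀) * c i)‖) fun τ => ?_).trans ?_
    · change ‖τ (s * algebraMap k₀ (Ka k₀ ζ) ((y.natAbs : k₀) * c i))‖ ≤ _
      rw [map_mul, norm_mul]
      refine mul_le_mul (hC τ) ?_ (norm_nonneg _) hC0
      have h1 : ‖(τ.comp (algebraMap k₀ (Ka k₀ ζ))) ((y.natAbs : k₀) * c i)‖ ≤
          ∑ ρ : k₀ →+* ℂ, ‖ρ ((y.natAbs : k₀) * c i)‖ :=
        Finset.single_le_sum (f := fun ρ : k₀ →+* ℂ => ‖ρ ((y.natAbs : k₀) * c i)‖)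
          (fun ρ _ => norm_nonneg _) (Finset.mem_univ _)
      refine h1.trans ?_
      exact Finset.single_le_sum
        (f := fun i => ∑ ρ : k₀ →+* ℂ, ‖ρ ((y.natAbs : k₀) * c i)‖)
        (fun i _ => Finset.sum_nonneg fun ρ _ => norm_nonneg _) (Finset.mem_univ i)
    · have h1 : (0 : ℝ) ≤ C * ∑ i, ∑ ρ : k₀ →+* ℂ, ‖ρ ((y.natAbs : k₀) * c i)‖ := by positivity
      have h2 : (Module.finrank (Qa ζ) (Ka k₀ ζ) : ℝ) ≤ e := by exact_mod_cast hrk
      refine (mul_le_mul_of_nonneg_right h2 h1).trans (le_of_eq ?_)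
      ring

end Pool.Agent.CSG
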